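import Pool.Agent.Lib.KP.S.TRc

/-!
# KP, block S: a real analytic curve lies in a complex curve
-/

set_option autoImplicit false

open Set Filter Topology Metric

namespace KP

namespace C1Aux

open CplxAux

theorem inv1 {g : ℂ → ℂ} {a0 d : ℂ} (hg : ContDiffAt ℂ 1 g a0) (hgd : HasDerivAt g d a0)
    (hd : d ≠ 0) : ∃ κ : ℂ → ℂ, κ (g a0) = a0 ∧ (∀ᶠ ζ in 𝓝 a0, κ (g ζ) = ζ) ∧
      ContinuousAt κ (g a0) ∧ ∀ᶠ y in 𝓝 (g a0), DifferentiableAt ℂ κ y := by
  have h1 := hgd.hasFDerivAt_equiv hd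
  refine ⟨hg.localInverse h1 one_ne_zero, hg.localInverse_apply_image h1 one_ne_zero, ?_, ?_, ?_⟩
  · exact (hg.hasStrictFDerivAt' h1 one_ne_zero).eventually_left_inverse
  · exact (hg.to_localInverse h1 one_ne_zero).continuousAt
  · exact ((hg.to_localInverse h1 one_ne_zero).eventually (by simp)).mono fun y hy =>
      hy.differentiableAt one_ne_zero

theorem inj_ne {s : (Fin 1 → ℝ) → Cn 2} {t0 : Fin 1 → ℝ}
    (h : Function.Injective (fderiv ℝ s t0)) : ∃ i, fderiv ℝ s t0 (Pi.single 0 1) i ≠ 0 := by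
  by_contra hcon
  push Not at hcon
  have h1 : fderiv ℝ s t0 (Pi.single 0 1) = fderiv ℝ s t0 0 := by
    rw [map_zero]
    exact funext hcon
  have h2 := congrFun (h h1) 0
  simp at h2

end C1Aux

open CplxAux TRcAux C1Aux in
theorem pC1 (hCplx : S_Cplx) : S_C1 := by
  intro s t0 hs hinj
  obtain ⟨ρ0, hρ0, F, hF, hFs⟩ := hCplx 1 2 s t0 hs
  have hFs' : ∀ t ∈ ball t0 ρ0, F (cx t) = s t := hFs
  have hF' : DifferentiableOn ℂ F (ball (cx t0) ρ0) := hF
  have hFan : AnalyticOnNhd ℂ F (ball (cx t0) ρ0) :=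
    Pool.Agent.Lib.Osgood.analyticOnNhd isOpen_ball hF'
  have hev : ∀ᶠ t in 𝓝 t0, F (cx t) = s t := by
    filter_upwards [isOpen_ball.mem_nhds (mem_ball_self hρ0)] with t ht
    exact hFs' t ht
  have hmem0 : cx t0 ∈ ball (cx t0) ρ0 := mem_ball_self hρ0
  obtain ⟨i, hi⟩ := inj_ne hinj
  -- the one variable function
  set a0 : ℂ := (t0 0 : ℂ) with ha0
  set cn : ℂ → Cn 1 := fun ζ _ => ζ with hcn
  have hcn0 : cn a0 = cx t0 := by
    funext l
    have : l = 0 := Subsingleton.elim _ _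
    subst this
    rfl
  have hcnd : HasDerivAt cn (fun _ => (1 : ℂ)) a0 := by
    rw [hasDerivAt_pi]
    intro l
    exact hasDerivAt_id a0
  have hcnc : ContDiff ℂ 1 cn := contDiff_pi.2 fun l => contDiff_id
  have hFd : HasFDerivAt F (fderiv ℂ F (cn a0)) (cn a0) := by
    rw [hcn0]
    exact (hF'.differentiableAt (isOpen_ball.mem_nhds hmem0)).hasFDerivAt
  have hgd' : HasDerivAt (fun ζ => F (cn ζ)) (fderiv ℂ F (cn a0) (fun _ => 1)) a0 :=
    hFd.comp_hasDerivAt a0 hcnd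
  have hgd := (hasDerivAt_pi.1 hgd') i
  have hne : fderiv ℂ F (cn a0) (fun _ => 1) i ≠ 0 := by
    have h1 := fd (hF'.differentiableAt (isOpen_ball.mem_nhds hmem0)) hev (Pi.single 0 1)
    rw [cx_single] at h1
    have h2 : (fun _ : Fin 1 => (1 : ℂ)) = Pi.single 0 1 := by
      funext l
      have : l = 0 := Subsingleton.elim _ _
      subst this
      simp
    rw [hcn0, h2, h1]
    exact hi
  have hgc : ContDiffAt ℂ 1 (fun ζ => F (cn ζ) i) a0 := by
    have h1 : ContDiffAt ℂ 1 F (cn a0) := by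
      rw [hcn0]
      exact (hFan _ hmem0).contDiffAt
    exact (contDiffAt_pi.1 (h1.comp a0 hcnc.contDiffAt)) i
  obtain ⟨κ, hκ0, hκ1, hκc, hκd⟩ := inv1 hgc hgd hne
  have hg0 : F (cn a0) i = s t0 i := by
    rw [hcn0, hFs' t0 (mem_ball_self hρ0)]
  rw [hg0] at hκ0 hκc hκd
  -- the other index
  set j : Fin 2 := 1 - i with hj
  have hij : i ≠ j := by
    rw [hj]
    fin_cases i <;> decide
  -- the neighbourhood
  have hnb : ∀ᶠ y in 𝓝 (s t0 i), DifferentiableAt ℂ κ y ∧ cn (κ y) ∈ ball (cx t0) ρ0 := by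
    refine hκd.and ?_
    have h1 : ContinuousAt (fun y => cn (κ y)) (s t0 i) :=
      hcnc.continuous.continuousAt.comp hκc
    have h2 : cn (κ (s t0 i)) ∈ ball (cx t0) ρ0 := by
      rw [hκ0, hcn0]
      exact hmem0
    exact h1.eventually (isOpen_ball.mem_nhds h2)
  obtain ⟨ρ, hρ, hρ1⟩ := Metric.eventually_nhds_iff_ball.1 hnb
  have hzi : ∀ z ∈ ball (s t0) ρ, z i ∈ ball (s t0 i) ρ := by
    intro z hz
    rw [mem_ball] at hz ⊢
    exact (dist_le_pi_dist z (s t0) i).trans_lt hz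
  have hst : s t0 j - F (cn (κ (s t0 i))) j = 0 := by
    rw [hκ0, hcn0, hFs' t0 (mem_ball_self hρ0), sub_self]
  refine ⟨ρ, hρ, fun z => z j - F (cn (κ (z i))) j, ?_, ?_, ?_⟩
  · intro z hz
    obtain ⟨h1, h2⟩ := hρ1 (z i) (hzi z hz)
    have h3 : DifferentiableAt ℂ (fun z : Cn 2 => κ (z i)) z :=
      h1.comp z (differentiableAt_apply i z)
    have h4 : DifferentiableAt ℂ (fun z : Cn 2 => cn (κ (z i))) z :=
      differentiableAt_pi.2 fun _ => h3
    have h5 : DifferentiableAt ℂ (fun z : Cn 2 => F (cn (κ (z i)))) z :=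
      (hF'.differentiableAt (isOpen_ball.mem_nhds h2)).comp z h4
    exact ((differentiableAt_apply j z).sub (differentiableAt_pi.1 h5 j)).differentiableWithinAt
  · refine ⟨s t0 + Pi.single j ((ρ / 2 : ℝ) : ℂ), ?_, ?_⟩
    · rw [mem_ball, dist_eq_norm, add_sub_cancel_left, Pi.norm_single, Complex.norm_real,
        Real.norm_of_nonneg (by positivity)]
      linarith
    · have h1 : (s t0 + Pi.single j ((ρ / 2 : ℝ) : ℂ) : Cn 2) i = s t0 i := by
        rw [Pi.add_apply, Pi.single_eq_of_ne hij, add_zero]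
      have h2 : (s t0 + Pi.single j ((ρ / 2 : ℝ) : ℂ) : Cn 2) j = s t0 j + ((ρ / 2 : ℝ) : ℂ) := by
        rw [Pi.add_apply, Pi.single_eq_same]
      change (s t0 + Pi.single j ((ρ / 2 : ℝ) : ℂ) : Cn 2) j -
        F (cn (κ ((s t0 + Pi.single j ((ρ / 2 : ℝ) : ℂ) : Cn 2) i))) j ≠ 0
      rw [h1, h2]
      have h3 : s t0 j + ((ρ / 2 : ℝ) : ℂ) - F (cn (κ (s t0 i))) j = ((ρ / 2 : ℝ) : ℂ) := by
        linear_combination hst
      rw [h3]
      exact_mod_cast (by positivity : (ρ / 2 : ℝ) ≠ 0)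
  · have h1 : ContinuousAt (fun t : Fin 1 → ℝ => ((t 0 : ℝ) : ℂ)) t0 :=
      (Complex.continuous_ofReal.comp (continuous_apply 0)).continuousAt
    filter_upwards [hev, h1.eventually hκ1] with t ht1 ht2
    have h3 : cn ((t 0 : ℝ) : ℂ) = cx t := by
      funext l
      have : l = 0 := Subsingleton.elim _ _
      subst this
      rfl
    rw [h3] at ht2
    change s t j - F (cn (κ (s t i))) j = 0
    rw [← ht1, ht2, h3, sub_self]

end KP
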