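import Pool.Agent.Lib.KP.SpecS

/-!
# KP, block S: CC (a surface with complex tangent planes is a complex curve)
-/

set_option autoImplicit false

open Set Filter Topology Metric

namespace KP

namespace CCAux

/-- The entries of the derivative. -/
noncomputable def X (s : (Fin 2 → ℝ) → Cn 2) (t : Fin 2 → ℝ) (m i : Fin 2) : ℂ :=
  fderiv ℝ s t (Pi.single m 1) i

theorem decomp (s : (Fin 2 → ℝ) → Cn 2) (t v : Fin 2 → ℝ) (i : Fin 2) :
    fderiv ℝ s t v i = (v 0 : ℂ) * X s t 0 i + (v 1 : ℂ) * X s t 1 i := by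
  have h : v = v 0 • (Pi.single 0 1 : Fin 2 → ℝ) + v 1 • (Pi.single 1 1 : Fin 2 → ℝ) := by
    ext k; fin_cases k <;> simp
  conv_lhs => rw [h, map_add, map_smul, map_smul]
  simp [X, Complex.real_smul]

theorem kap_swap (s : (Fin 2 → ℝ) → Cn 2) (t : Fin 2 → ℝ) (i j : Fin 2) (hij : i ≠ j)
    (h : kap s t = 0) : X s t 0 i * X s t 1 j = X s t 0 j * X s t 1 i := by
  have h' : X s t 0 0 * X s t 1 1 - X s t 0 1 * X s t 1 0 = 0 := h
  fin_cases i <;> fin_cases j
  · exact absurd rfl hij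
  · simp only [Fin.zero_eta, Fin.mk_one] ; linear_combination h'
  · simp only [Fin.zero_eta, Fin.mk_one] ; linear_combination -h'
  · exact absurd rfl hij

theorem main (s : (Fin 2 → ℝ) → Cn 2) (t0 : Fin 2 → ℝ) (hs : AnalyticAt ℝ s t0)
    (hinj : Function.Injective (fderiv ℝ s t0)) (hk : ∀ᶠ t in 𝓝 t0, kap s t = 0)
    (i j : Fin 2) (hij : i ≠ j) (hi : X s t0 0 i ≠ 0) :
    ∃ ρ > 0, ∃ h : Cn 2 → ℂ, DifferentiableOn ℂ h (ball (s t0) ρ) ∧
    (∃ z ∈ ball (s t0) ρ, h z ≠ 0) ∧ ∀ᶠ t in 𝓝 t0, h (s t) = 0 := by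
  have hcases : ∀ k : Fin 2, k = i ∨ k = j := by
    intro k
    fin_cases i <;> fin_cases j <;> fin_cases k <;> simp_all
  -- the derivative of the coordinate `i`
  set pr : Fin 2 → (Cn 2 →L[ℝ] ℂ) :=
    fun m => ContinuousLinearMap.proj (R := ℝ) (φ := fun _ : Fin 2 => ℂ) m with hpr
  have hk0 : kap s t0 = 0 := hk.self_of_nhds
  set Di : (Fin 2 → ℝ) →L[ℝ] ℂ := (pr i).comp (fderiv ℝ s t0) with hDi
  have hDi_inj : Function.Injective Di := by
    rw [injective_iff_map_eq_zero]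
    intro v hv
    have hv' : fderiv ℝ s t0 v i = 0 := hv
    have hvj : fderiv ℝ s t0 v j = 0 := by
      have e1 : X s t0 0 i * fderiv ℝ s t0 v j = X s t0 0 j * fderiv ℝ s t0 v i := by
        rw [decomp, decomp]
        have := kap_swap s t0 i j hij hk0
        linear_combination (v 1 : ℂ) * this
      rw [hv', mul_zero] at e1
      exact (mul_eq_zero.mp e1).resolve_left hi
    have h0 : fderiv ℝ s t0 v = 0 := by
      ext k
      rcases hcases k with rfl | rfl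
      · exact hv'
      · exact hvj
    exact hinj (by rw [h0, map_zero])
  obtain ⟨E, hE⟩ : ∃ E : (Fin 2 → ℝ) ≃L[ℝ] ℂ, (E : (Fin 2 → ℝ) →L[ℝ] ℂ) = Di := by
    refine ⟨(LinearMap.linearEquivOfInjective (Di : (Fin 2 → ℝ) →ₗ[ℝ] ℂ) hDi_inj
      (by rw [Complex.finrank_real_complex]; simp)).toContinuousLinearEquiv, ?_⟩
    ext v; rfl
  set f : (Fin 2 → ℝ) → ℂ := fun t => s t i with hf
  have hfan : AnalyticAt ℝ f t0 := AnalyticAt.fun_comp ((pr i).analyticAt _) hs
  have hfder : ∀ t, AnalyticAt ℝ s t → HasFDerivAt f ((pr i).comp (fderiv ℝ s t)) t := by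
    intro t ht
    exact (pr i).hasFDerivAt.comp t ht.differentiableAt.hasFDerivAt
  have hf' : HasFDerivAt f (E : (Fin 2 → ℝ) →L[ℝ] ℂ) t0 := by rw [hE]; exact hfder t0 hs
  have hfc : ContDiffAt ℝ 1 f t0 := hfan.contDiffAt
  have hstrict : HasStrictFDerivAt f (E : (Fin 2 → ℝ) →L[ℝ] ℂ) t0 :=
    hfc.hasStrictFDerivAt' hf' one_ne_zero
  set κ : ℂ → (Fin 2 → ℝ) := hstrict.localInverse f E t0 with hκ
  have hleft : ∀ᶠ t in 𝓝 t0, κ (f t) = t := hstrict.eventually_left_inverse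
  have hright : ∀ᶠ ζ in 𝓝 (f t0), f (κ ζ) = ζ := hstrict.eventually_right_inverse
  have hκ0 : κ (f t0) = t0 := hstrict.localInverse_apply_image
  have hκc : ContDiffAt ℝ 1 κ (f t0) := hfc.to_localInverse hf' one_ne_zero
  have hκd : ∀ᶠ ζ in 𝓝 (f t0), ContDiffAt ℝ 1 κ ζ := hκc.eventually (by simp)
  have hκt : Tendsto κ (𝓝 (f t0)) (𝓝 t0) := by
    have := hκc.continuousAt.tendsto
    rwa [hκ0] at this
  have hXcont : ContinuousAt (fun t => X s t 0 i) t0 := by
    have h2 : AnalyticAt ℝ (fderiv ℝ s) t0 := hs.fderiv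
    have h3 : ContinuousAt (fun t => fderiv ℝ s t (Pi.single 0 1)) t0 :=
      h2.continuousAt.clm_apply continuousAt_const
    exact (continuousAt_pi.mp h3) i
  set φ : ℂ → ℂ := fun ζ => s (κ ζ) j with hφ
  -- `φ` is holomorphic near `f t0`
  have hφd : ∀ᶠ ζ in 𝓝 (f t0), DifferentiableAt ℂ φ ζ := by
    have g1 : ∀ᶠ t in 𝓝 t0, AnalyticAt ℝ s t ∧ kap s t = 0 ∧ X s t 0 i ≠ 0 :=
      hs.eventually_analyticAt.and (hk.and (hXcont.eventually_ne hi))
    filter_upwards [hκt.eventually g1, hκd, eventually_eventually_nhds.mpr hright] with ζ h1 h2 h3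
    obtain ⟨h1a, h1k, h1x⟩ := h1
    set t := κ ζ with ht
    set α : ℂ := X s t 0 j / X s t 0 i with hα
    have d1 : HasFDerivAt κ (fderiv ℝ κ ζ) ζ :=
      (h2.differentiableAt one_ne_zero).hasFDerivAt
    have g2 : HasFDerivAt f ((pr i).comp (fderiv ℝ s t)) (κ ζ) := hfder t h1a
    have d2 : HasFDerivAt (f ∘ κ) (((pr i).comp (fderiv ℝ s t)).comp (fderiv ℝ κ ζ)) ζ :=
      g2.comp ζ d1
    have d3 : HasFDerivAt (fun ζ : ℂ => ζ) (((pr i).comp (fderiv ℝ s t)).comp (fderiv ℝ κ ζ)) ζ :=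
      d2.congr_of_eventuallyEq (h3.mono fun _ h => h.symm)
    have d4 := (hasFDerivAt_id (𝕜 := ℝ) ζ).unique d3
    have g5 : HasFDerivAt (fun t => s t j) ((pr j).comp (fderiv ℝ s t)) (κ ζ) :=
      (pr j).hasFDerivAt.comp t h1a.differentiableAt.hasFDerivAt
    have d5 : HasFDerivAt φ (((pr j).comp (fderiv ℝ s t)).comp (fderiv ℝ κ ζ)) ζ :=
      g5.comp ζ d1
    have d6 : HasFDerivAt φ (α • ContinuousLinearMap.id ℂ ℂ : ℂ →L[ℂ] ℂ) ζ := by
      refine hasFDerivAt_of_restrictScalars ℝ d5 ?_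
      ext w
      show α * w = fderiv ℝ s t (fderiv ℝ κ ζ w) j
      have e1 := congrArg (fun g => g w) d4
      have e2 : w = fderiv ℝ s t (fderiv ℝ κ ζ w) i := e1
      conv_lhs => rw [e2]
      set v := fderiv ℝ κ ζ w with hv
      rw [decomp, decomp, hα]
      have e3 := kap_swap s t i j hij h1k
      field_simp
      linear_combination -(v 1 : ℂ) * e3
    exact d6.differentiableAt
  obtain ⟨ρ, hρ, hball⟩ := Metric.eventually_nhds_iff_ball.mp hφd
  refine ⟨ρ, hρ, fun z => z j - φ (z i), ?_, ?_, ?_⟩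
  · intro z hz
    have hzi : z i ∈ ball (f t0) ρ := by
      rw [mem_ball, dist_eq_norm] at hz ⊢
      exact (norm_le_pi_norm (z - s t0) i).trans_lt hz
    have d1 : DifferentiableAt ℂ (fun z : Cn 2 => z i) z := differentiableAt_apply i z
    have d2 : DifferentiableAt ℂ (fun z : Cn 2 => z j) z := differentiableAt_apply j z
    exact (d2.sub ((hball _ hzi).comp z d1)).differentiableWithinAt
  · refine ⟨s t0 + Pi.single j ((ρ / 2 : ℝ) : ℂ), ?_, ?_⟩
    · rw [mem_ball, dist_eq_norm, add_sub_cancel_left, Pi.norm_single, Complex.norm_real,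
        Real.norm_of_nonneg (by positivity)]
      linarith
    · have e1 : (s t0 + Pi.single j ((ρ / 2 : ℝ) : ℂ) : Cn 2) i = f t0 := by
        simp [hf, Pi.single_eq_of_ne hij]
      have e2 : (s t0 + Pi.single j ((ρ / 2 : ℝ) : ℂ) : Cn 2) j = s t0 j + ((ρ / 2 : ℝ) : ℂ) := by
        simp
      show (s t0 + Pi.single j ((ρ / 2 : ℝ) : ℂ) : Cn 2) j -
        φ ((s t0 + Pi.single j ((ρ / 2 : ℝ) : ℂ) : Cn 2) i) ≠ 0
      rw [e1, e2, hφ]
      simp only [hκ0]
      rw [add_sub_cancel_left]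
      exact_mod_cast (by positivity : (ρ / 2) ≠ 0)
  · filter_upwards [hleft] with t ht
    show s t j - s (κ (f t)) j = 0
    rw [ht, sub_self]

end CCAux

open CCAux in
theorem tCC  : S_CC := by
  intro s t0 hs hinj hk
  have hne : fderiv ℝ s t0 (Pi.single 0 1) ≠ 0 := by
    intro h
    have h1 := hinj (h.trans (map_zero (fderiv ℝ s t0)).symm)
    have := congrFun h1 0
    simp at this
  by_cases h0 : X s t0 0 0 = 0
  · have h1 : X s t0 0 1 ≠ 0 := by
      intro h1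
      apply hne
      ext k
      fin_cases k
      · exact h0
      · exact h1
    exact main s t0 hs hinj hk 1 0 (by decide) h1
  · exact main s t0 hs hinj hk 0 1 (by decide) h0

end KP
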