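import Pool.Agent.Lib.KP.SpecS

/-!
# KP, block S: complexification of real analytic maps
-/

set_option autoImplicit false

open Set Filter Topology Metric

namespace KP

namespace CplxAux

variable {m k : ℕ}

/-- the inclusion of the real vectors -/
def cx (t : Fin m → ℝ) : Cn m := fun i => (t i : ℂ)

/-- the unit vectors -/
noncomputable def ev (j : Fin m) : Fin m → ℝ := Pi.single j 1

/-- the monomial `z ↦ ∏ s, z s (j s)` -/
noncomputable def mon (i : ℕ) (j : Fin i → Fin m) :
    ContinuousMultilinearMap ℂ (fun _ : Fin i => Cn m) ℂ :=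
  (ContinuousMultilinearMap.mkPiAlgebra ℂ (Fin i) ℂ).compContinuousLinearMap
    (fun s => ContinuousLinearMap.proj (R := ℂ) (φ := fun _ : Fin m => ℂ) (j s))

theorem mon_apply (i : ℕ) (j : Fin i → Fin m) (z : Fin i → Cn m) :
    mon i j z = ∏ s, z s (j s) := by
  simp [mon]

theorem mon_norm (i : ℕ) (j : Fin i → Fin m) : ‖mon i j‖ ≤ 1 := by
  refine ContinuousMultilinearMap.opNorm_le_bound zero_le_one fun z => ?_
  rw [mon_apply, norm_prod, one_mul]
  exact Finset.prod_le_prod (fun _ _ => norm_nonneg _) fun s _ => norm_le_pi_norm (z s) (j s)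

/-- the complexification of a multilinear map -/
noncomputable def qm (i : ℕ) (p : ContinuousMultilinearMap ℝ (fun _ : Fin i => (Fin m → ℝ)) (Cn k)) :
    ContinuousMultilinearMap ℂ (fun _ : Fin i => Cn m) (Cn k) :=
  ∑ j : Fin i → Fin m, (mon i j).smulRight (p fun s => ev (j s))

theorem qm_apply (i : ℕ) (p : ContinuousMultilinearMap ℝ (fun _ : Fin i => (Fin m → ℝ)) (Cn k))
    (z : Fin i → Cn m) :
    qm i p z = ∑ j : Fin i → Fin m, (∏ s, z s (j s)) • p fun s => ev (j s) := by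
  unfold qm
  rw [_root_.sum_apply]
  refine Finset.sum_congr rfl fun j _ => ?_
  rw [ContinuousMultilinearMap.smulRight_apply, mon_apply]

theorem qm_norm (i : ℕ) (p : ContinuousMultilinearMap ℝ (fun _ : Fin i => (Fin m → ℝ)) (Cn k)) :
    ‖qm i p‖ ≤ ‖p‖ * ((m + 1 : ℕ) : ℝ) ^ i := by
  unfold qm
  refine (norm_sum_le _ _).trans ?_
  have h1 : ∀ j : Fin i → Fin m, ‖(mon i j).smulRight (p fun s => ev (j s))‖ ≤ ‖p‖ := by
    intro j
    rw [ContinuousMultilinearMap.norm_smulRight]
    have h2 : ‖p fun s => ev (j s)‖ ≤ ‖p‖ := by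
      refine (p.le_opNorm _).trans ?_
      have h3 : ∏ s, ‖ev (j s)‖ ≤ 1 := by
        refine Finset.prod_le_one (fun _ _ => norm_nonneg _) fun s _ => ?_
        unfold ev
        rw [Pi.norm_single]
        simp
      calc ‖p‖ * ∏ s, ‖ev (j s)‖ ≤ ‖p‖ * 1 := mul_le_mul_of_nonneg_left h3 (norm_nonneg _)
        _ = ‖p‖ := mul_one _
    calc ‖mon i j‖ * ‖p fun s => ev (j s)‖ ≤ 1 * ‖p‖ :=
          mul_le_mul (mon_norm i j) h2 (norm_nonneg _) zero_le_one
      _ = ‖p‖ := one_mul _
  refine (Finset.sum_le_sum fun j _ => h1 j).trans ?_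
  rw [Finset.sum_const, Finset.card_univ, Fintype.card_fun, Fintype.card_fin, Fintype.card_fin,
    nsmul_eq_mul, mul_comm]
  refine mul_le_mul_of_nonneg_left ?_ (norm_nonneg _)
  push_cast
  exact pow_le_pow_left₀ (Nat.cast_nonneg m) (by linarith) i

theorem qm_real (i : ℕ) (p : ContinuousMultilinearMap ℝ (fun _ : Fin i => (Fin m → ℝ)) (Cn k))
    (x : Fin i → Fin m → ℝ) : qm i p (fun s => cx (x s)) = p x := by
  rw [qm_apply]
  have h1 : ∀ s, x s = ∑ j : Fin m, x s j • ev j := by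
    intro s
    ext l
    rw [Finset.sum_apply]
    simp [ev, Pi.single_apply]
  have h2 : p x = p (fun s => ∑ j : Fin m, x s j • ev j) := congrArg p (funext h1)
  rw [h2, p.map_sum]
  refine Finset.sum_congr rfl fun j _ => ?_
  rw [p.map_smul_univ]
  have h3 : (∏ s, cx (x s) (j s) : ℂ) = ((∏ s, x s (j s) : ℝ) : ℂ) := by
    unfold cx
    push_cast
    rfl
  rw [h3]
  ext l
  simp

end CplxAux

open CplxAux in
theorem pCplx : S_Cplx := by
  intro m k f a hf
  obtain ⟨p, r, hp⟩ := hf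
  -- the complex series
  set q : FormalMultilinearSeries ℂ (Cn m) (Cn k) := fun i => qm i (p i) with hq
  obtain ⟨r₀, hr0, hr1⟩ := ENNReal.lt_iff_exists_nnreal_btwn.1 hp.r_pos
  have hr0' : 0 < r₀ := by exact_mod_cast hr0
  obtain ⟨C, hC, hb⟩ := p.norm_mul_pow_le_of_lt_radius (hr1.trans_le hp.r_le)
  set s : NNReal := r₀ / ((m + 1 : ℕ) : NNReal) with hs
  have hm : (0 : ℝ) < ((m + 1 : ℕ) : ℝ) := by exact_mod_cast Nat.succ_pos m
  have hs0 : 0 < s := by
    rw [hs]
    exact div_pos hr0' (by exact_mod_cast Nat.succ_pos m)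
  have hsr : s ≤ r₀ := by
    rw [hs]
    refine div_le_self zero_le ?_
    exact_mod_cast Nat.succ_le_succ (Nat.zero_le m)
  have hrad : (s : ENNReal) ≤ q.radius := by
    refine q.le_radius_of_bound C fun i => ?_
    have h1 := qm_norm i (p i)
    have h2 : (s : ℝ) ^ i = (r₀ : ℝ) ^ i / ((m + 1 : ℕ) : ℝ) ^ i := by
      rw [hs, NNReal.coe_div, div_pow, NNReal.coe_natCast]
    calc ‖q i‖ * (s : ℝ) ^ i ≤ (‖p i‖ * ((m + 1 : ℕ) : ℝ) ^ i) * (s : ℝ) ^ i :=
          mul_le_mul_of_nonneg_right h1 (by positivity)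
      _ = ‖p i‖ * (r₀ : ℝ) ^ i := by
          rw [h2]
          field_simp
      _ ≤ C := hb i
  have hq0 : 0 < q.radius := lt_of_lt_of_le (by exact_mod_cast hs0) hrad
  refine ⟨s, by exact_mod_cast hs0, fun z => q.sum (z - cx a), ?_, ?_⟩
  · refine (q.hasFPowerSeriesOnBall hq0).differentiableOn.comp
      (differentiableOn_id.sub_const _) fun z hz => ?_
    rw [Metric.mem_eball, edist_zero_right]
    refine lt_of_lt_of_le ?_ hrad
    rw [mem_ball, dist_eq_norm] at hz
    rw [enorm_eq_nnnorm]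
    exact_mod_cast hz
  · intro t ht
    rw [mem_ball, dist_eq_norm] at ht
    have h3 : (fun i => (t i : ℂ)) - cx a = cx (t - a) := by
      ext i
      simp [cx]
    change q.sum ((fun i => (t i : ℂ)) - cx a) = f t
    rw [h3]
    have h4 : q.sum (cx (t - a)) = p.sum (t - a) := by
      unfold FormalMultilinearSeries.sum
      refine tsum_congr fun i => ?_
      exact qm_real i (p i) fun _ => t - a
    rw [h4, ← hp.sum, add_sub_cancel]
    rw [Metric.mem_eball, edist_zero_right, enorm_eq_nnnorm]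
    refine lt_trans ?_ hr1
    have h5 : ‖t - a‖₊ < r₀ := by
      have : ‖t - a‖ < (r₀ : ℝ) := ht.trans_le (by exact_mod_cast hsr)
      exact_mod_cast this
    exact_mod_cast h5

end KP
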