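import Pool.Agent.Lib.KP.SpecS

/-!
# KP (MP_64edc4_ag), block S, Div1: division by a coordinate
-/

set_option autoImplicit false

open Set Filter Topology Metric

namespace KP

/-- The difference quotient in the direction of the `i`-th coordinate. -/
private noncomputable def dq {k : ℕ} (i : Fin k) (G : Cn k → ℂ) (z : Cn k) : ℂ → ℂ :=
  dslope (fun ζ : ℂ => G (Function.update z i ζ)) 0

/-- The `i`-th coordinate vector. -/
private noncomputable def sg {k : ℕ} (i : Fin k) (s : ℂ) : Cn k := Pi.single i s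

private theorem open_ne {k : ℕ} (i : Fin k) : IsOpen {w : Cn k | w i ≠ 0} := by
  have h : Continuous (fun w : Cn k => w i) := continuous_apply i
  exact isOpen_ne.preimage h

private theorem cont_sg {k : ℕ} (i : Fin k) : Continuous (sg i) := by
  unfold sg
  refine continuous_pi fun j => ?_
  by_cases hj : j = i
  · subst hj
    simp only [Pi.single_eq_same]
    exact continuous_id
  · simpa [Pi.single_eq_of_ne hj] using continuous_const

private theorem norm_sg {k : ℕ} (i : Fin k) (s : ℂ) : ‖sg i s‖ = ‖s‖ := by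
  unfold sg
  refine le_antisymm ((pi_norm_le_iff_of_nonneg (norm_nonneg s)).2 fun j => ?_) ?_
  · by_cases hj : j = i
    · subst hj
      rw [Pi.single_eq_same]
    · rw [Pi.single_eq_of_ne hj, norm_zero]
      exact norm_nonneg s
  · have h := norm_le_pi_norm (Pi.single i s : Cn k) i
    rwa [Pi.single_eq_same] at h

private theorem add_sg {k : ℕ} (i : Fin k) (z : Cn k) (s : ℂ) : (z + sg i s) i = z i + s := by
  unfold sg
  rw [Pi.add_apply, Pi.single_eq_same]

private theorem upd_mem {k : ℕ} {i : Fin k} {c z : Cn k} {ρ : ℝ} {ζ : ℂ} (hc : c i = 0)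
    (hz : z ∈ ball c ρ) (hζ : ‖ζ‖ < ρ) : Function.update z i ζ ∈ ball c ρ := by
  have hρ : 0 < ρ := lt_of_le_of_lt (norm_nonneg ζ) hζ
  rw [mem_ball, dist_pi_lt_iff hρ] at hz ⊢
  intro j
  by_cases hj : j = i
  · subst hj
    rw [Function.update_self, hc, dist_zero_right]
    exact hζ
  · rw [Function.update_of_ne hj]
    exact hz j

private theorem dq_add {k : ℕ} (i : Fin k) (G : Cn k → ℂ) (z : Cn k) (s : ℂ) :
    dq i G (z + sg i s) = dq i G z := by
  have h : ∀ ζ, Function.update (z + sg i s) i ζ = Function.update z i ζ := by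
    intro ζ
    ext j
    by_cases hj : j = i
    · subst hj
      rw [Function.update_self, Function.update_self]
    · unfold sg
      rw [Function.update_of_ne hj, Function.update_of_ne hj, Pi.add_apply,
        Pi.single_eq_of_ne hj, add_zero]
  unfold dq
  simp only [h]

private theorem diff_dq {k : ℕ} {i : Fin k} {c z : Cn k} {ρ : ℝ} {G : Cn k → ℂ} (hc : c i = 0)
    (hG : DifferentiableOn ℂ G (ball c ρ)) (hz : z ∈ ball c ρ) :
    DifferentiableOn ℂ (dq i G z) (ball 0 ρ) := by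
  have hρ : 0 < ρ := lt_of_le_of_lt dist_nonneg hz
  refine (Complex.differentiableOn_dslope (ball_mem_nhds 0 hρ)).2 ?_
  intro ζ hζ
  have hm := upd_mem hc hz (mem_ball_zero_iff.1 hζ)
  have d1 : DifferentiableAt ℂ G (Function.update z i ζ) := (hG _ hm).differentiableAt
    (isOpen_ball.mem_nhds hm)
  have d2 : DifferentiableAt ℂ (fun ζ : ℂ => (Function.update z i ζ : Cn k)) ζ :=
    (hasFDerivAt_update z ζ).differentiableAt
  exact (d1.comp ζ d2).differentiableWithinAt

private theorem cau {k : ℕ} {i : Fin k} {c : Cn k} {ρ : ℝ} {G : Cn k → ℂ} (hc : c i = 0)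
    (hG : DifferentiableOn ℂ G (ball c ρ)) (z : Cn k) (hz : z ∈ ball c ρ) (σ : ℝ) (hσ : 0 < σ)
    (hs : ∀ s : ℂ, ‖s‖ ≤ σ → z + sg i s ∈ ball c ρ) (f : Cn k → ℂ)
    (hf : ∀ s ∈ sphere (0 : ℂ) σ, f (z + sg i s) =
      dq i G (z + sg i s) ((z + sg i s) i)) :
    dq i G z (z i) =
      (2 * Real.pi * Complex.I : ℂ)⁻¹ • ∮ s in C(0, σ), s⁻¹ • f (z + sg i s) := by
  have hp : DifferentiableOn ℂ (fun s : ℂ => dq i G z (z i + s)) (closedBall 0 σ) := by
    refine (diff_dq hc hG hz).comp ((differentiable_id.const_add _).differentiableOn) ?_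
    intro s hs'
    have h1 := hs s (mem_closedBall_zero_iff.1 hs')
    have h2 := (dist_le_pi_dist (z + sg i s) c i).trans_lt h1
    rw [add_sg, hc] at h2
    exact h2
  have h3 := hp.circleIntegral_sub_inv_smul (mem_ball_self hσ)
  rw [add_zero] at h3
  have hne : (2 * Real.pi * Complex.I : ℂ) ≠ 0 := by
    simp [Real.pi_ne_zero, Complex.I_ne_zero]
  have h4 : (∮ s in C(0, σ), s⁻¹ • f (z + sg i s)) =
      ∮ s in C(0, σ), (s - 0)⁻¹ • dq i G z (z i + s) := by
    refine circleIntegral.integral_congr hσ.le ?_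
    intro s hs'
    dsimp only
    rw [hf s hs', sub_zero, add_sg, dq_add]
  rw [h4, h3, smul_smul, inv_mul_cancel₀ hne, one_smul]

private theorem difq {k : ℕ} {i : Fin k} {c : Cn k} {ρ : ℝ} {G : Cn k → ℂ}
    (hG : DifferentiableOn ℂ G (ball c ρ)) (z0 : Cn k) (σ : ℝ) (hσ : 0 < σ)
    (hs : ∀ s ∈ sphere (0 : ℂ) σ, z0 + sg i s ∈ ball c ρ ∧ (z0 + sg i s) i ≠ 0)
    (f : Cn k → ℂ) (hfe : f = fun w : Cn k => (w i)⁻¹ * G w) :
    DifferentiableAt ℂ (fun z : Cn k => (2 * Real.pi * Complex.I : ℂ)⁻¹ •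
      ∮ s in C(0, σ), s⁻¹ • f (z + sg i s)) z0 := by
  have hUo : IsOpen {w : Cn k | w ∈ ball c ρ ∧ w i ≠ 0} := isOpen_ball.inter (open_ne i)
  have hf : DifferentiableOn ℂ f {w : Cn k | w ∈ ball c ρ ∧ w i ≠ 0} := by
    rw [hfe]
    intro w hw
    apply DifferentiableAt.differentiableWithinAt
    have d1 : DifferentiableAt ℂ G w := (hG w hw.1).differentiableAt
      (isOpen_ball.mem_nhds hw.1)
    have d2 : DifferentiableAt ℂ (fun w : Cn k => w i) w := differentiableAt_apply i w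
    exact (d2.inv hw.2).mul d1
  have hk : ContinuousOn (fun s : ℂ => s⁻¹) (sphere 0 σ) := by
    apply ContinuousOn.inv₀ continuousOn_id
    intro s hs' h
    rw [mem_sphere, dist_zero_right] at hs'
    rw [id] at h
    rw [h, norm_zero] at hs'
    exact hσ.ne hs'
  have hc : ContinuousOn (sg i) (sphere 0 σ) := (cont_sg i).continuousOn
  have h := Pool.Agent.Lib.Osgood.differentiableAt_circleIntegral hUo hf hσ.le hk hc hs
  exact DifferentiableAt.const_smul (R := ℂ) h (2 * Real.pi * Complex.I : ℂ)⁻¹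

private theorem dq_ne {k : ℕ} {i : Fin k} {c : Cn k} {ρ : ℝ} {G : Cn k → ℂ} (hc : c i = 0)
    (h0 : ∀ z ∈ ball c ρ, z i = 0 → G z = 0) (z : Cn k) (hz : z ∈ ball c ρ) (hzi : z i ≠ 0) :
    dq i G z (z i) = (z i)⁻¹ * G z := by
  have hρ : 0 < ρ := lt_of_le_of_lt dist_nonneg hz
  have h : G (Function.update z i 0) = 0 :=
    h0 _ (upd_mem hc hz (by rwa [norm_zero])) (Function.update_self _ _ _)
  unfold dq
  rw [dslope_of_ne _ hzi, slope_def_field, h, Function.update_eq_self, sub_zero, sub_zero,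
    div_eq_inv_mul]

private theorem difAt {k : ℕ} {i : Fin k} {c : Cn k} {ρ : ℝ} {G : Cn k → ℂ} (hc : c i = 0)
    (hG : DifferentiableOn ℂ G (ball c ρ)) (h0 : ∀ z ∈ ball c ρ, z i = 0 → G z = 0)
    (z0 : Cn k) (hz0b : z0 ∈ ball c ρ) (hi : z0 i = 0) :
    DifferentiableAt ℂ (fun z => dq i G z (z i)) z0 := by
  obtain ⟨σ', hσ', hsub⟩ := Metric.isOpen_iff.1 isOpen_ball z0 hz0b
  have hσ : 0 < σ' / 2 := half_pos hσ'
  have hzi : ∀ z ∈ ball z0 (σ' / 2), ‖z i‖ < σ' / 2 := by
    intro z hz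
    have h := (dist_le_pi_dist z z0 i).trans_lt hz
    rwa [hi, dist_zero_right] at h
  have hsph : ∀ z ∈ ball z0 (σ' / 2), ∀ s : ℂ, ‖s‖ ≤ σ' / 2 → z + sg i s ∈ ball c ρ := by
    intro z hz s hs
    apply hsub
    rw [mem_ball, dist_eq_norm] at hz ⊢
    have e : z + sg i s - z0 = (z - z0) + sg i s := by
      rw [add_sub_right_comm]
    rw [e]
    have h1 := norm_add_le (z - z0) (sg i s)
    rw [norm_sg] at h1
    linarith
  have hsU : ∀ z ∈ ball z0 (σ' / 2), ∀ s ∈ sphere (0 : ℂ) (σ' / 2),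
      z + sg i s ∈ ball c ρ ∧ (z + sg i s) i ≠ 0 := by
    intro z hz s hs
    rw [mem_sphere, dist_zero_right] at hs
    refine ⟨hsph z hz s hs.le, ?_⟩
    rw [add_sg]
    intro h
    have h1 : z i = -s := eq_neg_of_add_eq_zero_left h
    have h2 := hzi z hz
    rw [h1, norm_neg, hs] at h2
    exact lt_irrefl _ h2
  have h1 := difq hG z0 (σ' / 2) hσ (hsU z0 (mem_ball_self hσ)) _ rfl
  refine h1.congr_of_eventuallyEq ?_
  have h2 : ∀ᶠ z in 𝓝 z0, z ∈ ball c ρ := isOpen_ball.mem_nhds hz0b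
  have h3 : ∀ᶠ z in 𝓝 z0, z ∈ ball z0 (σ' / 2) := ball_mem_nhds z0 hσ
  filter_upwards [h2, h3] with z hz hz'
  refine cau hc hG z hz (σ' / 2) hσ (hsph z hz') (fun w : Cn k => (w i)⁻¹ * G w) ?_
  intro s hs
  obtain ⟨h4, h5⟩ := hsU z hz' s hs
  exact (dq_ne hc h0 _ h4 h5).symm

theorem tDiv1 : S_Div1 := by
  intro k i c ρ G hc hG h0
  refine ⟨fun z => dq i G z (z i), ?_, ?_⟩
  · intro z0 hz0b
    apply DifferentiableAt.differentiableWithinAt
    by_cases hi : z0 i = 0
    · exact difAt hc hG h0 z0 hz0b hi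
    · have d1 : DifferentiableAt ℂ G z0 := (hG z0 hz0b).differentiableAt
        (isOpen_ball.mem_nhds hz0b)
      have d2 : DifferentiableAt ℂ (fun w : Cn k => w i) z0 := differentiableAt_apply i z0
      refine ((d2.inv hi).mul d1).congr_of_eventuallyEq ?_
      have h2 : ∀ᶠ z in 𝓝 z0, z ∈ ball c ρ := isOpen_ball.mem_nhds hz0b
      have h3 : ∀ᶠ z : Cn k in 𝓝 z0, z i ≠ 0 := (open_ne i).mem_nhds hi
      filter_upwards [h2, h3] with w hw hwi
      exact dq_ne hc h0 w hw hwi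
  · intro z hz
    by_cases hi : z i = 0
    · rw [h0 z hz hi, hi, zero_mul]
    · dsimp only
      rw [dq_ne hc h0 z hz hi, ← mul_assoc, mul_inv_cancel₀ hi, one_mul]

end KP
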