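import Pool.Agent.Lib.KP.SpecS

/-!
# KP (MP_64edc4_ag), block S, DivN: exact division by a power of a coordinate
-/

set_option autoImplicit false

open Set Filter Topology Metric

namespace KP

private theorem updN_mem {k : ℕ} {i : Fin k} {c z : Cn k} {ρ : ℝ} {ζ : ℂ} (hc : c i = 0)
    (hz : z ∈ ball c ρ) (hζ : ‖ζ‖ < ρ) : Function.update z i ζ ∈ ball c ρ := by
  have hρ : 0 < ρ := lt_of_le_of_lt (norm_nonneg ζ) hζ
  rw [mem_ball, dist_pi_lt_iff hρ] at hz ⊢
  intro j
  by_cases hj : j = i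
  · subst hj
    rw [Function.update_self, hc, dist_zero_right]
    exact hζ
  · rw [Function.update_of_ne hj]
    exact hz j

private theorem diffN {k : ℕ} {i : Fin k} {c z : Cn k} {ρ : ℝ} {G : Cn k → ℂ} (hc : c i = 0)
    (hG : DifferentiableOn ℂ G (ball c ρ)) (hz : z ∈ ball c ρ) :
    DifferentiableOn ℂ (fun ζ : ℂ => G (Function.update z i ζ)) (ball 0 ρ) := by
  intro ζ hζ
  have hm := updN_mem hc hz (mem_ball_zero_iff.1 hζ)
  have d1 : DifferentiableAt ℂ G (Function.update z i ζ) := (hG _ hm).differentiableAt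
    (isOpen_ball.mem_nhds hm)
  have d2 : DifferentiableAt ℂ (fun ζ : ℂ => (Function.update z i ζ : Cn k)) ζ :=
    (hasFDerivAt_update z ζ).differentiableAt
  exact (d1.comp ζ d2).differentiableWithinAt

theorem tDivN (h1 : S_Div1) : S_DivN := by
  intro k i c ρ G hc hG hne
  by_contra hcon
  push Not at hcon
  have hall : ∀ κ : ℕ, ∃ G' : Cn k → ℂ, DifferentiableOn ℂ G' (ball c ρ) ∧
      ∀ z ∈ ball c ρ, G z = z i ^ κ * G' z := by
    intro κ
    induction κ with
    | zero => exact ⟨G, hG, fun z _ => by rw [pow_zero, one_mul]⟩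
    | succ κ ih =>
      obtain ⟨G', hG', he⟩ := ih
      obtain ⟨G'', hG'', he'⟩ := h1 k i c ρ G' hc hG' (hcon κ G' hG' he)
      exact ⟨G'', hG'', fun z hz => by rw [he z hz, he' z hz, pow_succ, mul_assoc]⟩
  obtain ⟨z, hz, hGz⟩ := hne
  have hρ : 0 < ρ := lt_of_le_of_lt dist_nonneg hz
  have hzi : ‖z i‖ < ρ := by
    have h := (dist_le_pi_dist z c i).trans_lt hz
    rwa [hc, dist_zero_right] at h
  have hg := diffN hc hG hz
  have han : AnalyticOnNhd ℂ (fun ζ : ℂ => G (Function.update z i ζ)) (ball 0 ρ) :=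
    hg.analyticOnNhd isOpen_ball
  have h0 : (0 : ℂ) ∈ ball (0 : ℂ) ρ := mem_ball_self hρ
  have htop : analyticOrderAt (fun ζ : ℂ => G (Function.update z i ζ)) 0 = ⊤ := by
    rw [ENat.eq_top_iff_forall_ge]
    intro κ
    rw [natCast_le_analyticOrderAt (han 0 h0)]
    obtain ⟨G', hG', he⟩ := hall κ
    refine ⟨fun ζ : ℂ => G' (Function.update z i ζ),
      (diffN hc hG' hz).analyticOnNhd isOpen_ball 0 h0, ?_⟩
    have hev : ∀ᶠ ζ : ℂ in 𝓝 0, ζ ∈ ball (0 : ℂ) ρ := ball_mem_nhds 0 hρ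
    filter_upwards [hev] with ζ hζ
    rw [he _ (updN_mem hc hz (mem_ball_zero_iff.1 hζ)), Function.update_self, sub_zero,
      smul_eq_mul]
  rw [analyticOrderAt_eq_top] at htop
  have hzero := han.eqOn_zero_of_preconnected_of_eventuallyEq_zero
    (convex_ball (0 : ℂ) ρ).isPreconnected h0 htop
  have h2 := hzero (mem_ball_zero_iff.2 hzi)
  simp only [Function.update_eq_self, Pi.zero_apply] at h2
  exact hGz h2

end KP
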