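import Pool.Agent.Lib.KP.SpecS

/-!
# KP (MP_64edc4_ag), block S, K0: isolated peak points do not exist
-/

set_option autoImplicit false

open Set Filter Topology Metric

namespace KP

theorem tK0 (h1 : S_PkD) : S_K0 := by
  intro n A r hn hA c l a b O δ hS
  have hb : ∀ z ∈ (Pk A ∩ ball 0 r) ∩ O, z = b 0 := by
    intro z hz
    have e1 : a z = 0 := by
      refine Prod.ext (hS.sub z hz) (Subsingleton.elim _ _)
    rw [← hS.ba z hz.2, e1]
  have hc : c = b 0 := hb c ⟨hS.mem, hS.cO⟩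
  let i0 : Fin n := ⟨0, hn⟩
  obtain ⟨r', hr', hsub⟩ := Metric.isOpen_iff.1 (isOpen_ball.inter hS.hO) c ⟨hS.mem.2, hS.cO⟩
  obtain ⟨c', hc', hcb, hne⟩ := h1 n A hA c hS.mem.1 (fun z => z i0 - c i0) 1 one_pos
    (by fun_prop) ⟨fun j => c j + 1 / 2, by
      rw [mem_ball, dist_pi_lt_iff one_pos]
      intro j
      rw [dist_eq_norm, add_sub_cancel_left]
      norm_num, by norm_num⟩ r' hr'
  have hcO := hsub hcb
  have : c' = c := by rw [hb c' ⟨⟨hc', hcO.1⟩, hcO.2⟩, hc]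
  rw [this, sub_self] at hne
  exact hne rfl

end KP
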