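import Pool.Agent.Lib.KP.SpecS

/-!
# KP (MP_64edc4_ag), block S, K1: peak points are not on a real curve
-/

set_option autoImplicit false

open Set Filter Topology Metric

namespace KP

theorem tK1 (h1 : S_PkD) (h2 : S_C1) : S_K1 := by
  intro A r hA c l a b O δ hS
  have h0b : (0 : (Fin l → ℝ) × (Fin 1 → ℝ)) ∈ ball (0 : (Fin l → ℝ) × (Fin 1 → ℝ)) δ :=
    mem_ball_self hS.hδ
  have hc : b 0 = c := by rw [← hS.a0, hS.ba c hS.cO]
  set s : (Fin 1 → ℝ) → Cn 2 := fun t => b (0, t) with hs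
  have hj : AnalyticAt ℝ (fun t : Fin 1 → ℝ => ((0 : Fin l → ℝ), t)) 0 :=
    AnalyticAt.prod analyticAt_const analyticAt_id
  have hsan : AnalyticAt ℝ s 0 := by
    have h : AnalyticAt ℝ b ((fun t : Fin 1 → ℝ => ((0 : Fin l → ℝ), t)) 0) := hS.anB _ h0b
    exact h.comp hj
  have hs0 : s 0 = c := hc
  have hinj : Function.Injective (fderiv ℝ s 0) := by
    have hd : DifferentiableAt ℝ s 0 := hsan.differentiableAt
    have ha : DifferentiableAt ℝ a (s 0) := by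
      rw [hs0]
      exact (hS.anA c hS.cO).differentiableAt
    have hev : (fun t : Fin 1 → ℝ => (a (s t)).2) =ᶠ[𝓝 0] fun t => t := by
      have hcont : ContinuousAt (fun t : Fin 1 → ℝ => ((0 : Fin l → ℝ), t)) 0 :=
        hj.continuousAt
      have hmem : ∀ᶠ t : Fin 1 → ℝ in 𝓝 0,
          ((0 : Fin l → ℝ), t) ∈ ball (0 : (Fin l → ℝ) × (Fin 1 → ℝ)) δ :=
        hcont.eventually_mem (isOpen_ball.mem_nhds h0b)
      filter_upwards [hmem] with t ht
      change (a (b (0, t))).2 = t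
      rw [hS.ab _ ht]
    have h3 : HasFDerivAt (fun t : Fin 1 → ℝ => (a (s t)).2)
        ((ContinuousLinearMap.snd ℝ (Fin l → ℝ) (Fin 1 → ℝ)).comp
          ((fderiv ℝ a (s 0)).comp (fderiv ℝ s 0))) 0 :=
      (ContinuousLinearMap.snd ℝ (Fin l → ℝ) (Fin 1 → ℝ)).hasFDerivAt.comp 0
        (ha.hasFDerivAt.comp 0 hd.hasFDerivAt)
    have h4 : HasFDerivAt (fun t : Fin 1 → ℝ => (a (s t)).2)
        (ContinuousLinearMap.id ℝ (Fin 1 → ℝ)) 0 :=
      (hasFDerivAt_id 0).congr_of_eventuallyEq hev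
    have h5 := h3.unique h4
    intro x y hxy
    have h6 : ∀ v, ((ContinuousLinearMap.snd ℝ (Fin l → ℝ) (Fin 1 → ℝ)).comp
          ((fderiv ℝ a (s 0)).comp (fderiv ℝ s 0))) v = v := by
      intro v
      rw [h5]
      rfl
    rw [← h6 x, ← h6 y]
    simp only [ContinuousLinearMap.comp_apply, hxy]
  obtain ⟨ρ, hρ, h, hh, hne, hev⟩ := h2 s 0 hsan hinj
  rw [hs0] at hh hne
  have hacont : ContinuousAt (fun z => (a z).2) c :=
    (hS.anA c hS.cO).continuousAt.snd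
  have hev' : ∀ᶠ z in 𝓝 c, h (s (a z).2) = 0 := by
    have h7 : Tendsto (fun z => (a z).2) (𝓝 c) (𝓝 0) := by
      have h8 := hacont.tendsto
      rw [hS.a0] at h8
      exact h8
    exact h7.eventually hev
  have hall : ∀ᶠ z in 𝓝 c, h (s (a z).2) = 0 ∧ z ∈ ball (0 : Cn 2) r ∧ z ∈ O :=
    hev'.and (Filter.Eventually.and (isOpen_ball.mem_nhds hS.mem.2) (hS.hO.mem_nhds hS.cO))
  obtain ⟨r', hr', hsub⟩ := Metric.eventually_nhds_iff_ball.1 hall
  obtain ⟨c', hc', hcb, hne'⟩ := h1 2 A hA c hS.mem.1 h ρ hρ hh hne r' hr'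
  obtain ⟨e1, e2, e3⟩ := hsub c' hcb
  apply hne'
  have e4 : s (a c').2 = c' := by
    have e5 : ((0 : Fin l → ℝ), (a c').2) = a c' :=
      Prod.ext (hS.sub c' ⟨⟨hc', e2⟩, e3⟩).symm rfl
    change b (0, (a c').2) = c'
    rw [e5, hS.ba c' e3]
  rw [e4] at e1
  exact e1

end KP
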