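import Pool.Agent.Lib.KP.SpecS

/-!
# KP, block S: KC (a totally real surface)
-/

set_option autoImplicit false

open Set Filter Topology Metric

namespace KP

namespace KCAux

theorem kap_analytic {s : (Fin 2 → ℝ) → Cn 2} {t : Fin 2 → ℝ} (hs : AnalyticAt ℝ s t) :
    AnalyticAt ℝ (kap s) t := by
  have h1 : ∀ (v : Fin 2 → ℝ) (i : Fin 2), AnalyticAt ℝ (fun t => fderiv ℝ s t v i) t := by
    intro v i
    have h2 : AnalyticAt ℝ (fderiv ℝ s) t := hs.fderiv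
    have h3 : AnalyticAt ℝ (fun t => fderiv ℝ s t v) t :=
      AnalyticAt.fun_comp ((ContinuousLinearMap.apply ℝ (Cn 2) v).analyticAt _) h2
    exact AnalyticAt.fun_comp
      ((ContinuousLinearMap.proj (R := ℝ) (φ := fun _ : Fin 2 => ℂ) i).analyticAt _) h3
  exact ((h1 _ _).mul (h1 _ _)).sub ((h1 _ _).mul (h1 _ _))

theorem norm_real {t : Fin 2 → ℝ} {ρ : ℝ} (hρ : 0 < ρ) (h : ‖t‖ < ρ) :
    ‖(fun i => (t i : ℂ) : Cn 2)‖ < ρ := by
  rw [pi_norm_lt_iff hρ] at h ⊢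
  intro i
  have := h i
  simpa using this

end KCAux

open KCAux in
theorem tKC (h1 : S_PkD) (h2 : S_CC) (h3 : S_TRc) (h4 : S_PkC) : S_KC := by
  intro A r hA c l a b O δ hD
  have hcT := hD.mem
  have hac : a c = 0 := hD.a0
  set s : (Fin 2 → ℝ) → Cn 2 := fun t => b (0, t) with hs
  have hcont : Continuous (fun t : Fin 2 → ℝ => ((0 : Fin l → ℝ), t)) := by fun_prop
  have hmem : ∀ t : Fin 2 → ℝ, ‖t‖ < δ → ((0 : Fin l → ℝ), t) ∈
      ball (0 : (Fin l → ℝ) × (Fin 2 → ℝ)) δ := by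
    intro t ht
    rw [mem_ball_zero_iff, Prod.norm_def]
    simpa [hD.hδ] using ht
  have hsan : ∀ t : Fin 2 → ℝ, ‖t‖ < δ → AnalyticAt ℝ s t := by
    intro t ht
    refine AnalyticAt.fun_comp (hD.anB _ (hmem t ht)) ?_
    exact AnalyticAt.prod analyticAt_const analyticAt_id
  have has : ∀ t : Fin 2 → ℝ, ‖t‖ < δ → a (s t) = (0, t) := fun t ht => hD.ab _ (hmem t ht)
  have h0δ : ‖(0 : Fin 2 → ℝ)‖ < δ := by simpa using hD.hδ
  have hs0 : s 0 = c := by
    have : b (a c) = c := hD.ba c hD.cO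
    rw [hac] at this
    exact this
  have hacont : ContinuousAt a c := (hD.anA c hD.cO).continuousAt
  have hz2 : ∀ z ∈ (Pk A ∩ ball 0 r) ∩ O, a z = (0, (a z).2) ∧ s (a z).2 = z ∧
      ‖(a z).2‖ < δ := by
    intro z hz
    have e1 : a z = (0, (a z).2) := by rw [← hD.sub z hz]
    refine ⟨e1, ?_, ?_⟩
    · show b (0, (a z).2) = z
      rw [← e1]; exact hD.ba z hz.2
    · have := hD.mapA hz.2
      rw [mem_ball_zero_iff] at this
      exact (norm_snd_le (a z)).trans_lt this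
  -- a point where the surface is totally real
  obtain ⟨c', hc'T, hc'O, hc'ne⟩ : ∃ c' ∈ Pk A ∩ ball 0 r, c' ∈ O ∧ kap s (a c').2 ≠ 0 := by
    by_contra hcon
    push Not at hcon
    have hkan : AnalyticAt ℝ (fun z => kap s (a z).2) c := by
      refine AnalyticAt.fun_comp ?_ (AnalyticAt.fun_comp analyticAt_snd (hD.anA c hD.cO))
      rw [hac]
      exact kap_analytic (hsan 0 h0δ)
    have hO : ∀ᶠ z in 𝓝 c, z ∈ O := hD.hO.mem_nhds hD.cO
    have q1 := hD.dens c ⟨hcT, hD.cO⟩ (fun z => (kap s (a z).2).re)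
      (AnalyticAt.fun_comp (Complex.reCLM.analyticAt _) hkan) (by
        filter_upwards [hO] with z hz hzT
        rw [hcon z hzT hz]; rfl)
    have q2 := hD.dens c ⟨hcT, hD.cO⟩ (fun z => (kap s (a z).2).im)
      (AnalyticAt.fun_comp (Complex.imCLM.analyticAt _) hkan) (by
        filter_upwards [hO] with z hz hzT
        rw [hcon z hzT hz]; rfl)
    have hac2 : (a c).2 = 0 := by rw [hac]; rfl
    rw [hac2] at q1 q2
    have hδn : ∀ᶠ t in 𝓝 (0 : Fin 2 → ℝ), ‖t‖ < δ := by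
      filter_upwards [ball_mem_nhds (0 : Fin 2 → ℝ) hD.hδ] with t ht
      rwa [mem_ball_zero_iff] at ht
    have q3 : ∀ᶠ t in 𝓝 (0 : Fin 2 → ℝ), kap s t = 0 := by
      filter_upwards [q1, q2, hδn] with t ht1 ht2 ht3
      have e := has t ht3
      simp only [hs] at e
      rw [e] at ht1 ht2
      exact Complex.ext ht1 ht2
    have hinj : Function.Injective (fderiv ℝ s 0) := by
      have d1 : HasFDerivAt s (fderiv ℝ s 0) 0 := (hsan 0 h0δ).differentiableAt.hasFDerivAt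
      have d2 : HasFDerivAt a (fderiv ℝ a c) (s 0) := by
        rw [hs0]; exact (hD.anA c hD.cO).differentiableAt.hasFDerivAt
      have d3 := d2.comp 0 d1
      have d4 : HasFDerivAt (fun x : (Fin l → ℝ) × (Fin 2 → ℝ) => x.2)
          (ContinuousLinearMap.snd ℝ (Fin l → ℝ) (Fin 2 → ℝ)) ((a ∘ s) 0) := hasFDerivAt_snd
      have d5 := d4.comp 0 d3
      have d6 : ((fun x : (Fin l → ℝ) × (Fin 2 → ℝ) => x.2) ∘ (a ∘ s)) =ᶠ[𝓝 0] id := by
        filter_upwards [hδn] with t ht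
        show (a (s t)).2 = t
        rw [has t ht]
      have d7 := ((hasFDerivAt_id (𝕜 := ℝ) (0 : Fin 2 → ℝ)).congr_of_eventuallyEq d6).unique d5
      intro x y hxy
      have e1 := congrArg (fun f => f x) d7
      have e2 := congrArg (fun f => f y) d7
      simp only [ContinuousLinearMap.comp_apply, ContinuousLinearMap.id_apply] at e1 e2
      rw [e1, e2, hxy]
    obtain ⟨ρ, hρ, h, hh, hhne, hh0⟩ := h2 s 0 (hsan 0 h0δ) hinj q3
    rw [hs0] at hh hhne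
    have hn : ∀ᶠ z in 𝓝 c, z ∈ ball (0 : Cn 2) r ∧ z ∈ O ∧ h (s (a z).2) = 0 := by
      have n1 : ∀ᶠ z in 𝓝 c, z ∈ ball (0 : Cn 2) r := isOpen_ball.mem_nhds hcT.2
      have n2 : Tendsto (fun z => (a z).2) (𝓝 c) (𝓝 0) := by
        have := (continuous_snd.tendsto (a c)).comp hacont.tendsto
        rwa [hac2] at this
      exact n1.and (hO.and (n2.eventually hh0))
    obtain ⟨r', hr', hball⟩ := Metric.eventually_nhds_iff_ball.mp hn
    obtain ⟨z, hzA, hzb, hzne⟩ := h1 2 A hA c hcT.1 h ρ hρ hh hhne r' hr'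
    obtain ⟨k1, k2, k3⟩ := hball z hzb
    rw [(hz2 z ⟨⟨hzA, k1⟩, k2⟩).2.1] at k3
    exact hzne k3
  -- the chart
  obtain ⟨-, hsc', ht'⟩ := hz2 c' ⟨hc'T, hc'O⟩
  set t' := (a c').2 with ht'def
  obtain ⟨e, he0, hepsi, ρ, hρ, hball, heq⟩ := h3 s t' (hsan t' ht') hc'ne
  have hec : e.psi 0 = c' := by rw [hepsi, hsc']
  refine ⟨e, he0, by rw [hec]; exact hc'T.1, by rw [hec]; exact hc'T.2, ?_⟩
  have hnear : ∀ᶠ w in 𝓝 (0 : Cn 2), w ∈ e.W ∧ e.psi w ∈ ball (0 : Cn 2) r ∧ e.psi w ∈ O ∧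
      ‖(a (e.psi w)).2 - t'‖ < ρ := by
    have n0 : ∀ᶠ w in 𝓝 (0 : Cn 2), w ∈ e.W := e.hW.mem_nhds he0
    have n1 : Tendsto e.psi (𝓝 0) (𝓝 c') := by
      have := (e.hpsi.continuousOn.continuousAt (e.hW.mem_nhds he0)).tendsto
      rwa [hec] at this
    have n2 : ∀ᶠ z in 𝓝 c', z ∈ ball (0 : Cn 2) r := isOpen_ball.mem_nhds hc'T.2
    have n3 : ∀ᶠ z in 𝓝 c', z ∈ O := hD.hO.mem_nhds hc'O
    have n4 : ∀ᶠ z in 𝓝 c', ‖(a z).2 - t'‖ < ρ := by
      have n5 : ContinuousAt (fun z => ‖(a z).2 - t'‖) c' := by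
        have := (hD.anA c' hc'O).continuousAt
        exact ((continuous_snd.continuousAt.comp this).sub continuousAt_const).norm
      have n6 : ‖(a c').2 - t'‖ < ρ := by rw [← ht'def, sub_self, norm_zero]; exact hρ
      exact n5.eventually_lt_const n6
    exact n0.and (n1.eventually (n2.and (n3.and n4)))
  obtain ⟨ρ2, hρ2, hball2⟩ := Metric.eventually_nhds_iff_ball.mp hnear
  refine ⟨ρ2, hρ2, fun w hw => (hball2 w hw).1, fun w hw hwP i => ?_⟩
  obtain ⟨k0, k1, k2, k3⟩ := hball2 w hw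
  have hzP : e.psi w ∈ Pk A := (h4 2 A e hA w k0).mp hwP
  obtain ⟨-, m2, -⟩ := hz2 (e.psi w) ⟨⟨hzP, k1⟩, k2⟩
  set t := (a (e.psi w)).2 - t' with ht
  have m3 := heq t k3
  have m4 : t' + t = (a (e.psi w)).2 := by rw [ht]; abel
  rw [m4, m2] at m3
  have m5 : (fun i => (t i : ℂ) : Cn 2) ∈ e.W :=
    hball (mem_ball_zero_iff.mpr (norm_real hρ k3))
  have m6 : w = fun i => (t i : ℂ) := by
    rw [← e.left w k0, ← m3, e.left _ m5]
  rw [m6]
  simp

end KP
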