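import Pool.Agent.Lib.KP.SpecS

/-!
# KP, block S, KF: peak points lie in a hypersurface (helper69)
-/

set_option autoImplicit false

open Set Filter Topology Metric

namespace KP

theorem tKF (h1 : S_SgQ) : S_KF := by
  intro n A r hA hS c k a b O δ hs
  have hc := hs.mem
  have hr : 0 < r := by
    have h2 := mem_ball.1 hc.2
    exact lt_of_le_of_lt dist_nonneg h2
  obtain ⟨Q, hQ, ⟨z₀, hz₀, hQz₀⟩, hQs⟩ := h1 n A r hr hS
  have hzero : ∀ z, z ∈ Pk A ∩ ball (0 : Cn n) r → Q z = 0 := by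
    rintro z ⟨⟨hzA, hzc, _⟩, hzr⟩
    by_contra hne
    have h3 := hQs z hzr hne
    have h4 : ∃ᶠ z' in 𝓝 z, z' ∈ A := mem_closure_iff_frequently.1 hzc
    obtain ⟨z', hz', hz''⟩ := (h4.and_eventually h3).exists
    exact hzA (hz''.1 hz')
  have hd := hs.dens c ⟨hc, hs.cO⟩ Q (hQ c hc.2) (Eventually.of_forall fun z hz => hzero z hz)
  have hcont : ContinuousAt a c := (hs.anA c hs.cO).continuousAt
  have h5 : ∀ᶠ z in 𝓝 c, Q (b (0, (a z).2)) = 0 :=
    (continuous_snd.continuousAt.comp hcont).eventually hd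
  have h6 : ∀ᶠ z in 𝓝 c, Q z = 0 := by
    filter_upwards [h5, hs.hO.mem_nhds hs.cO] with z hz hzO
    have h7 : (0, (a z).2) = a z := Prod.ext (Subsingleton.elim _ _) rfl
    rw [h7, hs.ba z hzO] at hz
    exact hz
  exact hQz₀ (hQ.eqOn_zero_of_preconnected_of_eventuallyEq_zero
    (convex_ball (0 : Cn n) r).isPreconnected hc.2 h6 hz₀)

end KP
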