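import Pool.Agent.Lib.KP.SpecS

/-!
# KP, block S, LT1: conclusion of the selection in dimension one (helper69)
-/

set_option autoImplicit false

open Set Filter Topology Metric

namespace KP

theorem tLT1 (h1 : S_Sel) (h2 : S_K0) (h3 : S_KF) (h4 : S_OneS) (h5 : S_NF1) : S_LT1 := by
  intro A r hr hA hS h0
  obtain ⟨c, l, k, a, b, O, δ, hs⟩ := h1 1 (Pk A ∩ ball 0 r) ⟨0, h0, mem_ball_self hr⟩
  have hd := hs.dim
  by_cases hl : l = 0
  · subst hl
    exact absurd hs (h3 1 A r hA hS c k a b O δ)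
  by_cases hk : k = 0
  · subst hk
    exact absurd hs (h2 1 A r Nat.one_pos hA c l a b O δ)
  obtain rfl : l = 1 := by omega
  obtain rfl : k = 1 := by omega
  obtain ⟨c', ρ, hP, hb, hAn, hρ0, hfd, hev⟩ := h4 1 A r hA hS c 1 a b O δ hs
  exact h5 A c' ρ r hA hb hP.1 hAn.contDiffAt hρ0 hfd hev

end KP
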