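import Pool.Agent.Lib.KP.SpecS

/-!
# KP, block S, LT2: conclusion of the selection in dimension two (helper69)
-/

set_option autoImplicit false

open Set Filter Topology Metric

namespace KP

namespace LT2Aux

/-- the coefficients of a real linear form -/
noncomputable def al (ℓ : Cn 2 →L[ℝ] ℝ) (j : Fin 2) : ℂ :=
  ((ℓ (Pi.single j 1) : ℝ) : ℂ) - Complex.I * ((ℓ (Pi.single j Complex.I) : ℝ) : ℂ)

theorem single_eq (j : Fin 2) (x : ℂ) :
    (Pi.single j x : Cn 2) = x.re • (Pi.single j 1 : Cn 2) + x.im • (Pi.single j Complex.I : Cn 2) := by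
  funext i
  by_cases h : i = j
  · subst h
    simp only [Pi.single_eq_same, Pi.add_apply, Pi.smul_apply]
    apply Complex.ext <;> simp
  · simp [Pi.single_eq_of_ne h]

theorem form_single (ℓ : Cn 2 →L[ℝ] ℝ) (j : Fin 2) (x : ℂ) :
    ℓ (Pi.single j x) = (al ℓ j * x).re := by
  rw [single_eq, map_add, map_smul, map_smul, smul_eq_mul, smul_eq_mul]
  unfold al
  simp only [sub_mul, Complex.sub_re, Complex.mul_re, Complex.ofReal_re, Complex.ofReal_im,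
    Complex.I_re, Complex.I_im, Complex.mul_im]
  ring

theorem form (ℓ : Cn 2 →L[ℝ] ℝ) (z : Cn 2) : ℓ z = (al ℓ 0 * z 0 + al ℓ 1 * z 1).re := by
  have h : z = Pi.single 0 (z 0) + Pi.single 1 (z 1) := by
    funext i
    fin_cases i <;> simp
  conv_lhs => rw [h]
  rw [map_add, form_single, form_single, Complex.add_re]

theorem exists_ker (ℓ : Cn 2 →L[ℝ] ℝ) (hℓ : ℓ ≠ 0) :
    ∃ v : Cn 2, v ≠ 0 ∧ ℓ v = 0 ∧ ℓ (Complex.I • v) = 0 := by
  refine ⟨![al ℓ 1, -al ℓ 0], ?_, ?_, ?_⟩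
  · intro h
    apply hℓ
    have h0 : al ℓ 1 = 0 := congrFun h 0
    have h1 : al ℓ 0 = 0 := by
      have := congrFun h 1
      simpa using this
    ext z
    rw [form, h0, h1]
    simp
  · rw [form]
    have : al ℓ 0 * (![al ℓ 1, -al ℓ 0] : Cn 2) 0 + al ℓ 1 * (![al ℓ 1, -al ℓ 0] : Cn 2) 1 = 0 := by
      simp only [Matrix.cons_val_zero, Matrix.cons_val_one]
      ring
    rw [this, Complex.zero_re]
  · rw [form]
    have : al ℓ 0 * (Complex.I • (![al ℓ 1, -al ℓ 0] : Cn 2)) 0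
        + al ℓ 1 * (Complex.I • (![al ℓ 1, -al ℓ 0] : Cn 2)) 1 = 0 := by
      simp only [Pi.smul_apply, smul_eq_mul, Matrix.cons_val_zero, Matrix.cons_val_one]
      ring
    rw [this, Complex.zero_re]

theorem sgn_mono {n : ℕ} {A W W' : Set (Cn n)} (h : Sgn A W) (hW : W' ⊆ W) : Sgn A W' := by
  obtain ⟨m, f, hf, hfs⟩ := h
  exact ⟨m, f, fun k => (hf k).mono hW, fun z hz z' hz' => hfs z (hW hz) z' (hW hz')⟩

end LT2Aux

open LT2Aux in
theorem tLT2 (h1 : S_Sel) (h2 : S_K0) (h3 : S_K1) (h4 : S_KC) (h5 : S_KF) (h6 : S_OneS)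
    (h7 : S_LevP) (h8 : S_NF2) (h9 : S_Mv) (h10 : S_LTE) (h11 : S_TR) : S_LT2 := by
  intro A r hr hA hS h0
  obtain ⟨c, l, k, a, b, O, δ, hs⟩ := h1 2 (Pk A ∩ ball 0 r) ⟨0, h0, mem_ball_self hr⟩
  have hd := hs.dim
  by_cases hk0 : k = 0
  · subst hk0
    exact absurd hs (h2 2 A r Nat.two_pos hA c l a b O δ)
  by_cases hk1 : k = 1
  · subst hk1
    exact absurd hs (h3 A r hA c l a b O δ)
  by_cases hl0 : l = 0
  · subst hl0
    exact absurd hs (h5 2 A r hA hS c k a b O δ)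
  by_cases hk2 : k = 2
  · subst hk2
    obtain ⟨e, he0, heP, heb, ρ, hρ, hρb, hreal⟩ := h4 A r hA c l a b O δ hs
    obtain ⟨hop, h0P, ρ', hρ', hρb', hmap, hSg, _⟩ := h9 2 A e r hA hS he0 heP heb
    have hmin : 0 < min ρ ρ' := lt_min hρ hρ'
    have hb1 : ball (0 : Cn 2) (min ρ ρ') ⊆ ball 0 ρ := ball_subset_ball (min_le_left _ _)
    have hb2 : ball (0 : Cn 2) (min ρ ρ') ⊆ ball 0 ρ' := ball_subset_ball (min_le_right _ _)
    refine h10 2 P2 A e r (min ρ ρ') (hb1.trans hρb) (hmap.mono_left hb2) ?_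
    exact h11 (e.pre A) (min ρ ρ') hmin hop (sgn_mono hSg hb2) h0P
      fun w hw hwP => hreal w (hb1 hw) hwP
  obtain rfl : l = 1 := by omega
  obtain rfl : k = 3 := by omega
  obtain ⟨p, ρ, hP, hb, hAn, hρ0, hfd, hev⟩ := h6 2 A r hA hS c 3 a b O δ hs
  obtain ⟨v, hv0, hv, hIv⟩ := exists_ker (fderiv ℝ ρ p) hfd
  have hC2 : ContDiffAt ℝ 2 ρ p := hAn.contDiffAt
  have hLv := h7 2 A p ρ hP hC2 hρ0 hfd hev v hv0 hv hIv
  have hr1 : 0 < r - dist p 0 := sub_pos.2 (mem_ball.1 hb)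
  obtain ⟨e, ρ', hmap, he0, hep, hρ', hρb, hA2, _⟩ := h8 A p ρ (r - dist p 0) v hr1 hC2 hρ0 hfd hev
    hv hIv hLv.ne'
  have hsub : ball p (r - dist p 0) ⊆ ball (0 : Cn 2) r := by
    intro z hz
    rw [mem_ball] at hz ⊢
    have := dist_triangle z p 0
    linarith
  have hop : IsOpen (e.pre A) := e.hpsi.continuousOn.isOpen_inter_preimage e.hW hA
  refine ⟨e, e.pre A ∩ ball 0 ρ', ρ', hmap.mono_right hsub, he0, ?_, hρ', hρb, Subset.rfl,
    hop.inter isOpen_ball, ?_, Or.inl (hA2 hLv)⟩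
  · rw [hep]; exact hP.1
  · rw [diff_self]; exact isOpen_empty

end KP
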