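import Pool.Agent.Lib.KP.SpecS

/-!
# KP, LTE: transport of the conclusion (helper3)
-/

set_option autoImplicit false

open Set Filter Topology Metric

namespace KP

theorem tLTE : S_LTE := by
  rintro n P A e r r' hW hm ⟨e', R, ρ, h1, h2, h3, h4, h5, h6, h7, h8, h9⟩
  refine ⟨e.comp e', R, ρ, ?_, ⟨h2, hW (h1 h2)⟩, fun h => h3 ⟨hW (h1 h2), h⟩, h4,
    fun w hw => ⟨h5 hw, hW (h1 (h5 hw))⟩, ?_, h7, ?_, h9⟩
  · intro w hw
    exact hm (h1 hw.1)
  · rw [Chart.comp_pre]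
    exact h6
  · rw [Chart.comp_pre]
    exact h8

end KP
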