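import Pool.Agent.Lib.KP.SpecS

/-!
# KP, block S: LevP (the Levi form at a smooth peak point)
-/

set_option autoImplicit false

open Set Filter Topology Metric

namespace KP

namespace LevPAux

theorem exp2 (hT : S_Tay) {n : ℕ} {Φ : Cn n → ℝ} {c : Cn n} (hΦ : ContDiffAt ℝ 2 Φ c)
    (v w : Cn n) (ε : ℝ) (hε : 0 < ε) : ∀ᶠ t in 𝓝[>] (0 : ℝ),
      |Φ (c + (t • v + (t ^ 2 / 2) • w)) - Φ c - t * fderiv ℝ Φ c v -
        t ^ 2 / 2 * (fderiv ℝ Φ c w + D2 Φ c v)| ≤ ε * t ^ 2 := by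
  set B := fderiv ℝ (fderiv ℝ Φ) c with hB
  set M : ℝ := ‖v‖ + ‖w‖ + 1 with hM
  have hM0 : 0 < M := by positivity
  set K : ℝ := |B v w + B w v| + |B w w| + 1 with hK
  have hK0 : 0 < K := by positivity
  obtain ⟨r, hr, hTay⟩ := hT n Φ c hΦ (ε / (2 * M ^ 2)) (by positivity)
  have h1 : ∀ᶠ t in 𝓝[>] (0 : ℝ), t < min (min 1 (r / M)) (ε / (2 * K)) := by
    refine mem_nhdsWithin_of_mem_nhds (Iio_mem_nhds ?_)
    refine lt_min (lt_min one_pos (by positivity)) (by positivity)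
  filter_upwards [h1, self_mem_nhdsWithin] with t ht ht0
  have ht0 : 0 < t := ht0
  have ht1 : t < 1 := lt_of_lt_of_le ht ((min_le_left _ _).trans (min_le_left _ _))
  have ht2 : t < r / M := lt_of_lt_of_le ht ((min_le_left _ _).trans (min_le_right _ _))
  have ht3 : t < ε / (2 * K) := lt_of_lt_of_le ht (min_le_right _ _)
  set u : Cn n := t • v + (t ^ 2 / 2) • w with hu
  have hun : ‖u‖ ≤ t * M := by
    calc ‖u‖ ≤ ‖t • v‖ + ‖(t ^ 2 / 2) • w‖ := norm_add_le _ _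
      _ = t * ‖v‖ + t ^ 2 / 2 * ‖w‖ := by
        rw [norm_smul, norm_smul, Real.norm_of_nonneg ht0.le,
          Real.norm_of_nonneg (by positivity)]
      _ ≤ t * ‖v‖ + t * ‖w‖ := by
        have : t ^ 2 / 2 ≤ t := by nlinarith
        have := mul_le_mul_of_nonneg_right this (norm_nonneg w)
        linarith
      _ ≤ t * M := by rw [hM]; nlinarith
  have hur : ‖u‖ < r := by
    refine lt_of_le_of_lt hun ?_
    rwa [lt_div_iff₀ hM0] at ht2
  have h2 := hTay u hur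
  have h3 : ε / (2 * M ^ 2) * ‖u‖ ^ 2 ≤ ε / 2 * t ^ 2 := by
    have : ‖u‖ ^ 2 ≤ (t * M) ^ 2 := pow_le_pow_left₀ (norm_nonneg _) hun 2
    calc ε / (2 * M ^ 2) * ‖u‖ ^ 2 ≤ ε / (2 * M ^ 2) * (t * M) ^ 2 :=
          mul_le_mul_of_nonneg_left this (by positivity)
      _ = ε / 2 * t ^ 2 := by field_simp
  have h4 : fderiv ℝ Φ c u = t * fderiv ℝ Φ c v + t ^ 2 / 2 * fderiv ℝ Φ c w := by
    rw [hu, map_add, map_smul, map_smul, smul_eq_mul, smul_eq_mul]
  have h5 : D2 Φ c u = t ^ 2 * D2 Φ c v + t ^ 3 / 2 * (B v w + B w v) + t ^ 4 / 4 * B w w := by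
    unfold D2
    rw [← hB, hu]
    simp only [map_add, map_smul, ContinuousLinearMap.add_apply, ContinuousLinearMap.smul_apply,
      smul_eq_mul]
    ring
  have h6 : |t ^ 3 / 4 * (B v w + B w v) + t ^ 4 / 8 * B w w| ≤ ε / 2 * t ^ 2 := by
    have e1 : |t ^ 3 / 4 * (B v w + B w v) + t ^ 4 / 8 * B w w| ≤
        t ^ 3 / 4 * |B v w + B w v| + t ^ 4 / 8 * |B w w| := by
      refine (abs_add_le _ _).trans ?_
      rw [abs_mul, abs_mul, abs_of_nonneg (by positivity : (0:ℝ) ≤ t ^ 3 / 4),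
        abs_of_nonneg (by positivity : (0:ℝ) ≤ t ^ 4 / 8)]
    have e2 : t ^ 3 / 4 * |B v w + B w v| + t ^ 4 / 8 * |B w w| ≤ t ^ 3 * K := by
      have q1 : t ^ 3 / 4 * |B v w + B w v| ≤ t ^ 3 * |B v w + B w v| :=
        mul_le_mul_of_nonneg_right (by nlinarith [pow_pos ht0 3]) (abs_nonneg _)
      have q2 : t ^ 4 / 8 * |B w w| ≤ t ^ 3 * |B w w| := by
        refine mul_le_mul_of_nonneg_right ?_ (abs_nonneg _)
        have : t ^ 4 = t * t ^ 3 := by ring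
        nlinarith [pow_pos ht0 3]
      rw [hK]
      nlinarith [pow_pos ht0 3]
    have e3 : t * K ≤ ε / 2 := by
      rw [lt_div_iff₀ (by positivity)] at ht3
      nlinarith
    calc |t ^ 3 / 4 * (B v w + B w v) + t ^ 4 / 8 * B w w| ≤ t ^ 3 * K := e1.trans e2
      _ = (t * K) * t ^ 2 := by ring
      _ ≤ ε / 2 * t ^ 2 := mul_le_mul_of_nonneg_right e3 (by positivity)
  have h7 : Φ (c + u) - Φ c - t * fderiv ℝ Φ c v -
        t ^ 2 / 2 * (fderiv ℝ Φ c w + D2 Φ c v) =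
      (Φ (c + u) - Φ c - fderiv ℝ Φ c u - 1 / 2 * D2 Φ c u) +
        (t ^ 3 / 4 * (B v w + B w v) + t ^ 4 / 8 * B w w) := by
    rw [h4, h5]; ring
  rw [h7]
  calc _ ≤ |Φ (c + u) - Φ c - fderiv ℝ Φ c u - 1 / 2 * D2 Φ c u| +
        |t ^ 3 / 4 * (B v w + B w v) + t ^ 4 / 8 * B w w| := abs_add_le _ _
    _ ≤ ε / 2 * t ^ 2 + ε / 2 * t ^ 2 := add_le_add (h2.trans h3) h6
    _ = ε * t ^ 2 := by ring

theorem lim_aux (a b : ℝ) (h : ∀ ε > 0, ∀ᶠ t in 𝓝[>] (0 : ℝ), t * a + t ^ 2 / 2 * b ≤ ε * t ^ 2) :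
    a ≤ 0 ∧ (a = 0 → b ≤ 0) := by
  constructor
  · by_contra ha
    push Not at ha
    have h1 := h 1 one_pos
    have h2 : ∀ᶠ t in 𝓝[>] (0 : ℝ), t < a / (1 + |b|) :=
      mem_nhdsWithin_of_mem_nhds (Iio_mem_nhds (by positivity))
    have h3 : ∀ᶠ t in 𝓝[>] (0 : ℝ), 0 < t := self_mem_nhdsWithin
    obtain ⟨t, ht1, ht2, ht3⟩ := (h1.and (h2.and h3)).exists
    rw [lt_div_iff₀ (by positivity)] at ht2
    have h4 : -|b| ≤ b := neg_abs_le b
    have h5 : t * (a + t / 2 * b) ≤ t * t := by nlinarith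
    have h6 : a + t / 2 * b ≤ t := le_of_mul_le_mul_left h5 ht3
    nlinarith [abs_nonneg b, mul_nonneg ht3.le (abs_nonneg b)]
  · intro ha
    subst ha
    by_contra hb
    push Not at hb
    have h1 := h (b / 4) (by positivity)
    have h3 : ∀ᶠ t in 𝓝[>] (0 : ℝ), 0 < t := self_mem_nhdsWithin
    obtain ⟨t, ht1, ht3⟩ := (h1.and h3).exists
    nlinarith [mul_pos (pow_pos ht3 2) hb]

theorem curve_tendsto {n : ℕ} (c v w : Cn n) :
    Tendsto (fun t : ℝ => c + (t • v + (t ^ 2 / 2) • w)) (𝓝[>] 0) (𝓝 c) := by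
  have : Continuous (fun t : ℝ => c + (t • v + (t ^ 2 / 2) • w)) := by fun_prop
  have h := this.tendsto 0
  simp only [zero_smul, zero_add, ne_eq, OfNat.ofNat_ne_zero, not_false_eq_true, zero_pow,
    zero_div, add_zero] at h
  exact h.mono_left nhdsWithin_le_nhds

theorem test (hT : S_Tay) {n : ℕ} {Φ ρ : Cn n → ℝ} {c : Cn n} (hΦ : ContDiffAt ℝ 2 Φ c)
    (hρ : ContDiffAt ℝ 2 ρ c) (hρ0 : ρ c = 0)
    (H : ∀ᶠ z in 𝓝 c, ρ z < 0 → Φ z ≤ Φ c) (v w : Cn n)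
    (hvw : fderiv ℝ ρ c v < 0 ∨ (fderiv ℝ ρ c v = 0 ∧ fderiv ℝ ρ c w + D2 ρ c v < 0)) :
    fderiv ℝ Φ c v ≤ 0 ∧ (fderiv ℝ Φ c v = 0 → fderiv ℝ Φ c w + D2 Φ c v ≤ 0) := by
  set a := fderiv ℝ ρ c v with ha
  set b := fderiv ℝ ρ c w + D2 ρ c v with hb
  have hneg : ∀ᶠ t in 𝓝[>] (0 : ℝ), ρ (c + (t • v + (t ^ 2 / 2) • w)) < 0 := by
    have h3 : ∀ᶠ t in 𝓝[>] (0 : ℝ), 0 < t := self_mem_nhdsWithin
    rcases hvw with h | ⟨h, h'⟩
    · have h1 := exp2 hT hρ v w 1 one_pos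
      have h2 : ∀ᶠ t in 𝓝[>] (0 : ℝ), t < -a / (1 + |b|) :=
        mem_nhdsWithin_of_mem_nhds (Iio_mem_nhds (div_pos (by linarith) (by positivity)))
      filter_upwards [h1, h2, h3] with t ht1 ht2 ht3
      rw [hρ0, ← ha, ← hb] at ht1
      have h4 := (abs_le.mp ht1).2
      rw [lt_div_iff₀ (by positivity)] at ht2
      have h5 : b ≤ |b| := le_abs_self b
      have h6 : t * (a + t / 2 * b + t) < 0 := by
        refine mul_neg_of_pos_of_neg ht3 ?_
        nlinarith [abs_nonneg b, mul_nonneg ht3.le (abs_nonneg b),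
          mul_le_mul_of_nonneg_left h5 ht3.le]
      nlinarith
    · have h1 := exp2 hT hρ v w (-b / 4) (by linarith)
      filter_upwards [h1, h3] with t ht1 ht3
      rw [hρ0, ← ha, ← hb, h] at ht1
      have h4 := (abs_le.mp ht1).2
      nlinarith [mul_pos (pow_pos ht3 2) (neg_pos.mpr h')]
  have hle : ∀ᶠ t in 𝓝[>] (0 : ℝ), Φ (c + (t • v + (t ^ 2 / 2) • w)) ≤ Φ c := by
    filter_upwards [hneg, (curve_tendsto c v w).eventually H] with t h1 h2
    exact h2 h1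
  refine lim_aux _ _ (fun ε hε => ?_)
  filter_upwards [exp2 hT hΦ v w ε hε, hle] with t h1 h2
  have h4 := (abs_le.mp h1).1
  linarith

end LevPAux

open LevPAux in
theorem tLevP (h1 : S_Tay) : S_LevP := by
  intro n A c ρ hc hρ hρ0 hdρ hA v hv hv1 hv2
  obtain ⟨-, -, Φ, hΦ, hLv, η, hη, hmax⟩ := hc
  have H : ∀ᶠ z in 𝓝 c, ρ z < 0 → Φ z ≤ Φ c := by
    filter_upwards [hA, hmax] with z hz1 hz2 hz3
    have h2 := hz2 (hz1.mpr hz3)
    have h3 : 0 ≤ nsq (z - c) := Finset.sum_nonneg fun i _ => Complex.normSq_nonneg _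
    nlinarith
  have F := fun v w => test h1 hΦ hρ hρ0 H v w
  set l := fderiv ℝ ρ c with hl
  set m := fderiv ℝ Φ c with hm
  -- a vector with `l v0 = -1`
  obtain ⟨v1, hv1'⟩ : ∃ v1, l v1 ≠ 0 := by
    by_contra hcon
    push Not at hcon
    exact hdρ (ContinuousLinearMap.ext hcon)
  obtain ⟨v0, hlv0⟩ : ∃ v0, l v0 = -1 := by
    refine ⟨(-(l v1)⁻¹) • v1, ?_⟩
    rw [map_smul, smul_eq_mul]
    field_simp
  have hker : ∀ u, l u = 0 → m u = 0 := by
    intro u hu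
    have h2 : ∀ s : ℝ, m v0 + s * m u ≤ 0 := by
      intro s
      have h3 := (F (v0 + s • u) 0 (Or.inl (by
        rw [map_add, map_smul, hu, hlv0]; simp))).1
      rwa [map_add, map_smul, smul_eq_mul] at h3
    by_contra hne
    have h3 := h2 ((1 - m v0) / m u)
    rw [div_mul_cancel₀ _ hne] at h3
    linarith
  set lam : ℝ := -m v0 with hlam
  have hlam0 : 0 ≤ lam := by
    have := (F v0 0 (Or.inl (by rw [hlv0]; norm_num))).1
    linarith
  have hml : ∀ u, m u = lam * l u := by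
    intro u
    have h2 := hker (u + l u • v0) (by rw [map_add, map_smul, hlv0, smul_eq_mul]; ring)
    rw [map_add, map_smul, smul_eq_mul] at h2
    rw [hlam]; linarith
  have hD : ∀ u, l u = 0 → D2 Φ c u ≤ lam * D2 ρ c u := by
    intro u hu
    have h2 : ∀ s : ℝ, D2 ρ c u < s → D2 Φ c u ≤ lam * s := by
      intro s hs
      have h3 := (F u (s • v0) (Or.inr ⟨hu, by
        rw [map_smul, hlv0, smul_eq_mul]; linarith⟩)).2 (hker u hu)
      rw [hml (s • v0), map_smul, hlv0, smul_eq_mul] at h3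
      linarith
    by_contra hcon
    push Not at hcon
    rcases hlam0.eq_or_lt with h0 | h0
    · have h3 := h2 (D2 ρ c u + 1) (by linarith)
      rw [← h0] at h3 hcon
      simp only [zero_mul] at h3 hcon
      linarith
    · have h3 := h2 (D2 ρ c u + (D2 Φ c u - lam * D2 ρ c u) / (2 * lam)) (by
        have : 0 < (D2 Φ c u - lam * D2 ρ c u) / (2 * lam) := div_pos (by linarith) (by linarith)
        linarith)
      have h4 : lam * (D2 ρ c u + (D2 Φ c u - lam * D2 ρ c u) / (2 * lam)) =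
          lam * D2 ρ c u + (D2 Φ c u - lam * D2 ρ c u) / 2 := by
        field_simp
      rw [h4] at h3
      linarith
  have h5 := hLv v hv
  have h6 := hD v hv1
  have h7 := hD (Complex.I • v) hv2
  have h8 : 0 < lam * Lv ρ c v := by
    unfold Lv at h5 ⊢
    nlinarith
  by_contra hcon
  push Not at hcon
  nlinarith [mul_nonneg hlam0 (neg_nonneg.mpr hcon)]

end KP
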