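import Pool.Agent.Lib.KP.SpecS

/-!
# KP, block S, NF1: normal form in dimension one (helper69)
-/

set_option autoImplicit false

open Set Filter Topology Metric

namespace KP

namespace NF1Aux

/-- the coefficient of a real linear form -/
noncomputable def al (ℓ : Cn 1 →L[ℝ] ℝ) : ℂ :=
  ((ℓ (fun _ => 1) : ℝ) : ℂ) - Complex.I * ((ℓ (fun _ => Complex.I) : ℝ) : ℂ)

theorem form (ℓ : Cn 1 →L[ℝ] ℝ) (z : Cn 1) : ℓ z = (al ℓ * z 0).re := by
  have h : z = (z 0).re • (fun _ => 1 : Cn 1) + (z 0).im • (fun _ => Complex.I : Cn 1) := by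
    funext i
    rw [Subsingleton.elim i 0]
    simp only [Pi.add_apply, Pi.smul_apply]
    apply Complex.ext <;> simp
  conv_lhs => rw [h]
  rw [map_add, map_smul, map_smul, smul_eq_mul, smul_eq_mul]
  unfold al
  simp only [sub_mul, Complex.sub_re, Complex.mul_re, Complex.ofReal_re, Complex.ofReal_im,
    Complex.I_re, Complex.I_im, Complex.mul_im]
  ring

theorem al_ne {ℓ : Cn 1 →L[ℝ] ℝ} (h : ℓ ≠ 0) : al ℓ ≠ 0 := by
  intro h'
  apply h
  ext z
  rw [form, h']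
  simp

/-- multiplication by a number -/
noncomputable def mulE (β : ℂ) (hβ : β ≠ 0) : Cn 1 ≃L[ℂ] Cn 1 :=
  (LinearEquiv.smulOfNeZero ℂ (Cn 1) β hβ).toContinuousLinearEquiv

theorem mulE_ap (β : ℂ) (hβ : β ≠ 0) (w : Cn 1) : mulE β hβ w = β • w := rfl

theorem norm_one_dim (w : Cn 1) : ‖w‖ = ‖w 0‖ := by
  apply le_antisymm
  · rw [pi_norm_le_iff_of_nonneg (norm_nonneg _)]
    intro i
    rw [Subsingleton.elim i 0]
  · exact norm_le_pi_norm w 0

end NF1Aux

open NF1Aux in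
theorem tNF1 : S_NF1 := by
  intro A c ρ r hA hcr hcA hC hρ0 hfd hev
  set ℓ := fderiv ℝ ρ c with hℓ
  have hα : al ℓ ≠ 0 := al_ne hfd
  have hβ : Complex.I / al ℓ ≠ 0 := div_ne_zero Complex.I_ne_zero hα
  set β := Complex.I / al ℓ with hβd
  have hαβ : al ℓ * β = Complex.I := by rw [hβd]; field_simp
  set L := mulE β hβ with hL
  have hψc : Continuous (fun w : Cn 1 => c + L w) := continuous_const.add L.continuous
  have hO : IsOpen {w : Cn 1 | c + L w ∈ ball (0 : Cn 1) r} := isOpen_ball.preimage hψc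
  let e : Chart (univ : Set (Cn 1)) 1 :=
    (Chart.aff c L).comp (Chart.idc {w : Cn 1 | c + L w ∈ ball (0 : Cn 1) r} hO)
  have hψ : ∀ w, e.psi w = c + L w := fun w => rfl
  have hW : ∀ w, w ∈ e.W ↔ c + L w ∈ ball (0 : Cn 1) r := by
    intro w
    constructor
    · intro h
      exact h.1
    · intro h
      exact ⟨h, mem_univ _⟩
  have h0W : (0 : Cn 1) ∈ e.W := by
    rw [hW, map_zero, add_zero]
    exact hcr
  obtain ⟨ρ', hρ', hρb⟩ := Metric.isOpen_iff.1 e.hW 0 h0W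
  have hop : IsOpen (e.pre A) := e.hpsi.continuousOn.isOpen_inter_preimage e.hW hA
  refine ⟨e, e.pre A ∩ ball 0 ρ', ρ', ?_, h0W, ?_, hρ', hρb, Subset.rfl, hop.inter isOpen_ball, ?_,
    ?_⟩
  · intro w hw
    rw [hψ]
    exact (hW w).1 hw
  · rw [hψ, map_zero, add_zero]
    exact hcA
  · rw [diff_self]; exact isOpen_empty
  · intro η hη
    have hβn : 0 < ‖β‖ := norm_pos_iff.2 hβ
    have hdiff : HasFDerivAt ρ ℓ c := (hC.differentiableAt (by norm_num)).hasFDerivAt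
    have hlit := hdiff.isLittleO.def (c := η / (2 * ‖β‖)) (by positivity)
    have h1 : ∀ᶠ w in 𝓝 (0 : Cn 1), (c + L w ∈ A ↔ ρ (c + L w) < 0) ∧
        ‖ρ (c + L w) - ρ c - ℓ (c + L w - c)‖ ≤ η / (2 * ‖β‖) * ‖c + L w - c‖ := by
      have ht : Tendsto (fun w : Cn 1 => c + L w) (𝓝 0) (𝓝 c) := by
        have := hψc.tendsto 0
        rwa [map_zero, add_zero] at this
      exact ht.eventually (hev.and hlit)
    obtain ⟨ρ₁, hρ₁, hb₁⟩ := Metric.eventually_nhds_iff_ball.1 h1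
    refine ⟨min ρ₁ ρ', lt_min hρ₁ hρ', fun z hz => ?_⟩
    have hz1 : z ∈ ball (0 : Cn 1) ρ₁ := ball_subset_ball (min_le_left _ _) hz
    have hz2 : z ∈ ball (0 : Cn 1) ρ' := ball_subset_ball (min_le_right _ _) hz
    obtain ⟨hiff, hest⟩ := hb₁ z hz1
    have hLz : L z = β • z := rfl
    have hform : ℓ (c + L z - c) = -(z 0).im := by
      rw [add_sub_cancel_left, form, hLz, Pi.smul_apply, smul_eq_mul, ← mul_assoc, hαβ]
      simp
    have hnorm : ‖c + L z - c‖ = ‖β‖ * ‖z 0‖ := by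
      rw [add_sub_cancel_left, hLz, norm_smul, norm_one_dim]
    rw [hform, hnorm, hρ0, sub_zero, Real.norm_eq_abs] at hest
    have hest' : |ρ (c + L z) - -(z 0).im| ≤ η / 2 * ‖z 0‖ := by
      refine hest.trans (le_of_eq ?_)
      field_simp
    rw [abs_le] at hest'
    have hz0 : 0 ≤ ‖z 0‖ := norm_nonneg _
    have hηz : 0 ≤ η * ‖z 0‖ := by positivity
    constructor
    · intro hzR
      have h2 : ρ (c + L z) < 0 := hiff.1 hzR.1.2
      linarith [hest'.1]
    · intro him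
      have h2 : ρ (c + L z) < 0 := by linarith [hest'.2]
      exact ⟨⟨hρb hz2, hiff.2 h2⟩, hz2⟩

end KP
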