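import Pool.Agent.Lib.KP.SpecS

/-!
# KP, block S: NF2 (normal form of a hypersurface in dimension two)
-/

set_option autoImplicit false

open Set Filter Topology Metric

namespace KP

namespace NF2Aux

theorem norm_vec2 (u w : ℂ) : ‖(![u, w] : Cn 2)‖ ≤ ‖u‖ + ‖w‖ := by
  refine (pi_norm_le_iff_of_nonneg (by positivity)).mpr (fun i => ?_)
  fin_cases i
  · simp
  · simp

theorem smul_split {n : ℕ} (l : Cn n →L[ℝ] ℝ) (s : ℂ) (z : Cn n) :
    l (s • z) = s.re * l z + s.im * l (Complex.I • z) := by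
  have h : s • z = s.re • z + s.im • (Complex.I • z) := by
    ext i
    simp only [Pi.smul_apply, Pi.add_apply, smul_eq_mul, Complex.real_smul]
    conv_lhs => rw [← Complex.re_add_im s]
    ring
  rw [h, map_add, map_smul, map_smul, smul_eq_mul, smul_eq_mul]

theorem key (hT : S_Tay) {ρ : Cn 2 → ℝ} {p : Cn 2} (hρ : ContDiffAt ℝ 2 ρ p) (hρ0 : ρ p = 0)
    (L : Cn 2 ≃L[ℂ] Cn 2) (b : ℂ) (s : ℝ) (hl : ∀ x, fderiv ℝ ρ p (L x) = -(x 1).im)
    (hq : ∀ u : ℂ, 1 / 2 * D2 ρ p (L ![u, 0]) = s * ‖u‖ ^ 2 + (b * u ^ 2).re) (η : ℝ)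
    (hη : 0 < η) : ∃ δ > 0, ∀ x : Cn 2, ‖x‖ < δ →
      |ρ (p + L ![x 0, x 1 + Complex.I * b * (x 0) ^ 2]) + (x 1).im - s * ‖x 0‖ ^ 2| ≤
        η * (‖x 0‖ ^ 2 + ‖x 1‖) := by
  set B := fderiv ℝ (fderiv ℝ ρ) p with hB
  set CL : ℝ := ‖(L : Cn 2 →L[ℂ] Cn 2)‖ + 1 with hCL
  have hCL0 : 0 < CL := by positivity
  have hLn : ∀ x : Cn 2, ‖L x‖ ≤ CL * ‖x‖ := by
    intro x
    have h1 := (L : Cn 2 →L[ℂ] Cn 2).le_opNorm x
    calc ‖L x‖ ≤ ‖(L : Cn 2 →L[ℂ] Cn 2)‖ * ‖x‖ := h1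
      _ ≤ CL * ‖x‖ := mul_le_mul_of_nonneg_right (by rw [hCL]; linarith) (norm_nonneg _)
  set M : ℝ := 1 + ‖b‖ with hM
  have hM1 : 1 ≤ M := by rw [hM]; linarith [norm_nonneg b]
  obtain ⟨r, hr, hTay⟩ := hT 2 ρ p hρ (η / (4 * CL ^ 2 * (1 + 2 * M ^ 2))) (by positivity)
  set δ : ℝ := min (min 1 (r / (CL * (1 + 2 * M)))) (η / (2 * (‖B‖ * CL ^ 2 * M * (1 + M) + 1)))
    with hδ
  have hδ0 : 0 < δ := lt_min (lt_min one_pos (by positivity)) (by positivity)
  refine ⟨δ, hδ0, fun x hx => ?_⟩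
  have hδ1 : δ ≤ 1 := (min_le_left _ _).trans (min_le_left _ _)
  have hδ2 : δ ≤ r / (CL * (1 + 2 * M)) := (min_le_left _ _).trans (min_le_right _ _)
  have hδ3 : δ ≤ η / (2 * (‖B‖ * CL ^ 2 * M * (1 + M) + 1)) := min_le_right _ _
  have hx0 : ‖x 0‖ < δ := (norm_le_pi_norm x 0).trans_lt hx
  have hx1 : ‖x 1‖ < δ := (norm_le_pi_norm x 1).trans_lt hx
  set u := x 0 with hu
  set w := x 1 + Complex.I * b * u ^ 2 with hw
  set N : ℝ := ‖u‖ ^ 2 + ‖x 1‖ with hN
  have hN0 : 0 ≤ N := by positivity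
  have hN2 : N ≤ 2 * δ := by
    have : ‖u‖ ^ 2 ≤ δ := by nlinarith [norm_nonneg u]
    rw [hN]; linarith
  have hwN : ‖w‖ ≤ M * N := by
    calc ‖w‖ ≤ ‖x 1‖ + ‖Complex.I * b * u ^ 2‖ := norm_add_le _ _
      _ = ‖x 1‖ + ‖b‖ * ‖u‖ ^ 2 := by
        rw [norm_mul, norm_mul, Complex.norm_I, one_mul, norm_pow]
      _ ≤ M * N := by
        rw [hM, hN]
        nlinarith [norm_nonneg b, norm_nonneg (x 1), mul_nonneg (norm_nonneg b) (norm_nonneg (x 1)),
          sq_nonneg ‖u‖]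
  have hwδ : ‖w‖ ≤ 2 * M * δ := by
    calc ‖w‖ ≤ M * N := hwN
      _ ≤ M * (2 * δ) := mul_le_mul_of_nonneg_left hN2 (by linarith)
      _ = 2 * M * δ := by ring
  have hvec := norm_vec2 u w
  have hLx : ‖L ![u, w]‖ ≤ CL * (‖u‖ + ‖w‖) :=
    (hLn _).trans (mul_le_mul_of_nonneg_left hvec hCL0.le)
  have hLr : ‖L ![u, w]‖ < r := by
    refine lt_of_le_of_lt hLx ?_
    have h1 : CL * (‖u‖ + ‖w‖) < CL * (δ + 2 * M * δ) :=
      mul_lt_mul_of_pos_left (by linarith) hCL0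
    have h2 : CL * (δ + 2 * M * δ) = δ * (CL * (1 + 2 * M)) := by ring
    rw [le_div_iff₀ (by positivity)] at hδ2
    linarith
  have hT1 := hTay _ hLr
  rw [hρ0, hl] at hT1
  -- the error of the quadratic part
  have hE1 : η / (4 * CL ^ 2 * (1 + 2 * M ^ 2)) * ‖L ![u, w]‖ ^ 2 ≤ η / 2 * N := by
    have h1 : ‖L ![u, w]‖ ^ 2 ≤ 2 * CL ^ 2 * (1 + 2 * M ^ 2) * N := by
      have h2 : ‖L ![u, w]‖ ^ 2 ≤ (CL * (‖u‖ + ‖w‖)) ^ 2 :=
        pow_le_pow_left₀ (norm_nonneg _) hLx 2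
      have h3 : (‖u‖ + ‖w‖) ^ 2 ≤ 2 * (‖u‖ ^ 2 + ‖w‖ ^ 2) := by
        nlinarith [sq_nonneg (‖u‖ - ‖w‖)]
      have h4 : ‖w‖ ^ 2 ≤ 2 * M ^ 2 * N := by
        calc ‖w‖ ^ 2 = ‖w‖ * ‖w‖ := by ring
          _ ≤ (2 * M * δ) * (M * N) := mul_le_mul hwδ hwN (norm_nonneg _) (by positivity)
          _ = 2 * M ^ 2 * N * δ := by ring
          _ ≤ 2 * M ^ 2 * N * 1 := mul_le_mul_of_nonneg_left hδ1 (by positivity)
          _ = 2 * M ^ 2 * N := by ring
      have h5 : ‖u‖ ^ 2 ≤ N := by rw [hN]; linarith [norm_nonneg (x 1)]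
      calc ‖L ![u, w]‖ ^ 2 ≤ (CL * (‖u‖ + ‖w‖)) ^ 2 := h2
        _ = CL ^ 2 * (‖u‖ + ‖w‖) ^ 2 := by ring
        _ ≤ CL ^ 2 * (2 * (N + 2 * M ^ 2 * N)) :=
          mul_le_mul_of_nonneg_left (by linarith) (by positivity)
        _ = 2 * CL ^ 2 * (1 + 2 * M ^ 2) * N := by ring
    calc η / (4 * CL ^ 2 * (1 + 2 * M ^ 2)) * ‖L ![u, w]‖ ^ 2
        ≤ η / (4 * CL ^ 2 * (1 + 2 * M ^ 2)) * (2 * CL ^ 2 * (1 + 2 * M ^ 2) * N) :=
          mul_le_mul_of_nonneg_left h1 (by positivity)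
      _ = η / 2 * N := by field_simp; ring
  have hsplit : (![u, w] : Cn 2) = ![u, 0] + ![0, w] := by
    ext i; fin_cases i <;> simp
  have hD : D2 ρ p (L ![u, w]) = D2 ρ p (L ![u, 0]) +
      (B (L ![u, 0]) (L ![0, w]) + B (L ![0, w]) (L ![u, 0]) + B (L ![0, w]) (L ![0, w])) := by
    unfold D2
    rw [← hB, hsplit, map_add]
    simp only [map_add, add_apply]
    ring
  have ha : ‖L ![u, 0]‖ ≤ CL * ‖u‖ := by
    refine (hLn _).trans (mul_le_mul_of_nonneg_left ((norm_vec2 u 0).trans ?_) hCL0.le)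
    simp
  have hc : ‖L ![0, w]‖ ≤ CL * ‖w‖ := by
    refine (hLn _).trans (mul_le_mul_of_nonneg_left ((norm_vec2 0 w).trans ?_) hCL0.le)
    simp
  have hBb : ∀ y z : Cn 2, |B y z| ≤ ‖B‖ * ‖y‖ * ‖z‖ := fun y z => B.le_opNorm₂ y z
  have hE2 : |1 / 2 * (B (L ![u, 0]) (L ![0, w]) + B (L ![0, w]) (L ![u, 0]) +
      B (L ![0, w]) (L ![0, w]))| ≤ η / 2 * N := by
    have h1 : |B (L ![u, 0]) (L ![0, w])| ≤ ‖B‖ * (CL * ‖u‖) * (CL * ‖w‖) :=
      (hBb _ _).trans (by gcongr)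
    have h2 : |B (L ![0, w]) (L ![u, 0])| ≤ ‖B‖ * (CL * ‖w‖) * (CL * ‖u‖) :=
      (hBb _ _).trans (by gcongr)
    have h3 : |B (L ![0, w]) (L ![0, w])| ≤ ‖B‖ * (CL * ‖w‖) * (CL * ‖w‖) :=
      (hBb _ _).trans (by gcongr)
    have h4 : |B (L ![u, 0]) (L ![0, w]) + B (L ![0, w]) (L ![u, 0]) +
        B (L ![0, w]) (L ![0, w])| ≤ ‖B‖ * CL ^ 2 * (2 * ‖u‖ + ‖w‖) * ‖w‖ := by
      refine (abs_add_le _ _).trans ?_
      have := abs_add_le (B (L ![u, 0]) (L ![0, w])) (B (L ![0, w]) (L ![u, 0]))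
      nlinarith
    have h5 : 2 * ‖u‖ + ‖w‖ ≤ 2 * (1 + M) * δ := by nlinarith
    have h6 : ‖B‖ * CL ^ 2 * (2 * ‖u‖ + ‖w‖) * ‖w‖ ≤
        ‖B‖ * CL ^ 2 * (2 * (1 + M) * δ) * (M * N) := by
      gcongr
    have h7 : δ * (2 * (‖B‖ * CL ^ 2 * M * (1 + M) + 1)) ≤ η := by
      rwa [le_div_iff₀ (by positivity)] at hδ3
    have h8 : ‖B‖ * CL ^ 2 * (2 * (1 + M) * δ) * (M * N) ≤ η * N := by
      have h9 : ‖B‖ * CL ^ 2 * (2 * (1 + M) * δ) * M ≤ η := by
        nlinarith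
      calc ‖B‖ * CL ^ 2 * (2 * (1 + M) * δ) * (M * N) =
          (‖B‖ * CL ^ 2 * (2 * (1 + M) * δ) * M) * N := by ring
        _ ≤ η * N := mul_le_mul_of_nonneg_right h9 hN0
    rw [abs_mul, abs_of_nonneg (by norm_num : (0:ℝ) ≤ 1 / 2)]
    linarith
  have hwim : w.im = (x 1).im + (b * u ^ 2).re := by
    rw [hw, Complex.add_im, mul_assoc, Complex.mul_im, Complex.I_re, Complex.I_im]
    ring
  have hfin : ρ (p + L ![u, w]) + (x 1).im - s * ‖u‖ ^ 2 =
      (ρ (p + L ![u, w]) - 0 - -((![u, w] : Cn 2) 1).im - 1 / 2 * D2 ρ p (L ![u, w])) +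
      1 / 2 * (B (L ![u, 0]) (L ![0, w]) + B (L ![0, w]) (L ![u, 0]) +
        B (L ![0, w]) (L ![0, w])) := by
    rw [hD]
    have e1 : ((![u, w] : Cn 2) 1).im = w.im := by simp
    rw [e1, hwim]
    have := hq u
    linarith
  rw [hfin]
  calc _ ≤ |ρ (p + L ![u, w]) - 0 - -((![u, w] : Cn 2) 1).im - 1 / 2 * D2 ρ p (L ![u, w])| +
        |1 / 2 * (B (L ![u, 0]) (L ![0, w]) + B (L ![0, w]) (L ![u, 0]) +
        B (L ![0, w]) (L ![0, w]))| := abs_add_le _ _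
    _ ≤ η / 2 * N + η / 2 * N := add_le_add (hT1.trans hE1) hE2
    _ = η * N := by ring

/-- The chart. -/
noncomputable def ch (p : Cn 2) (L : Cn 2 ≃L[ℂ] Cn 2) (b : ℂ) (r : ℝ) :
    Chart (univ : Set (Cn 2)) 2 where
  W := (fun x : Cn 2 => p + L ![x 0, x 1 + Complex.I * b * (x 0) ^ 2]) ⁻¹' ball p r
  O := ball p r
  psi := fun x => p + L ![x 0, x 1 + Complex.I * b * (x 0) ^ 2]
  pi := fun z => ![(L.symm (z - p)) 0,
    (L.symm (z - p)) 1 - Complex.I * b * ((L.symm (z - p)) 0) ^ 2]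
  hW := by
    refine isOpen_ball.preimage ?_
    refine continuous_const.add (L.continuous.comp ?_)
    refine continuous_pi fun i => ?_
    fin_cases i
    · exact continuous_apply 0
    · show Continuous fun x : Cn 2 => x 1 + Complex.I * b * (x 0) ^ 2
      fun_prop
  hO := isOpen_ball
  hpsi := by
    refine Differentiable.differentiableOn ?_
    refine (differentiable_const p).add (L.differentiable.comp ?_)
    rw [differentiable_pi]
    intro i
    fin_cases i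
    · exact differentiable_apply 0
    · show Differentiable ℂ fun x : Cn 2 => x 1 + Complex.I * b * (x 0) ^ 2
      fun_prop
  hpi := by
    refine Differentiable.differentiableOn ?_
    have h0 : ∀ i : Fin 2, Differentiable ℂ fun z : Cn 2 => (L.symm (z - p)) i := by
      intro i
      exact (differentiable_apply i).comp (L.symm.differentiable.comp (differentiable_id.sub_const p))
    rw [differentiable_pi]
    intro i
    fin_cases i
    · exact h0 0
    · show Differentiable ℂ fun z : Cn 2 =>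
        (L.symm (z - p)) 1 - Complex.I * b * ((L.symm (z - p)) 0) ^ 2
      exact (h0 1).sub (((h0 0).pow 2).const_mul _)
  img := by
    ext z
    constructor
    · rintro ⟨x, hx, rfl⟩
      exact ⟨mem_univ _, hx⟩
    · rintro ⟨-, hz⟩
      refine ⟨![(L.symm (z - p)) 0,
        (L.symm (z - p)) 1 - Complex.I * b * ((L.symm (z - p)) 0) ^ 2], ?_, ?_⟩
      · have : (![(L.symm (z - p)) 0, (L.symm (z - p)) 1] : Cn 2) = L.symm (z - p) := by
          ext i; fin_cases i <;> rfl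
        simp only [mem_preimage, Matrix.cons_val_zero, Matrix.cons_val_one, sub_add_cancel]
        rw [this, L.apply_symm_apply]
        simpa using hz
      · have : (![(L.symm (z - p)) 0, (L.symm (z - p)) 1] : Cn 2) = L.symm (z - p) := by
          ext i; fin_cases i <;> rfl
        simp only [Matrix.cons_val_zero, Matrix.cons_val_one, sub_add_cancel]
        rw [this, L.apply_symm_apply]
        simp
  left := by
    intro x _
    have e : L.symm (p + L ![x 0, x 1 + Complex.I * b * (x 0) ^ 2] - p) =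
        ![x 0, x 1 + Complex.I * b * (x 0) ^ 2] := by
      rw [add_sub_cancel_left, L.symm_apply_apply]
    rw [e]
    ext i
    fin_cases i
    · rfl
    · simp

end NF2Aux

open NF2Aux in
theorem tNF2 (h1 : S_Tay) : S_NF2 := by
  intro R0 p ρ r v hr hρ hρ0 hdρ hR hv1 hv2 hLv
  set l := fderiv ℝ ρ p with hl
  set B := fderiv ℝ (fderiv ℝ ρ) p with hB
  have hv0 : v ≠ 0 := by
    rintro rfl
    apply hLv
    simp [Lv, D2]
  -- the vector `w0`
  obtain ⟨z1, hz1⟩ : ∃ z1, l z1 ≠ 0 := by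
    by_contra hcon
    push Not at hcon
    exact hdρ (ContinuousLinearMap.ext hcon)
  obtain ⟨w0, hw0⟩ : ∃ w0 : Cn 2, ∀ s : ℂ, l (s • w0) = -s.im := by
    set α : ℂ := (l z1 : ℂ) - Complex.I * (l (Complex.I • z1) : ℂ) with hα
    have hα0 : α ≠ 0 := by
      intro h
      have := congrArg Complex.re h
      simp [hα] at this
      exact hz1 this
    refine ⟨(Complex.I / α) • z1, fun s => ?_⟩
    rw [smul_smul, smul_split]
    have h2 : ∀ t : ℂ, t.re * l z1 + t.im * l (Complex.I • z1) = (t * α).re := by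
      intro t
      simp [hα, Complex.mul_re]
    rw [h2]
    have h3 : s * (Complex.I / α) * α = s * Complex.I := by
      field_simp
    rw [h3]
    simp
  -- scaling of `v`
  set κ : ℝ := 2 / √|Lv ρ p v| with hκ
  have hκ0 : 0 < κ := div_pos two_pos (Real.sqrt_pos.mpr (abs_pos.mpr hLv))
  have hκ2 : κ ^ 2 * |Lv ρ p v| = 4 := by
    rw [hκ, div_pow, Real.sq_sqrt (abs_nonneg _)]
    have := abs_pos.mpr hLv
    field_simp
    norm_num
  obtain ⟨v', hv'0, hv'l, hv'L⟩ : ∃ v' : Cn 2, v' ≠ 0 ∧ (∀ s : ℂ, l (s • v') = 0) ∧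
      Lv ρ p v' = κ ^ 2 * Lv ρ p v := by
    refine ⟨κ • v, smul_ne_zero hκ0.ne' hv0, fun s => ?_, ?_⟩
    · rw [smul_comm, map_smul, smul_split, hv1, hv2]
      simp
    · unfold Lv D2
      rw [smul_comm Complex.I κ v]
      simp only [map_smul, ContinuousLinearMap.smul_apply, smul_eq_mul]
      ring
  -- the linear isomorphism
  obtain ⟨L, hL⟩ : ∃ L : Cn 2 ≃L[ℂ] Cn 2, ∀ x, L x = x 0 • v' + x 1 • w0 := by
    set L0 : Cn 2 →ₗ[ℂ] Cn 2 :=
      { toFun := fun x => x 0 • v' + x 1 • w0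
        map_add' := fun x y => by simp only [Pi.add_apply, add_smul]; abel
        map_smul' := fun s x => by
          simp only [Pi.smul_apply, smul_eq_mul, mul_smul, RingHom.id_apply, smul_add] } with hL0
    have hinj : Function.Injective L0 := by
      rw [← LinearMap.ker_eq_bot, LinearMap.ker_eq_bot']
      intro x hx
      have hx' : x 0 • v' + x 1 • w0 = 0 := hx
      have h3 : ∀ s : ℂ, (s * x 1).im = 0 := by
        intro s
        have h4 : l (s • (x 0 • v' + x 1 • w0)) = 0 := by rw [hx', smul_zero, map_zero]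
        rw [smul_add, map_add, smul_smul, smul_smul, hv'l, hw0] at h4
        linarith
      have h5 : x 1 = 0 := by
        apply Complex.ext
        · have := h3 Complex.I
          simpa using this
        · have := h3 1
          simpa using this
      have h6 : x 0 = 0 := by
        rw [h5, zero_smul, add_zero] at hx'
        exact (smul_eq_zero.mp hx').resolve_right hv'0
      ext i
      fin_cases i
      · exact h6
      · exact h5
    exact ⟨(LinearEquiv.ofInjectiveEndo L0 hinj).toContinuousLinearEquiv, fun x => rfl⟩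
  set P := D2 ρ p v' with hP
  set Q := D2 ρ p (Complex.I • v') with hQ
  set S := B v' (Complex.I • v') + B (Complex.I • v') v' with hS
  obtain ⟨s, hs⟩ : ∃ s : ℝ, P + Q = 4 * s := ⟨(P + Q) / 4, by ring⟩
  have hPQ : P + Q = κ ^ 2 * Lv ρ p v := by rw [← hv'L]; rfl
  set b : ℂ := ⟨(P - Q) / 4, -S / 4⟩ with hb
  have hll : ∀ x, fderiv ℝ ρ p (L x) = -(x 1).im := by
    intro x
    rw [← hl, hL, map_add, hv'l, hw0, zero_add]
  have hqq : ∀ u : ℂ, 1 / 2 * D2 ρ p (L ![u, 0]) = s * ‖u‖ ^ 2 + (b * u ^ 2).re := by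
    intro u
    have e1 : L ![u, 0] = u.re • v' + u.im • (Complex.I • v') := by
      rw [hL]
      simp only [Matrix.cons_val_zero, Matrix.cons_val_one, zero_smul, add_zero]
      ext i
      simp only [Pi.smul_apply, Pi.add_apply, smul_eq_mul, Complex.real_smul]
      conv_lhs => rw [← Complex.re_add_im u]
      ring
    have e2 : D2 ρ p (L ![u, 0]) = u.re ^ 2 * P + u.re * u.im * S + u.im ^ 2 * Q := by
      rw [hP, hQ, hS, e1]
      unfold D2
      rw [← hB]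
      simp only [map_add, map_smul, ContinuousLinearMap.add_apply,
        ContinuousLinearMap.smul_apply, smul_eq_mul]
      ring
    have e3 : ‖u‖ ^ 2 = u.re ^ 2 + u.im ^ 2 := by
      rw [← Complex.normSq_eq_norm_sq, Complex.normSq_apply]; ring
    have e4 : (b * u ^ 2).re = (P - Q) / 4 * (u.re ^ 2 - u.im ^ 2) + S / 4 * (2 * u.re * u.im) := by
      rw [hb, sq, Complex.mul_re, Complex.mul_re, Complex.mul_im]
      ring
    rw [e2, e3, e4]
    have : s = (P + Q) / 4 := by linarith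
    rw [this]
    ring
  have hkey := fun η hη => key h1 hρ hρ0 L b s hll hqq η hη
  set e := ch p L b r with he
  have hpsi : ∀ x, e.psi x = p + L ![x 0, x 1 + Complex.I * b * (x 0) ^ 2] := fun x => rfl
  have hpsi0 : e.psi 0 = p := by
    rw [hpsi]
    have : (![(0 : Cn 2) 0, (0 : Cn 2) 1 + Complex.I * b * ((0 : Cn 2) 0) ^ 2] : Cn 2) = 0 := by
      ext i; fin_cases i <;> simp
    rw [this, map_zero, add_zero]
  have h0W : (0 : Cn 2) ∈ e.W := by
    show e.psi 0 ∈ ball p r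
    rw [hpsi0]; exact mem_ball_self hr
  have hcont : ContinuousAt e.psi 0 := e.hpsi.continuousOn.continuousAt (e.hW.mem_nhds h0W)
  have hnear : ∀ᶠ x in 𝓝 (0 : Cn 2), x ∈ e.W ∧ (e.psi x ∈ R0 ↔ ρ (e.psi x) < 0) := by
    have h2 : Tendsto e.psi (𝓝 0) (𝓝 p) := by
      have := hcont.tendsto
      rwa [hpsi0] at this
    have h3 : ∀ᶠ x in 𝓝 (0 : Cn 2), x ∈ e.W := e.hW.mem_nhds h0W
    exact h3.and (h2.eventually hR)
  obtain ⟨ρ', hρ', hball⟩ := Metric.eventually_nhds_iff_ball.mp hnear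
  refine ⟨e, ρ', fun x hx => hx, h0W, hpsi0, hρ', fun x hx => (hball x hx).1, ?_, ?_⟩
  · intro hpos η hη
    obtain ⟨δ, hδ, hk⟩ := hkey (η / 2) (by positivity)
    have hs1 : s = 1 := by
      rw [abs_of_pos hpos] at hκ2
      linarith
    refine ⟨min δ ρ', lt_min hδ hρ', fun z hz => ?_⟩
    rw [mem_ball_zero_iff] at hz
    have hz1 : ‖z‖ < δ := hz.trans_le (min_le_left _ _)
    have hz2 : z ∈ ball (0 : Cn 2) ρ' := mem_ball_zero_iff.mpr (hz.trans_le (min_le_right _ _))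
    have h3 := hk z hz1
    rw [← hpsi, hs1, one_mul] at h3
    obtain ⟨h4, h5⟩ := abs_le.mp h3
    have hb1 := hball z hz2
    have hN0 : 0 ≤ ‖z 0‖ ^ 2 := by positivity
    have hN1 : 0 ≤ ‖z 1‖ := norm_nonneg _
    constructor
    · rintro ⟨⟨-, hzR⟩, -⟩
      have h6 := hb1.2.mp hzR
      nlinarith
    · intro h6
      refine ⟨⟨hb1.1, hb1.2.mpr ?_⟩, hz2⟩
      nlinarith
  · intro hneg η hη
    obtain ⟨δ, hδ, hk⟩ := hkey (η / 2) (by positivity)
    have hs1 : s = -1 := by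
      rw [abs_of_neg hneg] at hκ2
      linarith
    refine ⟨min δ ρ', lt_min hδ hρ', fun z hz => ?_⟩
    rw [mem_ball_zero_iff] at hz
    have hz1 : ‖z‖ < δ := hz.trans_le (min_le_left _ _)
    have hz2 : z ∈ ball (0 : Cn 2) ρ' := mem_ball_zero_iff.mpr (hz.trans_le (min_le_right _ _))
    have h3 := hk z hz1
    rw [← hpsi, hs1] at h3
    obtain ⟨h4, h5⟩ := abs_le.mp h3
    have hb1 := hball z hz2
    have hN0 : 0 ≤ ‖z 0‖ ^ 2 := by positivity
    have hN1 : 0 ≤ ‖z 1‖ := norm_nonneg _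
    intro h6
    refine ⟨⟨hb1.1, hb1.2.mpr ?_⟩, hz2⟩
    nlinarith

end KP
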