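import Pool.Agent.Lib.KP.SpecS

/-!
# KP, block S: OneS (the hypersurface case, one side)
-/

set_option autoImplicit false

open Set Filter Topology Metric

namespace KP

namespace OneSAux

/-- The first coordinate. -/
noncomputable def P (k : ℕ) : ((Fin 1 → ℝ) × (Fin k → ℝ)) →L[ℝ] ℝ :=
  (ContinuousLinearMap.proj (R := ℝ) (φ := fun _ : Fin 1 => ℝ) 0).comp
    (ContinuousLinearMap.fst ℝ (Fin 1 → ℝ) (Fin k → ℝ))

theorem P_apply {k : ℕ} (x : (Fin 1 → ℝ) × (Fin k → ℝ)) : P k x = x.1 0 := rfl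

/-- The unit vector. -/
def e1 (k : ℕ) : (Fin 1 → ℝ) × (Fin k → ℝ) := (fun _ => 1, 0)

theorem P_e1 (k : ℕ) : P k (e1 k) = 1 := rfl

theorem dichotomy {n k : ℕ} {A : Set (Cn n)} {Q : Cn n → ℝ}
    {b : (Fin 1 → ℝ) × (Fin k → ℝ) → Cn n} {D : Set ((Fin 1 → ℝ) × (Fin k → ℝ))} (σ : ℝ)
    (hDc : Convex ℝ D) (hb : ∀ x ∈ D, ContinuousAt b x)
    (hQ : ∀ x ∈ D, Q (b x) ≠ 0 → ∀ᶠ z' in 𝓝 (b x), (z' ∈ A ↔ b x ∈ A))
    (hQ0 : ∀ x ∈ D, P k x ≠ 0 → Q (b x) ≠ 0) :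
    (∀ x ∈ D, 0 < σ * P k x → b x ∈ A) ∨ ∀ x ∈ D, 0 < σ * P k x → b x ∉ A := by
  set S : Set ((Fin 1 → ℝ) × (Fin k → ℝ)) := D ∩ {x | 0 < σ * P k x} with hS
  have hconv : Convex ℝ S := by
    refine hDc.inter ?_
    have : {x | 0 < σ * P k x} = (σ • P k) ⁻¹' Ioi (0 : ℝ) := by
      ext x; simp
    rw [this]
    exact (convex_Ioi (0 : ℝ)).is_linear_preimage (σ • P k).toLinearMap.isLinear
  have hloc : ∀ x ∈ S, ∀ᶠ x' in 𝓝 x, (b x' ∈ A ↔ b x ∈ A) := by
    intro x hx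
    have hne : P k x ≠ 0 := by
      intro h
      have h2 := hx.2
      simp [h] at h2
    exact (hb x hx.1).eventually (hQ x hx.1 (hQ0 x hx.1 hne))
  have hsub : S ⊆ interior {x | b x ∈ A} ∪ interior {x | b x ∉ A} := by
    intro x hx
    by_cases h : b x ∈ A
    · left
      rw [mem_interior_iff_mem_nhds]
      filter_upwards [hloc x hx] with x' h'
      exact h'.mpr h
    · right
      rw [mem_interior_iff_mem_nhds]
      filter_upwards [hloc x hx] with x' h'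
      exact fun h2 => h (h'.mp h2)
  have hdis : Disjoint (interior {x | b x ∈ A}) (interior {x | b x ∉ A}) := by
    rw [Set.disjoint_left]
    intro x h1 h2
    have q1 : b x ∈ A := interior_subset (s := {x | b x ∈ A}) h1
    have q2 : b x ∉ A := interior_subset (s := {x | b x ∉ A}) h2
    exact q2 q1
  rcases hconv.isPreconnected.subset_or_subset isOpen_interior isOpen_interior hdis hsub with h | h
  · left
    intro x hx hx'
    exact interior_subset (s := {x | b x ∈ A}) (h ⟨hx, hx'⟩)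
  · right
    intro x hx hx'
    exact interior_subset (s := {x | b x ∉ A}) (h ⟨hx, hx'⟩)

theorem shift_tendsto {k : ℕ} (x : (Fin 1 → ℝ) × (Fin k → ℝ)) (σ : ℝ) :
    Tendsto (fun s : ℝ => x + (s * σ) • e1 k) (𝓝[>] 0) (𝓝 x) := by
  have hc : Continuous (fun s : ℝ => x + (s * σ) • e1 k) := by fun_prop
  have h := hc.tendsto 0
  simp only [zero_mul, zero_smul, add_zero] at h
  exact h.mono_left nhdsWithin_le_nhds

/-- Points of `A` with vanishing first coordinate are limits of points with positive one. -/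
theorem cross {n k : ℕ} {A : Set (Cn n)} (hA : IsOpen A)
    {b : (Fin 1 → ℝ) × (Fin k → ℝ) → Cn n} {D : Set ((Fin 1 → ℝ) × (Fin k → ℝ))}
    (hD : IsOpen D) (hb : ∀ x ∈ D, ContinuousAt b x) (σ : ℝ) (hσ : σ ≠ 0)
    {x : (Fin 1 → ℝ) × (Fin k → ℝ)} (hx : x ∈ D) (hx0 : P k x = 0) (hxA : b x ∈ A) :
    ∃ x' ∈ D, 0 < σ * P k x' ∧ b x' ∈ A := by
  have h1 := shift_tendsto x σ
  have h2 : ∀ᶠ s in 𝓝[>] (0 : ℝ), x + (s * σ) • e1 k ∈ D := h1 (hD.mem_nhds hx)
  have h3 : ∀ᶠ s in 𝓝[>] (0 : ℝ), b (x + (s * σ) • e1 k) ∈ A :=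
    (((hb x hx).tendsto.comp h1)) (hA.mem_nhds hxA)
  have h4 : ∀ᶠ s in 𝓝[>] (0 : ℝ), 0 < s := self_mem_nhdsWithin
  obtain ⟨s, hs2, hs3, hs4⟩ := (h2.and (h3.and h4)).exists
  refine ⟨_, hs2, ?_, hs3⟩
  rw [map_add, map_smul, hx0, P_e1, smul_eq_mul]
  have : 0 < σ ^ 2 := by positivity
  nlinarith [mul_pos hs4 this]

end OneSAux

open OneSAux in
theorem tOneS (h1 : S_SgQ) (h2 : S_RDiv) (h3 : S_NoMax) : S_OneS := by
  intro n A r hA hS c k a b O δ hD
  have hcT := hD.mem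
  have hr : 0 < r := pos_of_mem_ball hcT.2
  obtain ⟨Q, hQan, hQne, hQ⟩ := h1 n A r hr hS
  have hac : a c = 0 := hD.a0
  have hbc : b 0 = c := by rw [← hac]; exact hD.ba c hD.cO
  have h0 : (0 : (Fin 1 → ℝ) × (Fin k → ℝ)) ∈ ball (0 : (Fin 1 → ℝ) × (Fin k → ℝ)) δ :=
    mem_ball_self hD.hδ
  have hφ : AnalyticAt ℝ (fun x => Q (b x)) 0 := by
    refine AnalyticAt.fun_comp ?_ (hD.anB 0 h0)
    rw [hbc]
    exact hQan c hcT.2
  have hacont : ContinuousAt a c := (hD.anA c hD.cO).continuousAt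
  have hφne : ¬ ∀ᶠ x in 𝓝 (0 : (Fin 1 → ℝ) × (Fin k → ℝ)), Q (b x) = 0 := by
    intro h
    have h4 : ∀ᶠ z in 𝓝 c, Q z = 0 := by
      have h5 : Tendsto a (𝓝 c) (𝓝 0) := by
        have := hacont.tendsto; rwa [hac] at this
      have h6 : ∀ᶠ z in 𝓝 c, z ∈ O := hD.hO.mem_nhds hD.cO
      filter_upwards [h5.eventually h, h6] with z hz1 hz2
      rwa [hD.ba z hz2] at hz1
    obtain ⟨z, hz, hz0⟩ := hQne
    exact hz0 (hQan.eqOn_zero_of_preconnected_of_eventuallyEq_zero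
      (convex_ball (0 : Cn n) r).isPreconnected hcT.2 h4 hz)
  obtain ⟨m, φ', hφ', hfac, hφ'ne⟩ := h2 k _ hφ hφne
  -- a good point
  have hgood : ∀ᶠ x in 𝓝 (0 : (Fin 1 → ℝ) × (Fin k → ℝ)), AnalyticAt ℝ φ' x ∧
      ∀ᶠ y in 𝓝 x, Q (b y) = (y.1 0) ^ m * φ' y :=
    hφ'.eventually_analyticAt.and (eventually_eventually_nhds.mpr hfac)
  obtain ⟨c', hc'T, hc'O, hc'an, hc'fac, hc'ne⟩ : ∃ c' ∈ Pk A ∩ ball 0 r, c' ∈ O ∧
      AnalyticAt ℝ φ' (a c') ∧ (∀ᶠ y in 𝓝 (a c'), Q (b y) = (y.1 0) ^ m * φ' y) ∧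
      φ' (a c') ≠ 0 := by
    by_contra hcon
    push Not at hcon
    apply hφ'ne
    have hfan : AnalyticAt ℝ (fun z => φ' (0, (a z).2)) c := by
      have h4 : AnalyticAt ℝ (fun z => ((0 : Fin 1 → ℝ), (a z).2)) c := by
        refine AnalyticAt.prod analyticAt_const ?_
        exact AnalyticAt.fun_comp analyticAt_snd (hD.anA c hD.cO)
      refine AnalyticAt.fun_comp ?_ h4
      have h5 : ((0 : Fin 1 → ℝ), (a c).2) = 0 := by rw [hac]; rfl
      rw [h5]; exact hφ'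
    have hz : ∀ᶠ z in 𝓝 c, z ∈ Pk A ∩ ball 0 r → φ' (0, (a z).2) = 0 := by
      have h5 : Tendsto a (𝓝 c) (𝓝 0) := by
        have := hacont.tendsto; rwa [hac] at this
      have h6 : ∀ᶠ z in 𝓝 c, z ∈ O := hD.hO.mem_nhds hD.cO
      filter_upwards [h5.eventually hgood, h6] with z hz1 hz2 hz3
      have h7 : ((0 : Fin 1 → ℝ), (a z).2) = a z := by
        rw [← hD.sub z ⟨hz3, hz2⟩]
      rw [h7]
      exact hcon z hz3 hz2 hz1.1 hz1.2
    have h8 := hD.dens c ⟨hcT, hD.cO⟩ _ hfan hz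
    have h9 : (a c).2 = 0 := by rw [hac]; rfl
    rw [h9] at h8
    have h10 : ∀ᶠ t in 𝓝 (0 : Fin k → ℝ), ((0 : Fin 1 → ℝ), t) ∈
        ball (0 : (Fin 1 → ℝ) × (Fin k → ℝ)) δ := by
      have hc : Continuous (fun t : Fin k → ℝ => ((0 : Fin 1 → ℝ), t)) := by fun_prop
      exact hc.continuousAt.preimage_mem_nhds (ball_mem_nhds _ hD.hδ)
    filter_upwards [h8, h10] with t ht1 ht2
    rw [hD.ab _ ht2] at ht1
    exact ht1
  set x' := a c' with hx'
  have hx'0 : P k x' = 0 := by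
    rw [P_apply, hx', hD.sub c' ⟨hc'T, hc'O⟩]; rfl
  have hx'δ : x' ∈ ball (0 : (Fin 1 → ℝ) × (Fin k → ℝ)) δ := hD.mapA hc'O
  have hbx' : b x' = c' := hD.ba c' hc'O
  have hbc' : ContinuousAt b x' := (hD.anB x' hx'δ).continuousAt
  have hac' : ContinuousAt a c' := (hD.anA c' hc'O).continuousAt
  -- the ball `D`
  have hDev : ∀ᶠ x in 𝓝 x', x ∈ ball (0 : (Fin 1 → ℝ) × (Fin k → ℝ)) δ ∧
      b x ∈ ball (0 : Cn n) r ∧ Q (b x) = (x.1 0) ^ m * φ' x ∧ φ' x ≠ 0 := by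
    have q1 : ∀ᶠ x in 𝓝 x', x ∈ ball (0 : (Fin 1 → ℝ) × (Fin k → ℝ)) δ :=
      isOpen_ball.mem_nhds hx'δ
    have q2 : ∀ᶠ x in 𝓝 x', b x ∈ ball (0 : Cn n) r :=
      hbc'.preimage_mem_nhds (isOpen_ball.mem_nhds (by rw [hbx']; exact hc'T.2))
    have q4 : ∀ᶠ x in 𝓝 x', φ' x ≠ 0 :=
      hc'an.continuousAt.eventually_ne hc'ne
    exact q1.and (q2.and (hc'fac.and q4))
  obtain ⟨ε, hε, hball⟩ := Metric.eventually_nhds_iff_ball.mp hDev
  set D := ball x' ε with hDdef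
  have hDo : IsOpen D := isOpen_ball
  have hx'D : x' ∈ D := mem_ball_self hε
  have hDb : ∀ x ∈ D, ContinuousAt b x := fun x hx => (hD.anB x (hball x hx).1).continuousAt
  have hDQ : ∀ x ∈ D, Q (b x) ≠ 0 → ∀ᶠ z' in 𝓝 (b x), (z' ∈ A ↔ b x ∈ A) :=
    fun x hx h => hQ _ (hball x hx).2.1 h
  have hDQ0 : ∀ x ∈ D, P k x ≠ 0 → Q (b x) ≠ 0 := by
    intro x hx h
    rw [(hball x hx).2.2.1]
    exact mul_ne_zero (pow_ne_zero _ h) (hball x hx).2.2.2
  have hdich := fun σ => dichotomy (A := A) (Q := Q) (b := b) (D := D) σ (convex_ball x' ε) hDb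
    hDQ hDQ0
  have hN : ∀ᶠ z in 𝓝 c', z ∈ O ∧ a z ∈ D := by
    have q1 : ∀ᶠ z in 𝓝 c', z ∈ O := hD.hO.mem_nhds hc'O
    have q2 : ∀ᶠ z in 𝓝 c', a z ∈ D := hac'.preimage_mem_nhds (hDo.mem_nhds hx'D)
    exact q1.and q2
  obtain ⟨⟨hc'A, hc'cl, Φ, hΦ, hLv, η, hη, hmax⟩, hc'r⟩ := hc'T
  -- not both sides are outside `A`
  have hex : ∀ σ : ℝ, σ ≠ 0 → (∀ x ∈ D, 0 < σ * P k x → b x ∉ A) →
      (∀ x ∈ D, 0 < -σ * P k x → b x ∉ A) → False := by
    intro σ hσ hp hm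
    obtain ⟨z, hzN, hzA⟩ := mem_closure_iff_nhds.mp hc'cl _ hN
    have hbz : b (a z) = z := hD.ba z hzN.1
    have hzz : P k (a z) = 0 := by
      by_contra hne
      have hne2 : σ * P k (a z) ≠ 0 := mul_ne_zero hσ hne
      rcases lt_or_gt_of_ne hne2 with h | h
      · exact hm _ hzN.2 (by linarith) (by rw [hbz]; exact hzA)
      · exact hp _ hzN.2 h (by rw [hbz]; exact hzA)
    obtain ⟨y, hyD, hy0, hyA⟩ := cross hA hDo hDb σ hσ hzN.2 hzz (by rw [hbz]; exact hzA)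
    exact hp y hyD hy0 hyA
  -- not both sides are inside `A`
  have hnb : (∀ x ∈ D, 0 < (1 : ℝ) * P k x → b x ∈ A) →
      (∀ x ∈ D, 0 < (-1 : ℝ) * P k x → b x ∈ A) → False := by
    intro hp hm
    have hle : ∀ᶠ z in 𝓝 c', z ∈ A → Φ z ≤ Φ c' := by
      filter_upwards [hmax] with z hz hzA
      have h4 := hz hzA
      have h5 : 0 ≤ nsq (z - c') := Finset.sum_nonneg fun i _ => Complex.normSq_nonneg _
      nlinarith
    have hcont : ∀ᶠ z in 𝓝 c', ContinuousAt Φ z := by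
      filter_upwards [hΦ.eventually (by simp)] with z hz
      exact hz.continuousAt
    have hloc : IsLocalMax Φ c' := by
      filter_upwards [eventually_eventually_nhds.mpr hle, hcont, hN] with z hz1 hz2 hz3
      have hbz : b (a z) = z := hD.ba z hz3.1
      by_cases hzz : P k (a z) = 0
      · have q1 : Tendsto (fun s : ℝ => b (a z + (s * 1) • e1 k)) (𝓝[>] 0) (𝓝 z) := by
          have := (hDb _ hz3.2).tendsto.comp (shift_tendsto (a z) 1)
          rwa [hbz] at this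
        have q2 : Tendsto (fun s : ℝ => Φ (b (a z + (s * 1) • e1 k))) (𝓝[>] 0) (𝓝 (Φ z)) :=
          hz2.tendsto.comp q1
        have q3 : ∀ᶠ s in 𝓝[>] (0 : ℝ), Φ (b (a z + (s * 1) • e1 k)) ≤ Φ c' := by
          have q4 : ∀ᶠ s in 𝓝[>] (0 : ℝ), a z + (s * 1) • e1 k ∈ D :=
            (shift_tendsto (a z) 1) (hDo.mem_nhds hz3.2)
          have q5 : ∀ᶠ s in 𝓝[>] (0 : ℝ), 0 < s := self_mem_nhdsWithin
          filter_upwards [q1.eventually hz1, q4, q5] with s hs1 hs2 hs3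
          refine hs1 (hp _ hs2 ?_)
          rw [map_add, map_smul, hzz, P_e1, smul_eq_mul]
          linarith
        exact le_of_tendsto q2 q3
      · have hzA : z ∈ A := by
          rcases lt_or_gt_of_ne hzz with h | h
          · have := hm _ hz3.2 (by linarith)
            rwa [hbz] at this
          · have := hp _ hz3.2 (by linarith)
            rwa [hbz] at this
        exact hz1.self_of_nhds hzA
    have hn : 0 < n := by
      have := hD.dim; omega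
    have hv : (fun _ : Fin n => (1 : ℂ)) ≠ 0 := by
      intro h
      have := congrFun h ⟨0, hn⟩
      simp at this
    have h4 := h3 n Φ c' hΦ hloc (fun _ => 1)
    have h5 := h3 n Φ c' hΦ hloc (Complex.I • fun _ => 1)
    have h6 := hLv _ hv
    unfold Lv at h6
    linarith
  -- conclusion
  have hconc : ∀ σ : ℝ, σ ≠ 0 → (∀ x ∈ D, 0 < σ * P k x → b x ∈ A) →
      (∀ x ∈ D, 0 < -σ * P k x → b x ∉ A) →
      ∃ (c' : Cn n) (ρ : Cn n → ℝ), c' ∈ Pk A ∧ c' ∈ ball (0 : Cn n) r ∧ AnalyticAt ℝ ρ c' ∧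
      ρ c' = 0 ∧ fderiv ℝ ρ c' ≠ 0 ∧ ∀ᶠ z in 𝓝 c', (z ∈ A ↔ ρ z < 0) := by
    intro σ hσ hp hm
    have hρan : AnalyticAt ℝ (fun z => ((-σ) • P k) (a z)) c' :=
      AnalyticAt.fun_comp (((-σ) • P k).analyticAt _) (hD.anA c' hc'O)
    refine ⟨c', fun z => ((-σ) • P k) (a z), ⟨hc'A, hc'cl, Φ, hΦ, hLv, η, hη, hmax⟩, hc'r,
      hρan, ?_, ?_, ?_⟩
    · show ((-σ) • P k) x' = 0
      rw [smul_apply, hx'0, smul_zero]
    · intro hz
      have q1 : HasFDerivAt (fun z => ((-σ) • P k) (a z)) (0 : Cn n →L[ℝ] ℝ) (b x') := by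
        rw [hbx', ← hz]
        exact hρan.differentiableAt.hasFDerivAt
      have q2 : HasFDerivAt b (fderiv ℝ b x') x' :=
        (hD.anB x' hx'δ).differentiableAt.hasFDerivAt
      have q3 := q1.comp x' q2
      have q4 : HasFDerivAt (fun x => ((-σ) • P k) x) ((-σ) • P k) x' :=
        ((-σ) • P k).hasFDerivAt
      have q5 : (fun z => ((-σ) • P k) (a z)) ∘ b =ᶠ[𝓝 x'] fun x => ((-σ) • P k) x := by
        filter_upwards [isOpen_ball.mem_nhds hx'δ] with x hx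
        show ((-σ) • P k) (a (b x)) = _
        rw [hD.ab x hx]
      have q6 := (q4.congr_of_eventuallyEq q5).unique q3
      have q7 := congrArg (fun f => f (e1 k)) q6
      simp only [smul_apply, P_e1, smul_eq_mul, mul_one, ContinuousLinearMap.zero_comp,
        zero_apply] at q7
      exact hσ (by linarith)
    · filter_upwards [hN] with z hz
      have hbz : b (a z) = z := hD.ba z hz.1
      have e : ((-σ) • P k) (a z) = -(σ * P k (a z)) := by
        rw [smul_apply, smul_eq_mul]; ring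
      rw [e]
      constructor
      · intro hzA
        have hzA' : b (a z) ∈ A := by rw [hbz]; exact hzA
        rcases lt_trichotomy (σ * P k (a z)) 0 with h | h | h
        · exact absurd hzA' (hm _ hz.2 (by linarith))
        · have h0' : P k (a z) = 0 := (mul_eq_zero.mp h).resolve_left hσ
          obtain ⟨y, hyD, hy0, hyA⟩ := cross hA hDo hDb (-σ) (neg_ne_zero.mpr hσ) hz.2 h0' hzA'
          exact absurd hyA (hm y hyD hy0)
        · linarith
      · intro h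
        have := hp _ hz.2 (by linarith)
        rwa [hbz] at this
  rcases hdich 1 with hp | hp
  · rcases hdich (-1) with hm | hm
    · exact (hnb hp hm).elim
    · exact hconc 1 one_ne_zero hp hm
  · rcases hdich (-1) with hm | hm
    · refine hconc (-1) (by norm_num) hm ?_
      intro x hx hx'
      exact hp x hx (by linarith)
    · exact (hex 1 one_ne_zero hp hm).elim

end KP
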