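import Pool.Agent.Lib.KP.SpecS

/-!
# KP (MP_64edc4_ag), block S, RDiv: real analytic division
-/

set_option autoImplicit false

open Set Filter Topology Metric

namespace KP

private theorem updR_mem {k : ℕ} {i : Fin k} {c z : Cn k} {ρ : ℝ} {ζ : ℂ} (hc : c i = 0)
    (hz : z ∈ ball c ρ) (hζ : ‖ζ‖ < ρ) : Function.update z i ζ ∈ ball c ρ := by
  have hρ : 0 < ρ := lt_of_le_of_lt (norm_nonneg ζ) hζ
  rw [mem_ball, dist_pi_lt_iff hρ] at hz ⊢
  intro j
  by_cases hj : j = i
  · subst hj
    rw [Function.update_self, hc, dist_zero_right]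
    exact hζ
  · rw [Function.update_of_ne hj]
    exact hz j

/-- Real vectors as complex vectors. -/
private def cx {m : ℕ} (t : Fin m → ℝ) : Cn m := fun i => (t i : ℂ)

private theorem cx_norm {m : ℕ} (t : Fin m → ℝ) : ‖cx t‖ = ‖t‖ := by
  refine le_antisymm ((pi_norm_le_iff_of_nonneg (norm_nonneg t)).2 fun i => ?_)
    ((pi_norm_le_iff_of_nonneg (norm_nonneg _)).2 fun i => ?_)
  · change ‖(t i : ℂ)‖ ≤ ‖t‖
    rw [Complex.norm_real]
    exact norm_le_pi_norm t i
  · have h := norm_le_pi_norm (cx t) i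
    change ‖(t i : ℂ)‖ ≤ _ at h
    rwa [Complex.norm_real] at h

private theorem cx_cont {m : ℕ} : Continuous (cx (m := m)) :=
  continuous_pi fun i => Complex.continuous_ofReal.comp (continuous_apply i)

private theorem real_id {m : ℕ} {H : Cn m → ℂ} {ρ ε : ℝ} (hε : 0 < ε) (hερ : ε ≤ ρ)
    (hH : DifferentiableOn ℂ H (ball 0 ρ)) (h : ∀ t : Fin m → ℝ, ‖t‖ < ε → H (cx t) = 0) :
    ∀ z ∈ ball (0 : Cn m) ρ, H z = 0 := by
  have key : ∀ S : Finset (Fin m), ∀ w ∈ ball (0 : Cn m) ε,
      (∀ i, i ∉ S → (w i).im = 0) → H w = 0 := by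
    intro S
    induction S using Finset.induction_on with
    | empty =>
      intro w hw hr
      have e : w = cx (fun i => (w i).re) := by
        ext i
        exact Complex.ext rfl (hr i (Finset.notMem_empty i))
      rw [e]
      apply h
      rw [← cx_norm, ← e]
      exact mem_ball_zero_iff.1 hw
    | insert a S ha ih =>
      intro w hw hr
      have hg : DifferentiableOn ℂ (fun ζ : ℂ => H (Function.update w a ζ)) (ball 0 ε) := by
        intro ζ hζ
        have hm := ball_subset_ball hερ (updR_mem (i := a) rfl hw (mem_ball_zero_iff.1 hζ))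
        have d1 : DifferentiableAt ℂ H (Function.update w a ζ) := (hH _ hm).differentiableAt
          (isOpen_ball.mem_nhds hm)
        have d2 : DifferentiableAt ℂ (fun ζ : ℂ => (Function.update w a ζ : Cn m)) ζ :=
          (hasFDerivAt_update w ζ).differentiableAt
        exact (d1.comp ζ d2).differentiableWithinAt
      have hfr : ∃ᶠ ζ : ℂ in 𝓝[≠] 0, H (Function.update w a ζ) = 0 := by
        have ht : Tendsto (fun s : ℝ => (s : ℂ)) (𝓝[≠] 0) (𝓝[≠] 0) := by
          rw [tendsto_nhdsWithin_iff]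
          refine ⟨?_, ?_⟩
          · have h1 : Tendsto (fun s : ℝ => (s : ℂ)) (𝓝 0) (𝓝 0) := by
              have h2 := Complex.continuous_ofReal.tendsto 0
              rwa [Complex.ofReal_zero] at h2
            exact h1.mono_left nhdsWithin_le_nhds
          · filter_upwards [self_mem_nhdsWithin] with s hs
            exact Complex.ofReal_ne_zero.2 hs
        refine ht.frequently (Filter.Eventually.frequently ?_)
        have hb : ∀ᶠ s : ℝ in 𝓝[≠] 0, s ∈ ball (0 : ℝ) ε :=
          mem_nhdsWithin_of_mem_nhds (ball_mem_nhds 0 hε)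
        filter_upwards [hb] with s hs
        apply ih
        · refine updR_mem (i := a) rfl hw ?_
          rw [Complex.norm_real]
          exact mem_ball_zero_iff.1 hs
        · intro i hi
          by_cases hia : i = a
          · subst hia
            rw [Function.update_self, Complex.ofReal_im]
          · rw [Function.update_of_ne hia]
            exact hr i (by rw [Finset.mem_insert]; tauto)
      have hz := (hg.analyticOnNhd isOpen_ball).eqOn_zero_of_preconnected_of_frequently_eq_zero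
        (convex_ball (0 : ℂ) ε).isPreconnected (mem_ball_self hε) hfr
      have hwa : ‖w a‖ < ε := (norm_le_pi_norm w a).trans_lt (mem_ball_zero_iff.1 hw)
      have h1 := hz (mem_ball_zero_iff.2 hwa)
      simpa only [Function.update_eq_self, Pi.zero_apply] using h1
  have hev : H =ᶠ[𝓝 0] 0 := by
    have hb : ∀ᶠ w : Cn m in 𝓝 0, w ∈ ball (0 : Cn m) ε := ball_mem_nhds 0 hε
    filter_upwards [hb] with w hw
    exact key Finset.univ w hw (fun i hi => absurd (Finset.mem_univ i) hi)
  have han := Pool.Agent.Lib.Osgood.analyticOnNhd isOpen_ball hH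
  exact han.eqOn_zero_of_preconnected_of_eventuallyEq_zero
    (convex_ball (0 : Cn m) ρ).isPreconnected (mem_ball_self (hε.trans_le hερ)) hev

/-- The identification of the real coordinates. -/
private def ee {k : ℕ} (x : (Fin 1 → ℝ) × (Fin k → ℝ)) : Fin (k + 1) → ℝ := Fin.cons (x.1 0) x.2

private def ll {k : ℕ} (x : Fin (k + 1) → ℝ) : (Fin 1 → ℝ) × (Fin k → ℝ) :=
  (fun _ => x 0, fun j => x j.succ)

private theorem ll_ee {k : ℕ} (x : (Fin 1 → ℝ) × (Fin k → ℝ)) : ll (ee x) = x := by
  unfold ll ee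
  refine Prod.ext ?_ ?_
  · funext i
    rw [Subsingleton.elim i 0]
    rfl
  · rfl

private theorem an_ll {k : ℕ} (x : Fin (k + 1) → ℝ) : AnalyticAt ℝ (ll (k := k)) x := by
  have h1 : AnalyticAt ℝ (fun x : Fin (k + 1) → ℝ => (fun _ : Fin 1 => x 0)) x :=
    analyticAt_pi_iff.2 fun _ => (ContinuousLinearMap.proj (R := ℝ) (φ := fun _ => ℝ)
      (0 : Fin (k + 1))).analyticAt x
  have h2 : AnalyticAt ℝ (fun x : Fin (k + 1) → ℝ => (fun j : Fin k => x j.succ)) x :=
    analyticAt_pi_iff.2 fun j => (ContinuousLinearMap.proj (R := ℝ) (φ := fun _ => ℝ)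
      j.succ).analyticAt x
  exact h1.prod h2

private theorem an_cxee {k : ℕ} (x : (Fin 1 → ℝ) × (Fin k → ℝ)) :
    AnalyticAt ℝ (fun x : (Fin 1 → ℝ) × (Fin k → ℝ) => cx (ee x)) x := by
  refine analyticAt_pi_iff.2 fun i => ?_
  refine Fin.cases ?_ (fun j => ?_) i
  · exact (Complex.ofRealCLM.comp ((ContinuousLinearMap.proj (R := ℝ) (φ := fun _ => ℝ)
      (0 : Fin 1)).comp (ContinuousLinearMap.fst ℝ (Fin 1 → ℝ) (Fin k → ℝ)))).analyticAt x
  · exact (Complex.ofRealCLM.comp ((ContinuousLinearMap.proj (R := ℝ) (φ := fun _ => ℝ)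
      j).comp (ContinuousLinearMap.snd ℝ (Fin 1 → ℝ) (Fin k → ℝ)))).analyticAt x

private theorem ee_zero {k : ℕ} : ee (0 : (Fin 1 → ℝ) × (Fin k → ℝ)) = 0 := by
  funext i
  refine Fin.cases ?_ (fun j => ?_) i <;> rfl

private theorem cx_zero {m : ℕ} : cx (0 : Fin m → ℝ) = 0 := by
  funext i
  exact Complex.ofReal_zero

theorem tRDiv (h1 : S_Cplx) (h2 : S_DivN) : S_RDiv := by
  intro k φ hφ hnz
  -- the complexification
  have hf : AnalyticAt ℝ (fun x : Fin (k + 1) → ℝ => ((fun _ => (φ (ll x) : ℂ)) : Cn 1)) 0 := by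
    refine analyticAt_pi_iff.2 fun _ => ?_
    have e : AnalyticAt ℝ φ (ll (0 : Fin (k + 1) → ℝ)) := hφ
    exact (Complex.ofRealCLM.analyticAt _).comp (e.comp (an_ll 0))
  obtain ⟨ρ, hρ, F, hF, hFe⟩ := h1 (k + 1) 1 _ 0 hf
  have hc0 : (fun i : Fin (k + 1) => (((0 : Fin (k + 1) → ℝ) i : ℝ) : ℂ)) = (0 : Cn (k + 1)) :=
    cx_zero
  rw [hc0] at hF
  set G : Cn (k + 1) → ℂ := fun z => F z 0 with hGdef
  have hG : DifferentiableOn ℂ G (ball 0 ρ) := by
    intro z hz
    exact (differentiableWithinAt_pi.1 (hF z hz)) 0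
  have hGe : ∀ t : Fin (k + 1) → ℝ, ‖t‖ < ρ → G (cx t) = (φ (ll t) : ℂ) := by
    intro t ht
    have h := hFe t (mem_ball_zero_iff.2 ht)
    exact congrFun h 0
  have hcont : ContinuousAt (fun x : (Fin 1 → ℝ) × (Fin k → ℝ) => cx (ee x)) 0 :=
    (an_cxee 0).continuousAt
  have hnear : ∀ ε > 0, ∀ᶠ x : (Fin 1 → ℝ) × (Fin k → ℝ) in 𝓝 0, ‖ee x‖ < ε := by
    intro ε hε
    have hm : ball (0 : Cn (k + 1)) ε ∈ 𝓝 (cx (ee (0 : (Fin 1 → ℝ) × (Fin k → ℝ)))) := by
      rw [ee_zero, cx_zero]
      exact ball_mem_nhds 0 hε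
    have h := hcont.eventually_mem hm
    filter_upwards [h] with x hx
    rw [← cx_norm]
    exact mem_ball_zero_iff.1 hx
  have hGne : ∃ z ∈ ball (0 : Cn (k + 1)) ρ, G z ≠ 0 := by
    by_contra hcon
    push Not at hcon
    apply hnz
    filter_upwards [hnear ρ hρ] with x hx
    have h := hGe (ee x) hx
    rw [ll_ee, hcon (cx (ee x)) (mem_ball_zero_iff.2 (by rwa [cx_norm]))] at h
    exact Complex.ofReal_eq_zero.1 h.symm
  obtain ⟨κ, G', hG', he, z₀, hz₀, hz₀0, hz₀ne⟩ := h2 (k + 1) 0 0 ρ G rfl hG hGne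
  have hreal : ∀ x : (Fin 1 → ℝ) × (Fin k → ℝ), ‖ee x‖ < ρ →
      ((x.1 0 ^ κ : ℝ) : ℂ) * G' (cx (ee x)) = (φ x : ℂ) := by
    intro x hx
    have h := hGe (ee x) hx
    rw [ll_ee, he (cx (ee x)) (mem_ball_zero_iff.2 (by rwa [cx_norm]))] at h
    rw [← h, Complex.ofReal_pow]
    rfl
  refine ⟨κ, fun x => (G' (cx (ee x))).re, ?_, ?_, ?_⟩
  · have han : AnalyticAt ℂ G' (cx (ee (0 : (Fin 1 → ℝ) × (Fin k → ℝ)))) := by
      rw [ee_zero, cx_zero]
      exact Pool.Agent.Lib.Osgood.analyticOnNhd isOpen_ball hG' 0 (mem_ball_self hρ)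
    have han' : AnalyticAt ℝ G' ((fun x : (Fin 1 → ℝ) × (Fin k → ℝ) => cx (ee x)) 0) :=
      han.restrictScalars (𝕜 := ℝ)
    have h3 := AnalyticAt.comp (f := fun x : (Fin 1 → ℝ) × (Fin k → ℝ) => cx (ee x)) (g := G')
      (x := 0) han' (an_cxee 0)
    exact (Complex.reCLM.analyticAt _).comp h3
  · filter_upwards [hnear ρ hρ] with x hx
    have h := congrArg Complex.re (hreal x hx)
    rw [Complex.re_ofReal_mul, Complex.ofReal_re] at h
    exact h.symm
  · intro hev
    -- the values of `G'` at real points are real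
    have him : ∀ t : Fin k → ℝ, ‖ee ((0 : Fin 1 → ℝ), t)‖ < ρ →
        (G' (cx (ee ((0 : Fin 1 → ℝ), t)))).im = 0 := by
      intro t ht
      have hcs : Continuous (fun s : ℝ => cx (ee ((fun _ : Fin 1 => s), t))) := by
        refine cx_cont.comp (continuous_pi fun i => ?_)
        refine Fin.cases ?_ (fun j => ?_) i
        · exact continuous_id
        · exact continuous_const
      have hbt : cx (ee ((fun _ : Fin 1 => (0 : ℝ)), t)) ∈ ball (0 : Cn (k + 1)) ρ :=
        mem_ball_zero_iff.2 (by rw [cx_norm]; exact ht)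
      have hcG : ContinuousAt (fun s : ℝ => (G' (cx (ee ((fun _ : Fin 1 => s), t)))).im) 0 := by
        have h3 : ContinuousAt G' (cx (ee ((fun _ : Fin 1 => (0 : ℝ)), t))) :=
          hG'.continuousOn.continuousAt (isOpen_ball.mem_nhds hbt)
        exact Complex.continuous_im.continuousAt.comp
          (ContinuousAt.comp (f := fun s : ℝ => cx (ee ((fun _ : Fin 1 => s), t))) h3
            hcs.continuousAt)
      have hz : ∀ᶠ s : ℝ in 𝓝[≠] 0, (G' (cx (ee ((fun _ : Fin 1 => s), t)))).im = 0 := by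
        have hb : ∀ᶠ s : ℝ in 𝓝[≠] 0,
            cx (ee ((fun _ : Fin 1 => s), t)) ∈ ball (0 : Cn (k + 1)) ρ :=
          (hcs.continuousAt.eventually_mem (isOpen_ball.mem_nhds hbt)).filter_mono
            nhdsWithin_le_nhds
        filter_upwards [hb, self_mem_nhdsWithin] with s hs hs0
        have h := congrArg Complex.im (hreal ((fun _ : Fin 1 => s), t) (by
          rw [← cx_norm]
          exact mem_ball_zero_iff.1 hs))
        rw [Complex.im_ofReal_mul, Complex.ofReal_im] at h
        exact (mul_eq_zero.1 h).resolve_left (pow_ne_zero κ hs0)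
      have h4 : Tendsto (fun s : ℝ => (G' (cx (ee ((fun _ : Fin 1 => s), t)))).im) (𝓝[≠] 0)
          (𝓝 ((G' (cx (ee ((fun _ : Fin 1 => (0 : ℝ)), t)))).im)) :=
        hcG.tendsto.mono_left nhdsWithin_le_nhds
      have h5 : Tendsto (fun s : ℝ => (G' (cx (ee ((fun _ : Fin 1 => s), t)))).im) (𝓝[≠] 0)
          (𝓝 0) :=
        tendsto_const_nhds.congr' (hz.mono fun s hs => hs.symm)
      exact tendsto_nhds_unique h4 h5
    obtain ⟨ε', hε', hsub⟩ := Metric.eventually_nhds_iff_ball.1 hev
    have hHd : DifferentiableOn ℂ (fun z : Cn (k + 1) => G' (Function.update z 0 0))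
        (ball 0 ρ) := by
      intro z hz
      have hm : Function.update z 0 0 ∈ ball (0 : Cn (k + 1)) ρ :=
        updR_mem rfl hz (by rwa [norm_zero])
      have d1 : DifferentiableAt ℂ G' (Function.update z 0 0) := (hG' _ hm).differentiableAt
        (isOpen_ball.mem_nhds hm)
      have d2 : DifferentiableAt ℂ (fun z : Cn (k + 1) => Function.update z 0 (0 : ℂ)) z := by
        rw [differentiableAt_pi]
        intro i
        by_cases hi : i = 0
        · subst hi
          simp only [Function.update_self]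
          exact differentiableAt_const _
        · simp only [Function.update_of_ne hi]
          exact differentiableAt_apply i z
      exact (DifferentiableAt.comp z d1 d2).differentiableWithinAt
    have hzero := real_id (lt_min hε' hρ) (min_le_right ε' ρ) hHd (by
      intro t ht
      have e : Function.update (cx t) 0 0 = cx (ee ((0 : Fin 1 → ℝ), fun j => t j.succ)) := by
        funext i
        refine Fin.cases ?_ (fun j => ?_) i
        · rw [Function.update_self]
          exact Complex.ofReal_zero.symm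
        · rw [Function.update_of_ne (Fin.succ_ne_zero j)]
          rfl
      have hle : ‖ee ((0 : Fin 1 → ℝ), fun j => t j.succ)‖ ≤ ‖t‖ := by
        refine (pi_norm_le_iff_of_nonneg (norm_nonneg t)).2 fun i => ?_
        refine Fin.cases ?_ (fun j => ?_) i
        · change ‖(0 : ℝ)‖ ≤ ‖t‖
          rw [norm_zero]
          exact norm_nonneg t
        · exact norm_le_pi_norm t j.succ
      have hle' : ‖(fun j : Fin k => t j.succ)‖ ≤ ‖t‖ :=
        (pi_norm_le_iff_of_nonneg (norm_nonneg t)).2 fun j => norm_le_pi_norm t j.succ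
      rw [e]
      refine Complex.ext ?_ ?_
      · exact hsub (fun j => t j.succ)
          (mem_ball_zero_iff.2 (hle'.trans_lt (ht.trans_le (min_le_left _ _))))
      · exact him (fun j => t j.succ) (hle.trans_lt (ht.trans_le (min_le_right _ _))))
    have h6 := hzero z₀ hz₀
    have e : Function.update z₀ 0 0 = z₀ := by
      rw [← hz₀0, Function.update_eq_self]
    rw [e] at h6
    exact hz₀ne h6

end KP
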