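import Pool.Agent.Lib.KP.SpecS

/-!
# KP (MP_64edc4_ag), block S, Sel (helper59): selection of a point with the maximal number of equations
-/

set_option autoImplicit false

open Set Filter Topology Metric

namespace KP

namespace SelAux

/-- `l` independent analytic equations for `T` at `c` -/
def Adm {n : ℕ} (T : Set (Cn n)) (c : Cn n) (l : ℕ) : Prop :=
  c ∈ T ∧ ∃ F : Cn n → (Fin l → ℝ), AnalyticAt ℝ F c ∧ (∀ᶠ z in 𝓝 c, z ∈ T → F z = 0) ∧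
    Function.Surjective (fderiv ℝ F c)

theorem finrankC (n : ℕ) : Module.finrank ℝ (Cn n) = 2 * n := by
  rw [Module.finrank_pi_fintype]
  simp [Complex.finrank_real_complex, mul_comm]

theorem adm_of {n : ℕ} {T : Set (Cn n)} {c : Cn n} {l : ℕ} (V : Type) [NormedAddCommGroup V]
    [NormedSpace ℝ V] [FiniteDimensional ℝ V] (hV : Module.finrank ℝ V = l) (hc : c ∈ T)
    (F : Cn n → V) (h1 : AnalyticAt ℝ F c) (h2 : ∀ᶠ z in 𝓝 c, z ∈ T → F z = 0)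
    (F' : Cn n →L[ℝ] V) (h3 : HasFDerivAt F F' c) (h4 : Function.Surjective F') : Adm T c l := by
  let e : V ≃L[ℝ] (Fin l → ℝ) := ContinuousLinearEquiv.ofFinrankEq (by rw [hV]; simp)
  refine ⟨hc, fun z => e (F z), ?_, ?_, ?_⟩
  · exact ((e : V →L[ℝ] (Fin l → ℝ)).analyticAt (F c)).comp h1
  · filter_upwards [h2] with z hz hzT
    rw [hz hzT, map_zero]
  · have : fderiv ℝ (fun z => e (F z)) c = (e : V →L[ℝ] (Fin l → ℝ)).comp F' :=
      (e.hasFDerivAt.comp c h3).fderiv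
    rw [this]
    exact e.surjective.comp h4

theorem adm_zero {n : ℕ} {T : Set (Cn n)} {c : Cn n} (hc : c ∈ T) : Adm T c 0 := by
  refine ⟨hc, fun _ => 0, analyticAt_const, Eventually.of_forall fun _ _ => rfl, ?_⟩
  intro x
  exact ⟨0, Subsingleton.elim _ _⟩

theorem adm_le {n : ℕ} {T : Set (Cn n)} {c : Cn n} {l : ℕ} (h : Adm T c l) : l ≤ 2 * n := by
  obtain ⟨_, F, _, _, hs⟩ := h
  have h1 := LinearMap.finrank_le_finrank_of_surjective
    (f := (fderiv ℝ F c : Cn n →ₗ[ℝ] (Fin l → ℝ))) hs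
  rw [finrankC] at h1
  simpa using h1

/-- coordinates near `c` whose first components are the equations -/
theorem loc {n l : ℕ} (c : Cn n) (F : Cn n → (Fin l → ℝ)) (hF : AnalyticAt ℝ F c)
    (hs : Function.Surjective (fderiv ℝ F c)) (hF0 : F c = 0) :
    ∃ (k : ℕ) (Φ : OpenPartialHomeomorph (Cn n) ((Fin l → ℝ) × (Fin k → ℝ))), l + k = 2 * n ∧
      c ∈ Φ.source ∧ Φ c = 0 ∧ AnalyticAt ℝ Φ c ∧ AnalyticAt ℝ Φ.symm 0 ∧
      ∀ z, (Φ z).1 = F z := by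
  obtain ⟨A, hA⟩ : ∃ A : Cn n →L[ℝ] (Fin l → ℝ), A = fderiv ℝ F c := ⟨_, rfl⟩
  rw [← hA] at hs
  obtain ⟨k, hk⟩ : ∃ k, k = Module.finrank ℝ (LinearMap.ker (A : Cn n →ₗ[ℝ] (Fin l → ℝ))) :=
    ⟨_, rfl⟩
  have hdim : l + k = 2 * n := by
    have h1 := LinearMap.finrank_range_add_finrank_ker (A : Cn n →ₗ[ℝ] (Fin l → ℝ))
    rw [LinearMap.range_eq_top.2 hs, finrank_top, ← hk, finrankC] at h1
    simpa using h1
  obtain ⟨P, hP⟩ := LinearMap.exists_leftInverse_of_injective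
    (LinearMap.ker (A : Cn n →ₗ[ℝ] (Fin l → ℝ))).subtype (Submodule.ker_subtype _)
  let e : LinearMap.ker (A : Cn n →ₗ[ℝ] (Fin l → ℝ)) ≃ₗ[ℝ] (Fin k → ℝ) :=
    LinearEquiv.ofFinrankEq _ _ (by rw [← hk]; simp)
  let L : Cn n →L[ℝ] (Fin k → ℝ) := LinearMap.toContinuousLinearMap (e.toLinearMap.comp P)
  have hL : ∀ v, L v = e (P v) := fun v => rfl
  have hinj : Function.Injective (A.prod L) := by
    rw [injective_iff_map_eq_zero]
    intro v hv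
    have h1 : A v = 0 := congrArg Prod.fst hv
    have h2 : e (P v) = 0 := congrArg Prod.snd hv
    have h3 : P v = 0 := (LinearEquiv.map_eq_zero_iff e).1 h2
    have h4 := LinearMap.congr_fun hP ⟨v, h1⟩
    have h5 : P v = ⟨v, h1⟩ := h4
    rw [h3] at h5
    exact (congrArg Subtype.val h5).symm
  have hfr : Module.finrank ℝ (Cn n) = Module.finrank ℝ ((Fin l → ℝ) × (Fin k → ℝ)) := by
    rw [finrankC, Module.finrank_prod]
    simp [hdim]
  let I : Cn n ≃L[ℝ] (Fin l → ℝ) × (Fin k → ℝ) :=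
    (LinearEquiv.ofInjectiveOfFinrankEq ((A.prod L : Cn n →L[ℝ] (Fin l → ℝ) × (Fin k → ℝ)) :
      Cn n →ₗ[ℝ] (Fin l → ℝ) × (Fin k → ℝ)) hinj hfr).toContinuousLinearEquiv
  have hI : (I : Cn n →L[ℝ] (Fin l → ℝ) × (Fin k → ℝ)) = A.prod L := by
    ext v <;> rfl
  obtain ⟨a, ha⟩ : ∃ a : Cn n → (Fin l → ℝ) × (Fin k → ℝ), a = fun z => (F z, L (z - c)) :=
    ⟨_, rfl⟩
  have hL1 : AnalyticAt ℝ (fun z => L (z - c)) c :=
    (L.analyticAt _).comp (analyticAt_id.sub analyticAt_const)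
  have haan : AnalyticAt ℝ a c := by
    rw [ha]
    exact hF.prod hL1
  have hd : HasStrictFDerivAt a (I : Cn n →L[ℝ] (Fin l → ℝ) × (Fin k → ℝ)) c := by
    have h1 : HasStrictFDerivAt F A c := by
      rw [hA]
      exact hF.hasStrictFDerivAt
    have h2 : HasStrictFDerivAt (fun z => L (z - c)) L c := by
      have h3 : HasStrictFDerivAt (fun z : Cn n => z - c) (ContinuousLinearMap.id ℝ (Cn n)) c :=
        (hasStrictFDerivAt_id c).sub_const c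
      have h4 : HasStrictFDerivAt L L (c - c) := L.hasStrictFDerivAt
      exact HasStrictFDerivAt.comp (g := L) (f := fun z : Cn n => z - c) c h4 h3
    rw [ha, hI]
    exact h1.prodMk h2
  refine ⟨k, hd.toOpenPartialHomeomorph a, hdim, hd.mem_toOpenPartialHomeomorph_source, ?_, ?_,
    ?_, ?_⟩
  · rw [hd.toOpenPartialHomeomorph_coe, ha]
    simp [hF0]
  · rw [hd.toOpenPartialHomeomorph_coe]
    exact haan
  · have h1 := (hd.toOpenPartialHomeomorph a).analyticAt_symm' (i := I)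
      hd.mem_toOpenPartialHomeomorph_source (by rw [hd.toOpenPartialHomeomorph_coe]; exact haan)
      (by rw [hd.toOpenPartialHomeomorph_coe]; exact hd.hasFDerivAt.fderiv)
    have h2 : (hd.toOpenPartialHomeomorph a) c = 0 := by
      rw [hd.toOpenPartialHomeomorph_coe, ha]
      simp [hF0]
    rw [h2] at h1
    exact h1
  · intro z
    rw [hd.toOpenPartialHomeomorph_coe, ha]

theorem deriv_ne {k : ℕ} (φ : (Fin k → ℝ) → ℝ) (t' : Fin k → ℝ) (h : AnalyticAt ℝ φ t')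
    (hne : ¬ ∀ᶠ t in 𝓝 t', φ t = 0) : ∃ j, iteratedFDeriv ℝ j φ t' ≠ 0 := by
  by_contra hcon
  push Not at hcon
  apply hne
  obtain ⟨p, r, hp⟩ := h
  have h0 : ∀ y ∈ Metric.eball (0 : Fin k → ℝ) r, φ (t' + y) = 0 := by
    intro y hy
    have h1 := hp.hasSum_iteratedFDeriv hy
    have h2 : (fun n => ((Nat.factorial n : ℕ) : ℝ)⁻¹ • iteratedFDeriv ℝ n φ t' fun _ => y) =
        fun _ => 0 := by
      funext n
      rw [hcon n]
      simp
    rw [h2] at h1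
    exact h1.unique hasSum_zero
  filter_upwards [Metric.eball_mem_nhds t' hp.r_pos] with t ht
  have h3 := h0 (t - t') (by
    rw [Metric.mem_eball, edist_zero_right, ← edist_eq_enorm_sub]
    exact ht)
  rwa [add_sub_cancel] at h3

theorem step {n l k : ℕ} {T : Set (Cn n)} {a : Cn n → (Fin l → ℝ) × (Fin k → ℝ)}
    {b : (Fin l → ℝ) × (Fin k → ℝ) → Cn n} {O : Set (Cn n)} {δ : ℝ} (hO : IsOpen O)
    (anA : AnalyticOnNhd ℝ a O) (anB : AnalyticOnNhd ℝ b (ball 0 δ)) (mapA : MapsTo a O (ball 0 δ))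
    (ba : ∀ z ∈ O, b (a z) = z)
    (ab : ∀ x ∈ ball (0 : (Fin l → ℝ) × (Fin k → ℝ)) δ, a (b x) = x)
    (sub : ∀ z ∈ T ∩ O, (a z).1 = 0) {c' : Cn n} (hc' : c' ∈ T ∩ O) {f : Cn n → ℝ}
    (hf : AnalyticAt ℝ f c') (hfT : ∀ᶠ z in 𝓝 c', z ∈ T → f z = 0)
    (hne : ¬ ∀ᶠ t in 𝓝 (a c').2, f (b (0, t)) = 0) : ∃ z1, Adm T z1 (l + 1) := by
  obtain ⟨φ, hφ⟩ : ∃ φ : (Fin k → ℝ) → ℝ, φ = fun t => f (b (0, t)) := ⟨_, rfl⟩
  have hab : ∀ z ∈ T ∩ O, ((0 : Fin l → ℝ), (a z).2) = a z := by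
    intro z hz
    rw [← sub z hz]
  have hφT : ∀ z ∈ T ∩ O, φ (a z).2 = f z := by
    intro z hz
    rw [hφ]
    show f (b (0, (a z).2)) = f z
    rw [hab z hz, ba z hz.2]
  have hφa : AnalyticAt ℝ φ (a c').2 := by
    have h1 : AnalyticAt ℝ (fun t : Fin k → ℝ => ((0 : Fin l → ℝ), t)) (a c').2 :=
      analyticAt_const.prod analyticAt_id
    have h2 : AnalyticAt ℝ b ((0 : Fin l → ℝ), (a c').2) := by
      rw [hab c' hc']
      exact anB _ (mapA hc'.2)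
    have h3 : AnalyticAt ℝ f (b ((0 : Fin l → ℝ), (a c').2)) := by
      rw [hab c' hc', ba c' hc'.2]
      exact hf
    have h4 : AnalyticAt ℝ (fun t : Fin k → ℝ => b ((0 : Fin l → ℝ), t)) (a c').2 :=
      AnalyticAt.comp (g := b) (f := fun t : Fin k → ℝ => ((0 : Fin l → ℝ), t)) h2 h1
    rw [hφ]
    exact AnalyticAt.comp (g := f) (f := fun t : Fin k → ℝ => b ((0 : Fin l → ℝ), t)) h3 h4
  obtain ⟨j₀, hj₀⟩ := deriv_ne φ _ hφa (by rw [hφ]; exact hne)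
  have hac : ContinuousAt a c' := (anA c' hc'.2).continuousAt
  have hN : ∀ᶠ z in 𝓝 c', z ∈ O ∧ AnalyticAt ℝ φ (a z).2 ∧ (z ∈ T → f z = 0) := by
    have h1 : ∀ᶠ z in 𝓝 c', AnalyticAt ℝ φ (a z).2 :=
      (continuous_snd.continuousAt.comp hac).eventually
        ((isOpen_analyticAt ℝ φ).eventually_mem hφa)
    filter_upwards [hO.mem_nhds hc'.2, h1, hfT] with z h2 h3 h4
    exact ⟨h2, h3, h4⟩
  obtain ⟨N, hNs, hNo, hcN⟩ := _root_.mem_nhds_iff.1 hN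
  have hex : ∃ j, ∃ z ∈ T ∩ N, iteratedFDeriv ℝ j φ (a z).2 ≠ 0 := ⟨j₀, c', ⟨hc'.1, hcN⟩, hj₀⟩
  classical
  obtain ⟨j, hj, hmin⟩ : ∃ j, (∃ z ∈ T ∩ N, iteratedFDeriv ℝ j φ (a z).2 ≠ 0) ∧
      ∀ i < j, ¬ ∃ z ∈ T ∩ N, iteratedFDeriv ℝ i φ (a z).2 ≠ 0 :=
    ⟨Nat.find hex, Nat.find_spec hex, fun i hi => Nat.find_min hex hi⟩
  obtain ⟨z1, hz1, hz1'⟩ := hj
  cases j with
  | zero =>
    exfalso
    apply hz1'
    ext v
    rw [iteratedFDeriv_zero_apply, hφT z1 ⟨hz1.1, (hNs hz1.2).1⟩]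
    exact (hNs hz1.2).2.2 hz1.1
  | succ m =>
    have hD0 : ∀ z ∈ T ∩ N, iteratedFDeriv ℝ m φ (a z).2 = 0 := by
      intro z hz
      by_contra h
      exact hmin m (Nat.lt_succ_self m) ⟨z, hz, h⟩
    have hfd : fderiv ℝ (iteratedFDeriv ℝ m φ) (a z1).2 ≠ 0 := by
      intro h
      apply hz1'
      ext v
      rw [iteratedFDeriv_succ_apply_left, h]
      rfl
    obtain ⟨v, hv⟩ : ∃ v, fderiv ℝ (iteratedFDeriv ℝ m φ) (a z1).2 v ≠ 0 := by
      by_contra h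
      push Not at h
      exact hfd (ContinuousLinearMap.ext h)
    obtain ⟨w, hw⟩ : ∃ w, fderiv ℝ (iteratedFDeriv ℝ m φ) (a z1).2 v w ≠ 0 := by
      by_contra h
      push Not at h
      exact hv (ContinuousMultilinearMap.ext h)
    have hz1O : z1 ∈ T ∩ O := ⟨hz1.1, (hNs hz1.2).1⟩
    have hDan : ∀ z ∈ N, AnalyticAt ℝ (iteratedFDeriv ℝ m φ) (a z).2 := by
      intro z hz
      exact AnalyticOnNhd.iteratedFDeriv (s := {x | AnalyticAt ℝ φ x}) (fun x hx => hx) m _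
        (hNs hz).2.1
    let ev : (ContinuousMultilinearMap ℝ (fun _ : Fin m => Fin k → ℝ) ℝ) →L[ℝ] ℝ :=
      ContinuousMultilinearMap.apply ℝ (fun _ : Fin m => Fin k → ℝ) ℝ w
    let ℓ : (Fin k → ℝ) →L[ℝ] ℝ := ev.comp (fderiv ℝ (iteratedFDeriv ℝ m φ) (a z1).2)
    have hℓv : ℓ v ≠ 0 := hw
    have hψd : HasFDerivAt (fun x => ev (iteratedFDeriv ℝ m φ x)) ℓ (a z1).2 :=
      ev.hasFDerivAt.comp _ (hDan z1 hz1.2).differentiableAt.hasFDerivAt
    obtain ⟨a', ha'⟩ : ∃ a', a' = fderiv ℝ a z1 := ⟨_, rfl⟩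
    have haz1 : HasFDerivAt a a' z1 := by
      rw [ha']
      exact (anA z1 hz1O.2).differentiableAt.hasFDerivAt
    have hsur : Function.Surjective a' := by
      have h1 : HasFDerivAt b (fderiv ℝ b (a z1)) (a z1) :=
        (anB _ (mapA hz1O.2)).differentiableAt.hasFDerivAt
      have h2 : HasFDerivAt a a' (b (a z1)) := by rw [ba z1 hz1O.2]; exact haz1
      have h3 : HasFDerivAt (a ∘ b) (a'.comp (fderiv ℝ b (a z1))) (a z1) := h2.comp _ h1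
      have h4 : (a ∘ b) =ᶠ[𝓝 (a z1)] id := by
        filter_upwards [isOpen_ball.mem_nhds (mapA hz1O.2)] with x hx
        exact ab x hx
      have h5 : a'.comp (fderiv ℝ b (a z1)) = ContinuousLinearMap.id ℝ _ :=
        (h3.congr_of_eventuallyEq h4.symm).unique (hasFDerivAt_id _)
      intro x
      exact ⟨fderiv ℝ b (a z1) x, by
        have := congrArg (fun L : _ →L[ℝ] _ => L x) h5
        simpa using this⟩
    refine ⟨z1, adm_of (ℝ × (Fin l → ℝ)) ?_ hz1.1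
      (fun z => (ev (iteratedFDeriv ℝ m φ (a z).2), (a z).1)) ?_ ?_
      ((ℓ.comp ((ContinuousLinearMap.snd ℝ (Fin l → ℝ) (Fin k → ℝ)).comp a')).prod
        ((ContinuousLinearMap.fst ℝ (Fin l → ℝ) (Fin k → ℝ)).comp a')) ?_ ?_⟩
    · rw [Module.finrank_prod]
      simp [add_comm]
    · have h1 : AnalyticAt ℝ (fun z => (a z).2) z1 :=
        AnalyticAt.comp (g := Prod.snd) (f := a) analyticAt_snd (anA z1 hz1O.2)
      have h2 : AnalyticAt ℝ (fun z => (a z).1) z1 :=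
        AnalyticAt.comp (g := Prod.fst) (f := a) analyticAt_fst (anA z1 hz1O.2)
      have h3 : AnalyticAt ℝ (fun z => iteratedFDeriv ℝ m φ (a z).2) z1 :=
        AnalyticAt.comp (g := iteratedFDeriv ℝ m φ) (f := fun z => (a z).2) (hDan z1 hz1.2) h1
      exact (AnalyticAt.comp (g := ev) (f := fun z => iteratedFDeriv ℝ m φ (a z).2)
        (ev.analyticAt _) h3).prod h2
    · filter_upwards [hNo.mem_nhds hz1.2] with z hz hzT
      rw [hD0 z ⟨hzT, hz⟩, map_zero, sub z ⟨hzT, (hNs hz).1⟩]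
      rfl
    · have h1 : HasFDerivAt (fun z => (a z).2)
          ((ContinuousLinearMap.snd ℝ (Fin l → ℝ) (Fin k → ℝ)).comp a') z1 := haz1.snd
      have h2 : HasFDerivAt (fun z => (a z).1)
          ((ContinuousLinearMap.fst ℝ (Fin l → ℝ) (Fin k → ℝ)).comp a') z1 := haz1.fst
      exact (hψd.comp z1 h1).prodMk h2
    · rintro ⟨r, x⟩
      obtain ⟨u, hu⟩ := hsur (x, (r / ℓ v) • v)
      refine ⟨u, ?_⟩
      have h1 : ℓ ((r / ℓ v) • v) = r := by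
        rw [map_smul, smul_eq_mul, div_mul_cancel₀ r hℓv]
      show (ℓ (a' u).2, (a' u).1) = (r, x)
      rw [hu, h1]

end SelAux

theorem tSel : S_Sel := by
  intro n T hT
  classical
  obtain ⟨c0, hc0⟩ := hT
  obtain ⟨l, ⟨c, hc⟩, hmax⟩ : ∃ l, (∃ c, SelAux.Adm T c l) ∧
      ∀ l' c', SelAux.Adm T c' l' → l' ≤ l := by
    refine ⟨Nat.findGreatest (fun l => ∃ c, SelAux.Adm T c l) (2 * n), ?_, ?_⟩
    · exact Nat.findGreatest_spec (P := fun l => ∃ c, SelAux.Adm T c l) (Nat.zero_le (2 * n))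
        ⟨c0, SelAux.adm_zero hc0⟩
    · intro l' c' h
      exact Nat.le_findGreatest (SelAux.adm_le h) ⟨c', h⟩
  obtain ⟨hcT, F, hF, hFT, hFs⟩ := hc
  have hF0 : F c = 0 := hFT.self_of_nhds hcT
  obtain ⟨k, Φ, hdim, hcs, hΦc, hΦa, hΦs, hΦF⟩ := SelAux.loc c F hF hFs hF0
  have h0t : (0 : (Fin l → ℝ) × (Fin k → ℝ)) ∈ Φ.target := by
    rw [← hΦc]
    exact Φ.map_source hcs
  have hs0 : Φ.symm 0 = c := by
    rw [← hΦc, Φ.left_inv hcs]
  have hev : ∀ᶠ x in 𝓝 (0 : (Fin l → ℝ) × (Fin k → ℝ)), x ∈ Φ.target ∧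
      AnalyticAt ℝ Φ.symm x ∧ AnalyticAt ℝ Φ (Φ.symm x) ∧
      (Φ.symm x ∈ T → F (Φ.symm x) = 0) := by
    have hcont : ContinuousAt Φ.symm 0 := hΦs.continuousAt
    have h1 : ∀ᶠ z in 𝓝 (Φ.symm 0), AnalyticAt ℝ Φ z := by
      rw [hs0]
      exact (isOpen_analyticAt ℝ Φ).eventually_mem hΦa
    have h2 : ∀ᶠ z in 𝓝 (Φ.symm 0), z ∈ T → F z = 0 := by
      rw [hs0]
      exact hFT
    filter_upwards [Φ.open_target.mem_nhds h0t, (isOpen_analyticAt ℝ Φ.symm).eventually_mem hΦs,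
      hcont.eventually h1, hcont.eventually h2] with x g1 g2 g3 g4
    exact ⟨g1, g2, g3, g4⟩
  obtain ⟨δ, hδ, hball⟩ := Metric.eventually_nhds_iff_ball.1 hev
  have hO : IsOpen (Φ.source ∩ Φ ⁻¹' ball 0 δ) := Φ.isOpen_inter_preimage isOpen_ball
  have anA : AnalyticOnNhd ℝ Φ (Φ.source ∩ Φ ⁻¹' ball 0 δ) := by
    intro z hz
    have h1 := (hball (Φ z) hz.2).2.2.1
    rwa [Φ.left_inv hz.1] at h1
  have anB : AnalyticOnNhd ℝ Φ.symm (ball 0 δ) := fun x hx => (hball x hx).2.1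
  have mapA : MapsTo Φ (Φ.source ∩ Φ ⁻¹' ball 0 δ) (ball 0 δ) := fun z hz => hz.2
  have mapB : MapsTo Φ.symm (ball 0 δ) (Φ.source ∩ Φ ⁻¹' ball 0 δ) := by
    intro x hx
    refine ⟨Φ.map_target (hball x hx).1, ?_⟩
    rw [mem_preimage, Φ.right_inv (hball x hx).1]
    exact hx
  have ba : ∀ z ∈ Φ.source ∩ Φ ⁻¹' ball 0 δ, Φ.symm (Φ z) = z := fun z hz => Φ.left_inv hz.1
  have ab : ∀ x ∈ ball (0 : (Fin l → ℝ) × (Fin k → ℝ)) δ, Φ (Φ.symm x) = x :=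
    fun x hx => Φ.right_inv (hball x hx).1
  have sub : ∀ z ∈ T ∩ (Φ.source ∩ Φ ⁻¹' ball 0 δ), (Φ z).1 = 0 := by
    rintro z ⟨hzT, hz⟩
    rw [hΦF]
    have h1 := (hball (Φ z) hz.2).2.2.2
    rw [Φ.left_inv hz.1] at h1
    exact h1 hzT
  refine ⟨c, l, k, Φ, Φ.symm, Φ.source ∩ Φ ⁻¹' ball 0 δ, δ, hcT, hδ, hdim, hO, ⟨hcs, ?_⟩, hΦc,
    anA, anB, mapA, mapB, ba, ab, sub, ?_⟩
  · rw [mem_preimage, hΦc]
    exact mem_ball_self hδ
  · intro c' hc' f hf hfT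
    by_contra hne
    obtain ⟨z1, hz1⟩ := SelAux.step hO anA anB mapA ba ab sub hc' hf hfT hne
    have := hmax _ _ hz1
    omega

end KP
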