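import Pool.Agent.Lib.KP.SpecS

/-!
# KP, block S: the product of the defining functions
-/

set_option autoImplicit false

open Set Filter Topology Metric

namespace KP

namespace SgQAux

variable {n : ℕ} {r : ℝ}

theorem mul_ne {f g : Cn n → ℝ} (hf : AnalyticOnNhd ℝ f (ball 0 r))
    (hg : AnalyticOnNhd ℝ g (ball 0 r)) (hf0 : ∃ z ∈ ball (0 : Cn n) r, f z ≠ 0)
    (hg0 : ∃ z ∈ ball (0 : Cn n) r, g z ≠ 0) : ∃ z ∈ ball (0 : Cn n) r, f z * g z ≠ 0 := by
  by_contra hcon
  push Not at hcon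
  obtain ⟨z0, hz0, hgz0⟩ := hg0
  have h1 : ∀ᶠ z in 𝓝 z0, f z = 0 := by
    filter_upwards [isOpen_ball.mem_nhds hz0, (hg z0 hz0).continuousAt.eventually_ne hgz0]
      with z hz1 hz2
    exact (mul_eq_zero.1 (hcon z hz1)).resolve_right hz2
  have h2 := hf.eqOn_zero_of_preconnected_of_eventuallyEq_zero
    (convex_ball (0 : Cn n) r).isPreconnected hz0 h1
  obtain ⟨z1, hz1, hfz1⟩ := hf0
  exact hfz1 (h2 hz1)

theorem prod_an {ι : Type} (f : ι → Cn n → ℝ) (s : Finset ι)
    (hf : ∀ k ∈ s, AnalyticOnNhd ℝ (f k) (ball 0 r)) :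
    AnalyticOnNhd ℝ (fun z => ∏ k ∈ s, f k z) (ball 0 r) := by
  classical
  induction s using Finset.induction_on with
  | empty =>
    simp only [Finset.prod_empty]
    exact analyticOnNhd_const
  | insert a s ha ih =>
    simp only [Finset.prod_insert ha]
    exact (hf a (Finset.mem_insert_self a s)).mul
      (ih fun k hk => hf k (Finset.mem_insert_of_mem hk))

theorem prod_ne {ι : Type} (hr : 0 < r) (f : ι → Cn n → ℝ) (s : Finset ι)
    (hf : ∀ k ∈ s, AnalyticOnNhd ℝ (f k) (ball 0 r))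
    (h0 : ∀ k ∈ s, ∃ z ∈ ball (0 : Cn n) r, f k z ≠ 0) :
    ∃ z ∈ ball (0 : Cn n) r, ∏ k ∈ s, f k z ≠ 0 := by
  classical
  induction s using Finset.induction_on with
  | empty => exact ⟨0, mem_ball_self hr, by simp⟩
  | insert a s ha ih =>
    simp only [Finset.prod_insert ha]
    exact mul_ne (hf a (Finset.mem_insert_self a s))
      (prod_an f s fun k hk => hf k (Finset.mem_insert_of_mem hk))
      (h0 a (Finset.mem_insert_self a s))
      (ih (fun k hk => hf k (Finset.mem_insert_of_mem hk))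
        fun k hk => h0 k (Finset.mem_insert_of_mem hk))

theorem sign_ev {f : Cn n → ℝ} {z : Cn n} (hf : ContinuousAt f z) (h : f z ≠ 0) :
    ∀ᶠ z' in 𝓝 z, SignType.sign (f z') = SignType.sign (f z) := by
  rcases lt_or_gt_of_ne h with h1 | h1
  · filter_upwards [hf.eventually_lt_const h1] with z' hz'
    rw [sign_neg hz', sign_neg h1]
  · filter_upwards [hf.eventually_const_lt h1] with z' hz'
    rw [sign_pos hz', sign_pos h1]

end SgQAux

open SgQAux in
theorem pSgQ : S_SgQ := by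
  classical
  rintro n A r hr ⟨m, f, hf, hA⟩
  refine ⟨fun z => ∏ k ∈ Finset.univ.filter (fun k => ∃ z ∈ ball (0 : Cn n) r, f k z ≠ 0), f k z,
    prod_an f _ fun k _ => hf k, prod_ne hr f _ (fun k _ => hf k) fun k hk => ?_, ?_⟩
  · exact (Finset.mem_filter.1 hk).2
  · intro z hz hQ
    have h1 : ∀ᶠ z' in 𝓝 z, ∀ k, SignType.sign (f k z') = SignType.sign (f k z) := by
      rw [Filter.eventually_all]
      intro k
      by_cases hk : ∃ z ∈ ball (0 : Cn n) r, f k z ≠ 0
      · exact sign_ev (hf k z hz).continuousAt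
          (Finset.prod_ne_zero_iff.1 hQ k (Finset.mem_filter.2 ⟨Finset.mem_univ k, hk⟩))
      · push Not at hk
        filter_upwards [isOpen_ball.mem_nhds hz] with z' hz'
        rw [hk z' hz', hk z hz]
    filter_upwards [h1, isOpen_ball.mem_nhds hz] with z' hz1 hz2
    exact hA z' hz2 z hz hz1

end KP
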