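import Pool.Agent.Lib.KP.S.Cplx

/-!
# KP, block S: straightening of a totally real surface
-/

set_option autoImplicit false

open Set Filter Topology Metric

namespace KP

namespace TRcAux

open CplxAux

/-- the inclusion of the real vectors as a linear map -/
noncomputable def cxL (m : ℕ) : (Fin m → ℝ) →L[ℝ] Cn m :=
  ContinuousLinearMap.pi fun i => Complex.ofRealCLM.comp (ContinuousLinearMap.proj i)

theorem cxL_apply {m : ℕ} (t : Fin m → ℝ) : cxL m t = cx t := rfl

theorem cx_single {m : ℕ} (j : Fin m) : cx (Pi.single j (1 : ℝ)) = Pi.single j (1 : ℂ) := by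
  ext i
  unfold cx
  by_cases h : i = j
  · subst h
    simp
  · simp [h]

/-- the derivative of the complexification -/
theorem fd {m k : ℕ} {s : (Fin m → ℝ) → Cn k} {t0 : Fin m → ℝ} {F : Cn m → Cn k}
    (hF : DifferentiableAt ℂ F (cx t0)) (h : ∀ᶠ t in 𝓝 t0, F (cx t) = s t) (v : Fin m → ℝ) :
    fderiv ℂ F (cx t0) (cx v) = fderiv ℝ s t0 v := by
  have h1 : HasFDerivAt (fun t => F (cx t)) (((fderiv ℂ F (cx t0)).restrictScalars ℝ).comp (cxL m))
      t0 := (hF.hasFDerivAt.restrictScalars ℝ).comp t0 (cxL m).hasFDerivAt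
  have h2 : HasFDerivAt s (((fderiv ℂ F (cx t0)).restrictScalars ℝ).comp (cxL m)) t0 :=
    h1.congr_of_eventuallyEq (h.mono fun t ht => ht.symm)
  rw [h2.fderiv]
  rfl

end TRcAux

open CplxAux TRcAux in
theorem pTRc (hCplx : S_Cplx) : S_TRc := by
  intro s t0 hs hk
  obtain ⟨ρ0, hρ0, F, hF, hFs⟩ := hCplx 2 2 s t0 hs
  have hFs' : ∀ t ∈ ball t0 ρ0, F (cx t) = s t := hFs
  have hF' : DifferentiableOn ℂ F (ball (cx t0) ρ0) := hF
  set psi : Cn 2 → Cn 2 := fun w => F (cx t0 + w) with hpsi
  have hpd : DifferentiableOn ℂ psi (ball 0 ρ0) := by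
    refine hF'.comp (differentiableOn_id.const_add _) fun w hw => ?_
    rw [mem_ball, dist_eq_norm]
    rw [mem_ball_zero_iff] at hw
    simpa using hw
  have hpa : AnalyticOnNhd ℂ psi (ball 0 ρ0) :=
    Pool.Agent.Lib.Osgood.analyticOnNhd isOpen_ball hpd
  have h0 : (0 : Cn 2) ∈ ball (0 : Cn 2) ρ0 := mem_ball_self hρ0
  have hder : ∀ v : Fin 2 → ℝ, fderiv ℂ psi 0 (cx v) = fderiv ℝ s t0 v := by
    intro v
    have h1 : fderiv ℂ psi 0 = fderiv ℂ F (cx t0) := by
      have h2 := fderiv_comp_add_left (𝕜 := ℂ) (f := F) (x := 0) (cx t0)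
      rw [add_zero] at h2
      exact h2
    rw [h1]
    refine fd (hF'.differentiableAt (isOpen_ball.mem_nhds (mem_ball_self hρ0))) ?_ v
    filter_upwards [isOpen_ball.mem_nhds (mem_ball_self hρ0)] with t ht
    exact hFs' t ht
  have hdet : (fderiv ℂ psi 0).det ≠ 0 := by
    have h1 : (fderiv ℂ psi 0).det = kap s t0 := by
      rw [ContinuousLinearMap.det, ← LinearMap.det_toMatrix', Matrix.det_fin_two]
      simp only [LinearMap.toMatrix'_apply, ContinuousLinearMap.coe_coe]
      have e0 := hder (Pi.single 0 1)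
      have e1 := hder (Pi.single 1 1)
      rw [cx_single] at e0 e1
      unfold kap
      rw [← e0, ← e1]
      ring
    rw [h1]
    exact hk
  -- the inverse function theorem
  set L0 := (fderiv ℂ psi 0).toContinuousLinearEquivOfDetNeZero hdet with hL0
  have hst : HasStrictFDerivAt psi (L0 : Cn 2 →L[ℂ] Cn 2) 0 := by
    rw [hL0, ContinuousLinearMap.coe_toContinuousLinearEquivOfDetNeZero]
    exact (hpa 0 h0).hasStrictFDerivAt
  set e := hst.toOpenPartialHomeomorph psi with he
  have hec : ∀ w, e w = psi w := fun w => by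
    rw [he, HasStrictFDerivAt.toOpenPartialHomeomorph_coe]
  set U : Set (Cn 2) := {w | w ∈ ball (0 : Cn 2) ρ0 ∧ (fderiv ℂ psi w).det ≠ 0} with hU
  have hUo : IsOpen U := by
    have h1 : ContinuousOn (fun w => (fderiv ℂ psi w).det) (ball (0 : Cn 2) ρ0) :=
      ContinuousLinearMap.continuous_det.comp_continuousOn hpa.fderiv.continuousOn
    exact h1.isOpen_inter_preimage isOpen_ball isOpen_ne
  set e' := e.restrOpen U hUo with he'
  have he's : e'.source = e.source ∩ U := e.restrOpen_source U hUo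
  have he'c : ∀ w, e' w = psi w := fun w => hec w
  have h0s : (0 : Cn 2) ∈ e'.source := by
    rw [he's]
    exact ⟨hst.mem_toOpenPartialHomeomorph_source, h0, hdet⟩
  have himg : psi '' e'.source = e'.target := by
    rw [← e'.image_source_eq_target]
    exact image_congr fun w _ => (he'c w).symm
  refine ⟨
    { W := e'.source
      O := e'.target
      psi := psi
      pi := e'.symm
      hW := e'.open_source
      hO := e'.open_target
      hpsi := hpd.mono (by
        rw [he's]
        exact fun w hw => hw.2.1)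
      hpi := ?_
      img := by
        rw [himg, univ_inter]
      left := fun w hw => by
        rw [← he'c w]
        exact e'.left_inv hw }, h0s, ?_, ?_⟩
  · intro z hz
    have h1 : e'.symm z ∈ e'.source := e'.map_target hz
    rw [he's] at h1
    have h2 : HasFDerivAt e' (((fderiv ℂ psi (e'.symm z)).toContinuousLinearEquivOfDetNeZero h1.2.2 :
        Cn 2 ≃L[ℂ] Cn 2) : Cn 2 →L[ℂ] Cn 2) (e'.symm z) := by
      rw [ContinuousLinearMap.coe_toContinuousLinearEquivOfDetNeZero]
      exact (hpd.differentiableAt (isOpen_ball.mem_nhds h1.2.1)).hasFDerivAt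
    exact (e'.hasFDerivAt_symm hz h2).differentiableAt.differentiableWithinAt
  · change F (cx t0 + 0) = s t0
    rw [add_zero]
    exact hFs' t0 (mem_ball_self hρ0)
  · obtain ⟨ρ1, hρ1, h1⟩ := Metric.isOpen_iff.1 e'.open_source 0 h0s
    refine ⟨min ρ0 ρ1, lt_min hρ0 hρ1, (ball_subset_ball (min_le_right _ _)).trans h1, ?_⟩
    intro t ht
    change F (cx t0 + cx t) = s (t0 + t)
    have h2 : cx t0 + cx t = cx (t0 + t) := by
      ext i
      simp [cx]
    rw [h2]
    refine hFs' _ ?_
    rw [mem_ball, dist_eq_norm, add_sub_cancel_left]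
    exact ht.trans_le (min_le_left _ _)

end KP
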