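import Pool.Agent.Lib.KP.SpecS

/-!
# KP, block S, Mv: change of coordinates (helper69)
-/

set_option autoImplicit false

open Set Filter Topology Metric

namespace KP

theorem tMv (h1 : S_PkC) : S_Mv := by
  intro n A e r hA hS h0 hP hr
  have hopen : IsOpen (e.pre A) := e.hpsi.continuousOn.isOpen_inter_preimage e.hW hA
  have hO2 : IsOpen (e.W ∩ e.psi ⁻¹' ball 0 r) :=
    e.hpsi.continuousOn.isOpen_inter_preimage e.hW isOpen_ball
  obtain ⟨ρ, hρ, hb⟩ := Metric.isOpen_iff.1 hO2 0 ⟨h0, hr⟩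
  refine ⟨hopen, (h1 n A e hA 0 h0).2 hP, ρ, hρ, fun w hw => (hb hw).1, fun w hw => (hb hw).2, ?_,
    fun w hw hw' => (h1 n A e hA w (hb hw).1).1 hw'⟩
  obtain ⟨m, f, hf, hfs⟩ := hS
  refine ⟨m, fun k w => f k (e.psi w), fun k w hw => ?_, fun z hz z' hz' h => ?_⟩
  · have hψ : AnalyticAt ℂ e.psi w := Pool.Agent.Lib.Osgood.analyticOnNhd e.hW e.hpsi w (hb hw).1
    exact (hf k _ (hb hw).2).comp hψ.restrictScalars
  · have h2 := hfs (e.psi z) (hb hz).2 (e.psi z') (hb hz').2 h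
    constructor
    · intro h3
      exact ⟨(hb hz').1, h2.1 h3.2⟩
    · intro h3
      exact ⟨(hb hz).1, h2.2 h3.2⟩

end KP
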